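import Pool.Agent.Work.MP_c04246_lc.GT.Df
import Pool.Agent.Work.MP_c04246_lc.HMain

/-!
MODULE Enb (size M-L, mostly copy of `H.lower_bound` in HMain.lean). The evaluation of light formulas after the restrictions.

Proof. `H.lower_bound` with the following changes. `S` is given (closed under subformulas, `S.card < 2 ^ w`, all formulas `Lay` and of level `≤ d`), it
replaces `Sl l`; `h = 0`. The ideal `pciG` is taken with `B = n / 256` (`2 * B ≤ ℓ * (k / 4)`, as `n ≤ 128 * (ℓ * (k / 4))` is shown in `hB` there), so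
`hδB`, `hB'`, `hB''` become inequalities with `n / 256` on the right hand side; they follow from `(g0 + r + 1) * w ^ a ≤ n` with `a` large
(`q * b 0 + 4 * d + 20`) and `w` large (`256 ≤ w`). After `exists_env` put `F = E.F`. `Evl P S D0 F`: `E.deg_F`, `E.respF_zr`
(`(E.w + 10) * ((p + 3) * E.DD) ≤ P.B`, as in `final_num`), with `E.DD ≤ D0 = (g0 + r + 1) * (r + 1) ^ nt * w ^ a`; but for `E.respF_zr` one needs
`(w + 10) * ((p + 3) * E.DD) ≤ n / 256`, which follows from the hypothesis `hD0 : (g0 + r + 1) * (r + 1) ^ nt * w ^ a ≤ n` (this replaces `hg`).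
`bF K (F pmTaut) ∈ P.Zr`: `E.last_zr` (`pmTaut ∈ S`). `1 ∉ P.Zr`: `X.not_Zr_one hψ hqK hE (by omega)`. `final_num` with `h = 0` gives the numerical facts.
-/

set_option autoImplicit false
set_option linter.unusedSectionVars false
set_option linter.unusedSimpArgs false
set_option linter.unusedVariables false
set_option linter.unnecessarySeqFocus false

namespace Pool.Agent.Work.MP_c04246_lc.GT

open Finset Fml H

theorem exists_evl (q p : ℕ) [Fact q.Prime] [Fact p.Prime] (hpq : p ≠ q) (d nt : ℕ) :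
    ∃ a w0 : ℕ, ∀ (n w M m g r k : ℕ) (G : Fin n → Fin k × Fin k), w0 ≤ w → Nat.log 2 n ≤ w →
      (∀ v, X.dg G v ≤ 65 * (Nat.log 2 n + 5)) → X.ExpOK (Nat.log 2 n + 5) G (fun _ => true) →
      8 * (Nat.log 2 n + 5) * k ≤ n → n ≤ 16 * (Nat.log 2 n + 5) * k →
      w ^ a ≤ M → m * w ^ a ≤ M ^ q → (g + r + 1) * (r + 1) ^ nt * w ^ a ≤ n →
      ∀ S : Finset (Fml p (HE q G M)), S.card < 2 ^ w → SC S →
        (∀ x ∈ S, Lay w m g r nt x) → (∀ x ∈ S, lv w m none x ≤ d) → graphTaut p q G M ∈ S →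
        ∃ (K : Type) (_ : Field K) (_ : CharP K p) (P : PCI (Fin n → ZMod q) K)
          (F : Fml p (HE q G M) → (Fin n → ZMod q) → Bool),
          Evl P S ((g + r + 1) * (r + 1) ^ nt * w ^ a) F ∧
          bF K (F (graphTaut p q G M)) ∈ P.Zr ∧ (1 : (Fin n → ZMod q) → K) ∉ P.Zr ∧
          P.B = n / 256 := by
  classical
  have hqp := (Fact.out : q.Prime)
  have hpp := (Fact.out : p.Prime)
  have hq0 : 0 < q := hqp.pos
  have hq2 : 2 ≤ q := hqp.two_le
  have : NeZero q := ⟨hq0.ne'⟩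
  obtain ⟨K, _, _, ψ, hψ, hqK⟩ := X.exists_fld p q hpq
  set t : ℕ → ℕ := fun i => tt q d (d - i) with ht
  set b : ℕ → ℕ := fun i => t i - 3 * (i + 1) with hb
  have htge : ∀ i, 3 * d + 5 ≤ t i := fun i => tt_ge hq0 _
  obtain ⟨wB, hwB⟩ := Big.exists q
  obtain ⟨wP, hwP⟩ := pow_le_two (q * (b 0 + 3))
  refine ⟨q * b 0 + 4 * d + 20, max (max wB wP) (max 400 (max (d + 9 + 2 * p)
    (3 * ((p + 3) * (p * p ^ nt))))), ?_⟩
  intro n w M m g0 r k G hw hnw hdg hexp hk8 hk16 hM hm hD0 S hScard hSC hSw hSlv hφ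
  have hBig : Big q w := hwB w ((le_max_left _ _).trans ((le_max_left _ _).trans hw))
  have hwP' := hwP w ((le_max_right _ _).trans ((le_max_left _ _).trans hw))
  have hw400 : 400 ≤ w := (le_max_left _ _).trans ((le_max_right _ _).trans hw)
  have hwd : d + 9 + 2 * p ≤ w := (le_max_left _ _).trans ((le_max_right _ _).trans
    ((le_max_right _ _).trans hw))
  have hwp : 3 * ((p + 3) * (p * p ^ nt)) ≤ w := (le_max_right _ _).trans ((le_max_right _ _).trans
    ((le_max_right _ _).trans hw))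
  have hw1 : 1 ≤ w := by omega
  have hqw : q + 2 ≤ w := hBig.c3
  have hqq : q * q + 1 ≤ w := by
    have h1 := hBig.c4
    have h2 : 4 + q + q * q < 2 ^ (4 + q + q * q) := Nat.lt_two_pow_self
    omega
  have hqw2 : q * w ≤ w ^ 2 := by rw [pow_two]; exact Nat.mul_le_mul_right _ (by omega)
  set ℓ := Nat.log 2 n + 5 with hℓ
  have hn2 : n < 2 ^ (w + 1) := lt_of_lt_of_le (Nat.lt_pow_succ_log_self (by norm_num) n)
    (Nat.pow_le_pow_right (by norm_num) (by omega))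
  have hkn : k ≤ n := by
    calc k ≤ 8 * ℓ * k := Nat.le_mul_of_pos_left _ (by omega)
      _ ≤ n := hk8
  have hℓw : ℓ ≤ w + 5 := by omega
  have hδ : 65 * ℓ + 1 ≤ w ^ 2 := by
    have : 66 * w ≤ w ^ 2 := by rw [pow_two]; exact Nat.mul_le_mul_right _ (by omega)
    omega
  have hb0 : b 0 + 3 = t 0 := by have := htge 0; simp only [hb]; omega
  have hb0' : 2 ≤ b 0 := by have := htge 0; simp only [hb]; omega
  set g := g0 + r with hgdef
  -- the first restriction
  set k0 := w ^ b 0 + (M - w ^ b 0) % q with hk0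
  have hMb : w ^ b 0 ≤ M := by
    refine le_trans (Nat.pow_le_pow_right hw1 ?_) hM
    have : b 0 ≤ q * b 0 := Nat.le_mul_of_pos_left _ hq0
    omega
  have hk0M : k0 ≤ M := by
    have := Nat.mod_le (M - w ^ b 0) q
    omega
  have hk0d : q ∣ M - k0 := by
    have h1 : M - k0 = (M - w ^ b 0) - (M - w ^ b 0) % q := by omega
    rw [h1]
    exact Nat.dvd_sub_mod _
  have hqb : q ≤ w ^ b 0 := by
    calc q ≤ w := by omega
      _ = w ^ 1 := (pow_one w).symm
      _ ≤ w ^ b 0 := Nat.pow_le_pow_right hw1 (by omega)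
  have hk02 : k0 ≤ 2 * w ^ b 0 := by
    have := Nat.mod_lt (M - w ^ b 0) hq0
    omega
  have hMpos : 0 < M := lt_of_lt_of_le (Nat.pow_pos hw1) hMb
  have hm2 : 2 * ((m + 1) * k0 ^ q) ≤ M ^ q := by
    have h1 : (m + 1) * w ^ (q * b 0 + 1) ≤ 2 * M ^ q := by
      have h2 : w ^ (q * b 0 + 4 * d + 20) ≤ M ^ q := hM.trans (Nat.le_self_pow hq0.ne' M)
      calc (m + 1) * w ^ (q * b 0 + 1) ≤ (m + 1) * w ^ (q * b 0 + 4 * d + 20) :=
            Nat.mul_le_mul_left _ (Nat.pow_le_pow_right hw1 (by omega))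
        _ = m * w ^ (q * b 0 + 4 * d + 20) + w ^ (q * b 0 + 4 * d + 20) := by ring
        _ ≤ 2 * M ^ q := by omega
    have h3 : 2 * (2 * ((m + 1) * k0 ^ q)) ≤ 2 * M ^ q := by
      calc 2 * (2 * ((m + 1) * k0 ^ q)) ≤ 2 * (2 * ((m + 1) * (2 * w ^ b 0) ^ q)) := by gcongr
        _ = 2 ^ (q + 2) * ((m + 1) * w ^ (q * b 0)) := by
            rw [mul_pow, ← pow_mul, mul_comm (b 0) q, pow_add]; ring
        _ ≤ w * ((m + 1) * w ^ (q * b 0)) := Nat.mul_le_mul_right _ hBig.c2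
        _ = (m + 1) * w ^ (q * b 0 + 1) := by rw [pow_succ]; ring
        _ ≤ _ := h1
    omega
  obtain ⟨ρ0, Wf, hini, hloc⟩ := exists_init (G := G) hq0 hk0M hk0d hMpos S hScard hm2
  -- systems
  set sys : Finset (Fml p (HE q G M) × Finset (Fml p (HE q G M))) :=
    S.biUnion fun a => (gset w m g0 a).powerset.image fun T => (a, T) with hsys
  have hsysc : sys.card ≤ 2 ^ (w + g) := by
    calc sys.card ≤ ∑ a ∈ S, ((gset w m g0 a).powerset.image fun T => (a, T)).card :=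
          card_biUnion_le
      _ ≤ ∑ a ∈ S, 2 ^ g := sum_le_sum fun a ha => by
          refine card_image_le.trans ?_
          rw [card_powerset]
          exact Nat.pow_le_pow_right (by norm_num) (gset_card (hSw a ha))
      _ = S.card * 2 ^ g := by rw [sum_const, smul_eq_mul]
      _ ≤ 2 ^ w * 2 ^ g := Nat.mul_le_mul_right _ hScard.le
      _ = 2 ^ (w + g) := (pow_add _ _ _).symm
  have hsysm : ∀ c, c ∈ sys ↔ c.1 ∈ S ∧ c.2 ⊆ gset w m g0 c.1 := by
    intro c
    rw [hsys, mem_biUnion]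
    constructor
    · rintro ⟨a, ha, hc⟩
      rw [mem_image] at hc
      obtain ⟨T, hT, rfl⟩ := hc
      exact ⟨ha, mem_powerset.mp hT⟩
    · rintro ⟨h1, h2⟩
      exact ⟨c.1, h1, mem_image.mpr ⟨c.2, mem_powerset.mpr h2, rfl⟩⟩
  -- the rounds
  have hdg' : ∀ v, X.dg G v ≤ 65 * ℓ := hdg
  have hDk0 : 65 * ℓ * k0 ≤ w ^ t 0 := by
    calc 65 * ℓ * k0 ≤ w ^ 2 * (2 * w ^ b 0) := Nat.mul_le_mul (by omega) hk02
      _ = 2 * w ^ (b 0 + 2) := by rw [pow_add]; ring
      _ ≤ w * w ^ (b 0 + 2) := Nat.mul_le_mul_right _ (by omega)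
      _ = w ^ t 0 := by rw [← hb0, ← pow_succ']
  have hV : k * (65 * ℓ * k0) ^ q + 1 ≤ 2 ^ (w ^ 2) := by
    have h1 : (65 * ℓ * k0) ^ q ≤ 2 ^ w := by
      calc (65 * ℓ * k0) ^ q ≤ (w ^ t 0) ^ q := Nat.pow_le_pow_left hDk0 _
        _ = w ^ (q * (b 0 + 3)) := by rw [← pow_mul, ← hb0, mul_comm]
        _ ≤ 2 ^ w := hwP'
    have h2 : k * (65 * ℓ * k0) ^ q ≤ 2 ^ (w + 1) * 2 ^ w :=
      Nat.mul_le_mul (hkn.trans hn2.le) h1
    have h3 : 1 ≤ 2 ^ (w + 1) * 2 ^ w := Nat.mul_pos (by positivity) (by positivity)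
    calc k * (65 * ℓ * k0) ^ q + 1 ≤ 2 * (2 ^ (w + 1) * 2 ^ w) := by omega
      _ = 2 ^ (2 * w + 2) := by rw [← pow_add, ← pow_succ']; congr 1; ring
      _ ≤ 2 ^ (w ^ 2) := Nat.pow_le_pow_right (by norm_num) (by nlinarith)
  obtain ⟨ρ, hρ0, hρPP, hρm, hρT, hρM, hρD⟩ := exists_stages (p := p) (w := w) (m := m)
    (Sy := gSys q G M) hq0 sys
    (fun c => subs c.1) (fun c => gs c.2) (fun c _ => subs_trans c.1) hini.pp
    (κ := fun i => w ^ (i + 2)) (s := fun i => (g + 1) * w ^ (4 * i)) (T := fun i => w ^ t i)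
    (M := fun i => w ^ b i) (h := fun i => (g + 1) * w ^ (4 * i + 3))
    (Pn := fun i => (k * (65 * ℓ * k0) ^ q + 1) ^ ((g + 1) * w ^ (4 * i))) (ℓ := q * w) (A := 2)
    (d := d)
    (by
      intro c hc a ha hl
      refine (hloc a (hSC _ ((hsysm c).mp hc).1 ha) hl).mono_h _ ?_
      simpa using hqw2)
    (by
      intro c hc j hj
      have h1 : w < j := Nat.lt_of_mul_lt_mul_left hj
      have h2 : (subs c.1).card ≤ S.card := card_le_card (hSC _ ((hsysm c).mp hc).1)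
      exact h2.trans (hScard.le.trans (Nat.pow_le_pow_right (by norm_num) h1.le)))
    (by
      intro i j hij
      exact Nat.pow_le_pow_right hw1 (by omega))
    (by
      intro i
      refine hqw2.trans (Nat.pow_le_pow_right hw1 (by omega)))
    (by
      intro i
      rw [← pow_succ'])
    (by
      intro i _
      have h1 : (g + 1) * w ^ (4 * i) ≤ (g + 1) * w ^ (4 * i + 3) :=
        Nat.mul_le_mul_left _ (Nat.pow_le_pow_right hw1 (by omega))
      have h2 : (q * q + 1) * ((g + 1) * w ^ (4 * i + 3)) ≤ w * ((g + 1) * w ^ (4 * i + 3)) :=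
        Nat.mul_le_mul_right _ hqq
      have h3 : w * ((g + 1) * w ^ (4 * i + 3)) = (g + 1) * w ^ (4 * (i + 1)) := by ring
      have h4 : (q * q + 1) * ((g + 1) * w ^ (4 * i + 3)) =
        q * (q * ((g + 1) * w ^ (4 * i + 3))) + (g + 1) * w ^ (4 * i + 3) := by ring
      omega)
    (by
      intro i _ ρ h1 h2
      exact hini.count hdg' h1 h2 hq0 _)
    (fun v => (hini.wf hdg' v).trans hDk0)
    (fun e => by
      rw [hini.bf e]; exact Nat.le_add_right _ _)
    (by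
      intro i hi
      have ht1 := htge i
      have ht2 := htge (i + 1)
      have ht3 : t i = q ^ 3 * t (i + 1) + (d + 2) := by
        simp only [ht]
        rw [show d - i = (d - (i + 1)) + 1 by omega]
        rfl
      have h4k : 4 * k ≤ 2 ^ (w + 3) := by
        have : 2 ^ (w + 3) = 4 * 2 ^ (w + 1) := by rw [pow_add, pow_add]; ring
        omega
      have h4n : 4 * n ≤ 2 ^ (w + 3) := by
        have : 2 ^ (w + 3) = 4 * 2 ^ (w + 1) := by rw [pow_add, pow_add]; ring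
        omega
      refine ⟨?_, Nat.pow_pos hw1, Nat.pow_pos hw1, Nat.pow_pos hw1, by norm_num, ?_⟩
      · refine rd_ex (q := q) (w := w) (t := t i) (t' := t (i + 1)) (b := b i) (b' := b (i + 1))
          (D := d) (r := w ^ (i + 2)) hq0 hBig (by omega) ?_ ht3 ?_ ?_ ?_ ?_
        · simp only [hb]; omega
        · have h5 : t (i + 1) ≤ t i := by
            rw [ht3]
            have : t (i + 1) ≤ q ^ 3 * t (i + 1) := Nat.le_mul_of_pos_left _ (Nat.pow_pos hq0)
            omega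
          simp only [hb]; omega
        · exact Nat.pow_le_pow_right hw1 (by omega)
        · rw [Fintype.card_fin]; exact h4k
        · rw [Fintype.card_fin]; exact h4n
      · exact cnt_ok (q := q) (w := w) (g := g) (i := i) hqw (by omega) hV le_rfl
          (Nat.mul_le_mul_right _ hsysc)) d le_rfl
  -- the ideal
  have hR : 1 ≤ (r + 1) ^ nt := Nat.one_le_pow _ _ (by omega)
  have hga : (g + 1) * (r + 1) ^ nt * w ^ (4 * d + 11) ≤ n := by
    refine le_trans (Nat.mul_le_mul_left _ (Nat.pow_le_pow_right hw1 ?_)) hD0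
    omega
  have hgR : g + 1 ≤ (g + 1) * (r + 1) ^ nt := Nat.le_mul_of_pos_right _ hR
  have hgR0 : 0 < (g + 1) * (r + 1) ^ nt := Nat.mul_pos (Nat.succ_pos _) hR
  have hn256 : 256 * ((g + 1) * (r + 1) ^ nt * w ^ (4 * d + 10)) ≤ n := by
    calc 256 * ((g + 1) * (r + 1) ^ nt * w ^ (4 * d + 10)) ≤
          w * ((g + 1) * (r + 1) ^ nt * w ^ (4 * d + 10)) :=
          Nat.mul_le_mul_right _ (by omega)
      _ = (g + 1) * (r + 1) ^ nt * w ^ (4 * d + 11) := by ring
      _ ≤ n := hga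
  have hn256' : (g + 1) * (r + 1) ^ nt * w ^ (4 * d + 10) ≤ n / 256 := by
    rw [Nat.le_div_iff_mul_le (by norm_num), mul_comm]
    exact hn256
  have hk4 : 4 ≤ k := by
    by_contra hcon
    have h1 : n ≤ 48 * ℓ := by
      calc n ≤ 16 * ℓ * k := hk16
        _ ≤ 16 * ℓ * 3 := Nat.mul_le_mul_left _ (by omega)
        _ = 48 * ℓ := by ring
    have h2 : w ^ 2 ≤ n := by
      refine le_trans ?_ hga
      calc w ^ 2 ≤ w ^ (4 * d + 11) := Nat.pow_le_pow_right hw1 (by omega)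
        _ ≤ _ := Nat.le_mul_of_pos_left _ hgR0
    have h3 : 66 * w ≤ w ^ 2 := by rw [pow_two]; exact Nat.mul_le_mul_right _ (by omega)
    omega
  have hB : 2 * (n / 256) ≤ ℓ * (k / 4) := by
    have h2 : k ≤ 8 * (k / 4) := by omega
    have h3 : n ≤ 128 * (ℓ * (k / 4)) := by
      calc n ≤ 16 * ℓ * k := hk16
        _ ≤ 16 * ℓ * (8 * (k / 4)) := Nat.mul_le_mul_left _ h2
        _ = 128 * (ℓ * (k / 4)) := by ring
    omega
  have hE := X.Expd_cobG (q := q) hexp (r0 := k / 4) (by omega)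
  have hfr : ∀ e, q ≤ (fr (ρ d) e).card + 1 := by
    intro e
    have h1 : w ^ b d ≤ (fr (ρ d) e).card := hρM e
    have h2 : q ≤ w ^ b d := by
      have ht1 := htge d
      have h3 : 2 ≤ b d := by simp only [hb]; omega
      calc q ≤ w := by omega
        _ = w ^ 1 := (pow_one w).symm
        _ ≤ w ^ b d := Nat.pow_le_pow_right hw1 (by omega)
    omega
  have hδB : 65 * ℓ + 1 ≤ n / 256 := by
    refine (hδ.trans ?_).trans hn256'
    calc w ^ 2 ≤ w ^ (4 * d + 10) := Nat.pow_le_pow_right hw1 (by omega)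
      _ ≤ _ := Nat.le_mul_of_pos_left _ hgR0
  have hB' : (65 * ℓ + 1) * ((g + 1) * w ^ (4 * d)) ≤ n / 256 := by
    refine le_trans ?_ hn256'
    calc (65 * ℓ + 1) * ((g + 1) * w ^ (4 * d)) ≤ w ^ 2 * ((g + 1) * w ^ (4 * d)) :=
          Nat.mul_le_mul_right _ hδ
      _ = (g + 1) * w ^ (4 * d + 2) := by ring
      _ ≤ _ := Nat.mul_le_mul hgR (Nat.pow_le_pow_right hw1 (by omega))
  have hB'' : (65 * ℓ + 1) * w ^ (d + 2) ≤ n / 256 := by
    refine le_trans ?_ hn256'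
    calc (65 * ℓ + 1) * w ^ (d + 2) ≤ w ^ 2 * w ^ (d + 2) := Nat.mul_le_mul_right _ hδ
      _ = w ^ (d + 4) := by ring
      _ ≤ w ^ (4 * d + 10) := Nat.pow_le_pow_right hw1 (by omega)
      _ ≤ _ := Nat.le_mul_of_pos_left _ hgR0
  set Wd := wdG hψ hqK hE (by omega : 1 ≤ ℓ) hB (by omega : 1 ≤ k / 4) (hρPP d le_rfl) hfr hdg'
    hδB with hWd
  obtain ⟨E, e1, e2, e3, e4, er, ent, e5, e6, e7, e8, e9⟩ := exists_env (p := p) ρ d Wd w m g0 r nt
    (fun i => w ^ (i + 2)) (fun i => (g + 1) * w ^ (4 * i)) (by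
      intro i j hij
      exact Nat.pow_le_pow_right hw1 (by omega)) S hSC hSlv hSw hB' hB''
    (fun c h1 h2 => hρD c ((hsysm c).mpr ⟨h1, h2⟩))
  have hN : E.N = 4 * ((65 * ℓ + 1) * ((g + 1) * w ^ (4 * d))) +
      (d + 5) * ((65 * ℓ + 1) * w ^ (d + 2)) + (g0 + 2) * (p * ((65 * ℓ + 1) * w ^ (d + 2))) := by
    unfold Env.N
    rw [e3, e4, e5, e6, e7]
  have hDD : E.DD = ((r + 1) * p) ^ nt * (p * E.N) := by
    unfold Env.DD Env.Dt
    rw [er, ent]
  have hfin : 2 * (65 * ℓ + 1) + 2 * w ^ 3 * ((p + 3) * E.DD) ≤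
      (g + 1) * (r + 1) ^ nt * w ^ (4 * d + 10) := by
    have h1 := final_num (w := w) (g := g0) (G := g) (r := r) (nt := nt) (d := d) (p := p)
      (δ := 65 * ℓ + 1) (h := 0) (by omega) hwd hwp hδ (by omega)
    rw [hDD, hN]
    simpa using h1
  have hw3 : w + 10 ≤ 2 * w ^ 3 := by
    have h1 : w ≤ w ^ 3 := Nat.le_self_pow (by norm_num) w
    omega
  have hDD1 : (w + 10) * ((p + 3) * E.DD) ≤ n / 256 := by
    have h1 : (w + 10) * ((p + 3) * E.DD) ≤ 2 * w ^ 3 * ((p + 3) * E.DD) :=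
      Nat.mul_le_mul_right _ hw3
    omega
  have hDD2 : 2 * (65 * ℓ + 1) + 10 * ((p + 3) * E.DD) ≤ n / 256 := by
    have h1 : 10 * ((p + 3) * E.DD) ≤ 2 * w ^ 3 * ((p + 3) * E.DD) :=
      Nat.mul_le_mul_right _ (by omega)
    omega
  have hDD3 : E.DD ≤ (g + 1) * (r + 1) ^ nt * w ^ (q * b 0 + 4 * d + 20) := by
    have h1 : E.DD ≤ (p + 3) * E.DD := Nat.le_mul_of_pos_left _ (by omega)
    have h2 : (p + 3) * E.DD ≤ 2 * w ^ 3 * ((p + 3) * E.DD) :=
      Nat.le_mul_of_pos_left _ (by omega)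
    have h3 : (g + 1) * (r + 1) ^ nt * w ^ (4 * d + 10) ≤
        (g + 1) * (r + 1) ^ nt * w ^ (q * b 0 + 4 * d + 20) :=
      Nat.mul_le_mul_left _ (Nat.pow_le_pow_right hw1 (by omega))
    omega
  refine ⟨K, inferInstance, inferInstance, pciG hψ hqK hE (by omega : 1 ≤ ℓ) hB (crhs (ρ d)), E.F,
    ⟨fun a ha => ?_, fun a ha => ?_⟩, ?_, X.not_Zr_one hψ hqK hE (by omega), rfl⟩
  · exact PCI.up _ (E.deg_F (by rw [e9]; exact ha)) hDD3
  · exact E.respF_zr (by rw [e9]; exact ha) (by rw [e1]; exact hDD1)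
  · exact E.last_zr (by rw [e9]; exact hφ) (by rw [e8]; exact Nat.pow_pos hw1) (by
      rw [e8]
      intro i j hij
      exact Nat.pow_le_pow_right hw1 (by omega)) (by
      intro x
      rw [← card_pos, (gSys q G M).card_es]; exact hq0) (by rw [e5]; exact hDD2)

end Pool.Agent.Work.MP_c04246_lc.GT
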