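import Pool.Agent.Work.MP_c04246_lc.GT.Df

/-!
MODULE Num (size S-M). The numerical part.

Proof. `E = p ^ e`, `W = w ^ 3`, `U = W * I`, `d j = dl E U n s (L0 * w ^ a0) j`, `g j = dg n I s L0 j`, `c = n / w + d b` (or a similar choice), `w0` large compared
to `p, e, b, a0`.
(1) `1 ≤ d j ≤ d (j + 1)`, `1 ≤ g j` (all factors are positive).
(2) `d j ≤ w ^ (k j) * g j` for constants `k j` (`k 0 = a0 + 1`, `k (j + 1) = 2 * k j + 4` if `4 * E ≤ w`): induction;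
 `U * d j / n ≤ W * w ^ (k j) * (I * g j) / n ≤ W * w ^ (k j) * (g j * I / n + 1)` (as `x / n * .. `: `C * x / n ≤ C * (x / n + 1)`, `Nat.div_lt_iff_lt_mul`), so
 `U * d j / n + 1 + s + 1 ≤ 3 * W * w ^ (k j) * (g j * I / n + s + 1)`, hence
 `d (j + 1) ≤ E * 3 * W * w ^ (k j) * w ^ (k j) * g (j + 1)`.
(3) Let `a = k b + 8`. Then `(h + 1) * w ^ 8 * d b ≤ (h + 1) * w ^ a * g b ≤ n`.
(4) For `j < b`, `lw ≤ w + 1`, `t = U * d j / n + 1`: `(2 * I * lw / t + 1) * d j = (2 * I * lw / t) * d j + d j`, and `W * I * d j < n * t` (`Nat.lt_div_mul_add` or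
 `Nat.lt_mul_div_succ`), so `(2 * I * lw / t) * d j * W ≤ 2 * lw * (I * d j * W) / t ≤ 2 * lw * n` (use `x / t * y ≤ x * y / t`, `Nat.div_mul_le_self`), so
 `(2 * I * lw / t) * d j ≤ 2 * (w + 1) * n / w ^ 3 ≤ n / w`; the sum is `≤ n / w + d b = c`.
(5) Multiply by `256`: `256 * b * (n / w) ≤ n / 8` (`2048 * b ≤ w`), and `256 * b * d b`, `256 * 20 * ((p + 3) * d b)`,
 `256 * 2 * (h + 1) * w ^ 3 * ((p + 3) * d b)` are `≤ n / 8` by (3) for large `w`. `L0 * w ^ a0 ≤ d 0 ≤ d b ≤ n`.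
-/

set_option autoImplicit false

namespace Pool.Agent.Work.MP_c04246_lc.GT

private def kk (a0 : ℕ) : ℕ → ℕ
  | 0 => a0 + 1
  | j + 1 => 2 * kk a0 j + 4

private theorem dl_le_succ {E U n s D0 : ℕ} (hE : 1 ≤ E) (j : ℕ) :
    dl E U n s D0 j ≤ dl E U n s D0 (j + 1) := by
  show dl E U n s D0 j ≤ E * ((U * dl E U n s D0 j / n + 1 + s + 1) * dl E U n s D0 j)
  calc dl E U n s D0 j = 1 * (1 * dl E U n s D0 j) := by ring
    _ ≤ E * ((U * dl E U n s D0 j / n + 1 + s + 1) * dl E U n s D0 j) :=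
        Nat.mul_le_mul hE (Nat.mul_le_mul_right _ (Nat.le_add_left 1 _))

private theorem dl_mono {E U n s D0 : ℕ} (hE : 1 ≤ E) {i j : ℕ} (h : i ≤ j) :
    dl E U n s D0 i ≤ dl E U n s D0 j :=
  monotone_nat_of_le_succ (fun j => dl_le_succ hE j) h

private theorem div_mul_succ {n : ℕ} (hn : 1 ≤ n) (C x : ℕ) : C * x / n ≤ C * (x / n + 1) := by
  apply Nat.div_le_of_le_mul
  have h := Nat.lt_mul_div_succ x hn
  calc C * x ≤ C * (n * (x / n + 1)) := Nat.mul_le_mul_left _ h.le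
    _ = n * (C * (x / n + 1)) := by ring

private theorem dl_le {E n w I s L0 a0 : ℕ} (hn : 1 ≤ n) (hw1 : 1 ≤ w)
    (hw : 4 * E ≤ w) (j : ℕ) :
    dl E (w ^ 3 * I) n s (L0 * w ^ a0) j ≤ w ^ kk a0 j * dg n I s L0 j := by
  induction j with
  | zero =>
    show E * (2 * (L0 * w ^ a0)) ≤ w ^ (a0 + 1) * L0
    calc E * (2 * (L0 * w ^ a0)) = (2 * E) * (w ^ a0 * L0) := by ring
      _ ≤ w * (w ^ a0 * L0) := Nat.mul_le_mul_right _ (by omega)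
      _ = w ^ (a0 + 1) * L0 := by ring
  | succ j ih =>
    show E * ((w ^ 3 * I * dl E (w ^ 3 * I) n s (L0 * w ^ a0) j / n + 1 + s + 1) *
        dl E (w ^ 3 * I) n s (L0 * w ^ a0) j) ≤
      w ^ (2 * kk a0 j + 4) * ((dg n I s L0 j * I / n + s + 1) * dg n I s L0 j)
    obtain ⟨D, hD⟩ : ∃ D, D = dl E (w ^ 3 * I) n s (L0 * w ^ a0) j := ⟨_, rfl⟩
    obtain ⟨g, hg⟩ : ∃ g, g = dg n I s L0 j := ⟨_, rfl⟩
    obtain ⟨k, hk⟩ : ∃ k, k = kk a0 j := ⟨_, rfl⟩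
    rw [← hD, ← hg, ← hk] at ih ⊢
    obtain ⟨y, hy⟩ : ∃ y, y = g * I / n := ⟨_, rfl⟩
    obtain ⟨z, hz⟩ : ∃ z, z = w ^ 3 * I * D / n := ⟨_, rfl⟩
    obtain ⟨X, hX⟩ : ∃ X, X = y + s + 1 := ⟨_, rfl⟩
    rw [← hy, ← hX, ← hz]
    have hP : 1 ≤ w ^ 3 * w ^ k := Nat.mul_pos (pow_pos hw1 _) (pow_pos hw1 _)
    have h1 : z ≤ (w ^ 3 * w ^ k) * (y + 1) := by
      rw [hz, hy]
      calc w ^ 3 * I * D / n ≤ (w ^ 3 * w ^ k) * (g * I) / n := by
            apply Nat.div_le_div_right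
            calc w ^ 3 * I * D ≤ w ^ 3 * I * (w ^ k * g) := Nat.mul_le_mul_left _ ih
              _ = (w ^ 3 * w ^ k) * (g * I) := by ring
        _ ≤ _ := div_mul_succ hn _ _
    have h2 : (w ^ 3 * w ^ k) * (y + 1) ≤ (w ^ 3 * w ^ k) * X :=
      Nat.mul_le_mul_left _ (by omega)
    have h3 : s + 2 ≤ 2 * ((w ^ 3 * w ^ k) * X) := by
      have h4 : X ≤ (w ^ 3 * w ^ k) * X := Nat.le_mul_of_pos_left _ hP
      omega
    have h5 : z + 1 + s + 1 ≤ 3 * ((w ^ 3 * w ^ k) * X) := by omega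
    calc E * ((z + 1 + s + 1) * D)
        ≤ E * ((3 * ((w ^ 3 * w ^ k) * X)) * (w ^ k * g)) :=
          Nat.mul_le_mul_left _ (Nat.mul_le_mul h5 ih)
      _ = (3 * E) * (w ^ 3 * w ^ k * w ^ k * (X * g)) := by ring
      _ ≤ w * (w ^ 3 * w ^ k * w ^ k * (X * g)) := Nat.mul_le_mul_right _ (by omega)
      _ = w ^ (2 * k + 4) * (X * g) := by ring

private theorem num4 {n w I lw D : ℕ} (hn : 1 ≤ n) (hw : 4 ≤ w) (hlw : lw ≤ w + 1) :
    (2 * I * lw / (w ^ 3 * I * D / n + 1)) * D ≤ n / w := by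
  obtain ⟨t, ht⟩ : ∃ t, t = w ^ 3 * I * D / n + 1 := ⟨_, rfl⟩
  rw [← ht]
  have ht0 : 0 < t := by
    rw [ht]
    exact Nat.succ_pos _
  have h1 : w ^ 3 * I * D < n * t := by
    rw [ht]
    exact Nat.lt_mul_div_succ _ hn
  obtain ⟨Q, hQ⟩ : ∃ Q, Q = 2 * I * lw / t := ⟨_, rfl⟩
  rw [← hQ]
  have h2 : Q * t ≤ 2 * I * lw := by
    rw [hQ]
    exact Nat.div_mul_le_self _ _
  have h3 : Q * D * w ^ 3 ≤ 2 * lw * n := by
    refine Nat.le_of_mul_le_mul_right ?_ ht0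
    calc Q * D * w ^ 3 * t = (Q * t) * (D * w ^ 3) := by ring
      _ ≤ (2 * I * lw) * (D * w ^ 3) := Nat.mul_le_mul_right _ h2
      _ = (2 * lw) * (w ^ 3 * I * D) := by ring
      _ ≤ (2 * lw) * (n * t) := Nat.mul_le_mul_left _ h1.le
      _ = 2 * lw * n * t := by ring
  rw [Nat.le_div_iff_mul_le (by omega)]
  have hw2 : 0 < w ^ 2 := pow_pos (by omega) _
  refine Nat.le_of_mul_le_mul_right ?_ hw2
  calc Q * D * w * w ^ 2 = Q * D * w ^ 3 := by ring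
    _ ≤ 2 * lw * n := h3
    _ ≤ w ^ 2 * n := by
        apply Nat.mul_le_mul_right
        nlinarith
    _ = n * w ^ 2 := by ring

theorem num (p e b a0 : ℕ) (hp : 2 ≤ p) : ∃ a w0 : ℕ, ∀ n w I s h L0 : ℕ, w0 ≤ w → 1 ≤ n →
    1 ≤ L0 → (h + 1) * w ^ a * dg n I s L0 b ≤ n →
    ∃ U c : ℕ,
      (∀ lw ≤ w + 1, ∀ j < b, (2 * I * lw / (U * dl (p ^ e) U n s (L0 * w ^ a0) j / n + 1) + 1) *
        dl (p ^ e) U n s (L0 * w ^ a0) j ≤ c) ∧
      b * c + 20 * ((p + 3) * dl (p ^ e) U n s (L0 * w ^ a0) b) +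
        2 * (h + 1) * w ^ 3 * ((p + 3) * dl (p ^ e) U n s (L0 * w ^ a0) b) ≤ n / 256 ∧
      L0 * w ^ a0 ≤ n := by
  have hE : 1 ≤ p ^ e := Nat.one_le_pow _ _ (by omega)
  refine ⟨kk a0 b + 8, 2048 * b + 40960 * (p + 3) + 4 * p ^ e + 4,
    fun n w I s h L0 hw hn hL0 hle => ?_⟩
  have hw1 : 1 ≤ w := by omega
  have hwE : 4 * p ^ e ≤ w := by omega
  have hwb : 2048 * b ≤ w := by omega
  have hwp : 40960 * (p + 3) ≤ w :=
    (((Nat.le_add_left _ _).trans (Nat.le_add_right _ _)).trans (Nat.le_add_right _ _)).trans hw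
  have hw4 : 4 ≤ w := by omega
  clear hw
  obtain ⟨d, hd⟩ : ∃ d, d = dl (p ^ e) (w ^ 3 * I) n s (L0 * w ^ a0) := ⟨_, rfl⟩
  have hdb : d b ≤ w ^ kk a0 b * dg n I s L0 b := by
    rw [hd]
    exact dl_le hn hw1 hwE b
  have hmono : ∀ i j, i ≤ j → d i ≤ d j := by
    intro i j hij
    rw [hd]
    exact dl_mono hE hij
  have h3 : (h + 1) * w ^ 8 * d b ≤ n := by
    calc (h + 1) * w ^ 8 * d b ≤ (h + 1) * w ^ 8 * (w ^ kk a0 b * dg n I s L0 b) :=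
          Nat.mul_le_mul_left _ hdb
      _ = (h + 1) * w ^ (kk a0 b + 8) * dg n I s L0 b := by ring
      _ ≤ n := hle
  refine ⟨w ^ 3 * I, n / w + d b, ?_, ?_, ?_⟩
  · intro lw hlw j hj
    rw [← hd, Nat.add_mul, Nat.one_mul]
    exact Nat.add_le_add (num4 hn hw4 hlw) (hmono j b hj.le)
  · rw [← hd, Nat.le_div_iff_mul_le (by norm_num)]
    obtain ⟨D, hD⟩ : ∃ D, D = d b := ⟨_, rfl⟩
    rw [← hD] at h3 ⊢
    have hw7 : 1 ≤ (h + 1) * w ^ 7 := Nat.mul_pos (by omega) (pow_pos hw1 _)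
    have hw4' : 1 ≤ w ^ 4 := Nat.one_le_pow _ _ hw1
    have hwD : w * D ≤ n := by
      calc w * D = 1 * (w * D) := by ring
        _ ≤ (h + 1) * w ^ 7 * (w * D) := Nat.mul_le_mul_right _ hw7
        _ = (h + 1) * w ^ 8 * D := by ring
        _ ≤ n := h3
    have e1 : 8 * (256 * (b * (n / w))) ≤ n := by
      calc 8 * (256 * (b * (n / w))) = (2048 * b) * (n / w) := by ring
        _ ≤ w * (n / w) := Nat.mul_le_mul_right _ hwb
        _ ≤ n := Nat.mul_div_le _ _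
    have e2 : 8 * (256 * (b * D)) ≤ n := by
      calc 8 * (256 * (b * D)) = (2048 * b) * D := by ring
        _ ≤ w * D := Nat.mul_le_mul_right _ hwb
        _ ≤ n := hwD
    have e3 : 8 * (256 * (20 * ((p + 3) * D))) ≤ n := by
      calc 8 * (256 * (20 * ((p + 3) * D))) = (40960 * (p + 3)) * D := by ring
        _ ≤ w * D := Nat.mul_le_mul_right _ hwp
        _ ≤ n := hwD
    have e4 : 8 * (256 * (2 * (h + 1) * w ^ 3 * ((p + 3) * D))) ≤ n := by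
      calc 8 * (256 * (2 * (h + 1) * w ^ 3 * ((p + 3) * D)))
          = (4096 * (p + 3)) * ((h + 1) * w ^ 3 * D) := by ring
        _ ≤ w * ((h + 1) * w ^ 3 * D) := Nat.mul_le_mul_right _ (by omega)
        _ = 1 * ((h + 1) * w ^ 4 * D) := by ring
        _ ≤ w ^ 4 * ((h + 1) * w ^ 4 * D) := Nat.mul_le_mul_right _ hw4'
        _ = (h + 1) * w ^ 8 * D := by ring
        _ ≤ n := h3
    have e5 : (b * (n / w + D) + 20 * ((p + 3) * D) + 2 * (h + 1) * w ^ 3 * ((p + 3) * D)) * 256 =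
        256 * (b * (n / w)) + 256 * (b * D) + 256 * (20 * ((p + 3) * D)) +
          256 * (2 * (h + 1) * w ^ 3 * ((p + 3) * D)) := by ring
    rw [e5]
    omega
  · have h5 : L0 * w ^ a0 ≤ d 0 := by
      rw [hd]
      show L0 * w ^ a0 ≤ p ^ e * (2 * (L0 * w ^ a0))
      calc L0 * w ^ a0 = 1 * (1 * (L0 * w ^ a0)) := by ring
        _ ≤ p ^ e * (2 * (L0 * w ^ a0)) :=
          Nat.mul_le_mul hE (Nat.mul_le_mul_right _ (by norm_num))
    have h6 : 1 ≤ (h + 1) * w ^ 8 := Nat.mul_pos (by omega) (pow_pos hw1 _)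
    calc L0 * w ^ a0 ≤ d 0 := h5
      _ ≤ d b := hmono 0 b (Nat.zero_le _)
      _ ≤ (h + 1) * w ^ 8 * d b := Nat.le_mul_of_pos_left _ h6
      _ ≤ n := h3

end Pool.Agent.Work.MP_c04246_lc.GT
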