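import Pool.Agent.Work.MP_c04246_lc.GT.SyA

/-!
MODULE SyB. The set `strips w m S` of all subformulas of strips.
-/

set_option autoImplicit false
set_option linter.unusedSectionVars false

namespace Pool.Agent.Work.MP_c04246_lc.GT

open Finset Fml H

variable {p : ℕ} {V : Type} {w m : ℕ}

private theorem syb_mem {S : Finset (Fml p V)} {x : Fml p V} :
    x ∈ strips w m S ↔ ∃ a ∈ S, ∃ c : Bool, x ∈ subs (strip w m c a) := by
  classical
  simp only [strips, mem_biUnion, mem_union]
  constructor
  · rintro ⟨a, ha, h | h⟩
    · exact ⟨a, ha, true, h⟩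
    · exact ⟨a, ha, false, h⟩
  · rintro ⟨a, ha, c, h⟩
    refine ⟨a, ha, ?_⟩
    cases c
    · exact Or.inr h
    · exact Or.inl h

theorem SC_strips (S : Finset (Fml p V)) : SC (strips w m S) := by
  intro x hx y hy
  obtain ⟨a, ha, c, h⟩ := syb_mem.1 hx
  exact syb_mem.2 ⟨a, ha, c, subs_trans _ _ h hy⟩

theorem strip_mem {S : Finset (Fml p V)} {a : Fml p V} (ha : a ∈ S) (c : Bool) :
    strip w m c a ∈ strips w m S :=
  syb_mem.2 ⟨a, ha, c, subs_self _⟩

theorem wide_strips {S : Finset (Fml p V)} {x : Fml p V} (hx : x ∈ strips w m S) :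
    wide w m x = ∅ := by
  classical
  obtain ⟨a, ha, c, h⟩ := syb_mem.1 hx
  rw [← Finset.subset_empty, ← wide_strip (w := w) (m := m) c a]
  unfold wide
  exact filter_subset_filter _ (subs_trans _ _ h)

theorem lv_strip (c : Bool) (a : Fml p V) : ∀ r, lv w m r (strip w m c a) ≤ lv w m r a := by
  classical
  induction a with
  | var x => intro r; simp [strip]
  | cst b => intro r; simp [strip]
  | neg a _ =>
    intro r
    simp only [strip]
    split_ifs
    · simp [lv]
    · exact le_rfl
  | bin c' a b iha ihb =>
    intro r
    by_cases hc : c' = c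
    · subst hc
      have hst : strip w m c' (bin c' a b) = bin c' (strip w m c' a) (strip w m c' b) :=
        strip_bin c' a b
      have hv := vars_strip (w := w) (m := m) c' (bin c' a b)
      rw [hst] at hv ⊢
      by_cases hl : isL m (bin c' (strip w m c' a) (strip w m c' b))
      · rw [lv_isL hl]
        exact Nat.zero_le _
      · have hl' : ¬ isL m (bin c' a b) := fun h => hl ((card_le_card hv).trans h)
        simp only [lv, if_neg hl, if_neg hl']
        exact Nat.add_le_add_left (max_le_max (iha _) (ihb _)) _
    · simp only [strip, if_neg hc]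
      split_ifs
      · simp [lv]
      · exact le_rfl
  | mod i k f _ =>
    intro r
    simp only [strip]
    split_ifs
    · simp [lv]
    · exact le_rfl

theorem lv_strips {S : Finset (Fml p V)} (hS : SC S) {d : ℕ} (h : ∀ a ∈ S, lv w m none a ≤ d)
    {x : Fml p V} (hx : x ∈ strips w m S) : lv w m none x ≤ d := by
  obtain ⟨a, ha, c, hxa⟩ := syb_mem.1 hx
  rcases subs_strip x hxa with rfl | h1 | ⟨a', ha', rfl⟩
  · simp [lv]
  · exact h _ (hS a ha h1)
  · exact (lv_strip c a' none).trans (h _ (hS a ha ha'))

theorem card_strips [DecidableEq (Fml p V)] {S : Finset (Fml p V)} (hS : SC S) :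
    (S ∪ strips w m S).card ≤ 3 * S.card + 2 := by
  have hsub : S ∪ strips w m S ⊆ S ∪ (S.image (strip w m true) ∪ (S.image (strip w m false) ∪
      {cst true, cst false})) := by
    intro x hx
    rcases mem_union.1 hx with hx | hx
    · exact mem_union_left _ hx
    · obtain ⟨a, ha, c, hxa⟩ := syb_mem.1 hx
      rcases subs_strip x hxa with rfl | h1 | ⟨a', ha', rfl⟩
      · refine mem_union_right _ (mem_union_right _ (mem_union_right _ ?_))
        cases c <;> simp
      · exact mem_union_left _ (hS a ha h1)
      · have h2 := hS a ha ha'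
        cases c
        · exact mem_union_right _ (mem_union_right _ (mem_union_left _ (mem_image_of_mem _ h2)))
        · exact mem_union_right _ (mem_union_left _ (mem_image_of_mem _ h2))
  refine (card_le_card hsub).trans ?_
  have h1 := card_union_le S (S.image (strip w m true) ∪ (S.image (strip w m false) ∪
      {cst true, cst false}))
  have h2 := card_union_le (S.image (strip w m true)) (S.image (strip w m false) ∪
      {cst true, cst false})
  have h3 := card_union_le (S.image (strip w m false)) ({cst true, cst false} : Finset (Fml p V))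
  have h4 : (S.image (strip w m true)).card ≤ S.card := card_image_le
  have h5 : (S.image (strip w m false)).card ≤ S.card := card_image_le
  have h6 : ({cst true, cst false} : Finset (Fml p V)).card ≤ 2 := card_le_two
  omega

end Pool.Agent.Work.MP_c04246_lc.GT
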