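import Pool.Agent.Work.MP_c04246_lc.GT.Itr
import Pool.Agent.Work.MP_c04246_lc.GT.Wlk
import Pool.Agent.Work.MP_c04246_lc.GT.Enb
import Pool.Agent.Work.MP_c04246_lc.GT.Num
import Pool.Agent.Work.MP_c04246_lc.GT.SyB

/-!
MODULE Main (size M). Assembly.

Proof. `L = Lay w m g r nt`; `Lay_sub`; a formula without wide subformulas is `Lay`. `S = Sl l` (HForms.lean: `card_Sl`, `mem_Sl`), closed under
subformulas, `T = strips w m S`, `S0 = S.filter L ∪ T ⊆ S ∪ T`, `S0.card ≤ 3 * S.card + 2 < 2 ^ w` if `4 * S.card < 2 ^ w` (`card_strips`; `S` has at least two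
elements, as `graphTaut` is a `bin`). Levels: `lv_le_of_Bdepth`, `lv_strips`. `wide_strips` for `Lay`. `exists_evl` for `S0` gives `P`, `F0`; `num`; `levels`
(`Hvy_subs`); `T ⊆ S0`; `no_der` for `P'`, `S ∪ T`, `F`, `φ = graphTaut`: `F φ = F0 φ` (`graphTaut` has no counting connective, so `wide = ∅`), `Ext.zr`.
`Nat.log 2 S.card + 1 ≤ w + 1`.
-/

set_option autoImplicit false
set_option linter.unusedSectionVars false

namespace Pool.Agent.Work.MP_c04246_lc.GT

open Finset Fml H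

private lemma wide_disj {p : ℕ} {V : Type} {w m : ℕ} (l : List (Fml p V))
    (h : ∀ x ∈ l, wide w m x = ∅) : wide w m (disj l) = ∅ := by
  classical
  induction l with
  | nil =>
    rw [Finset.eq_empty_iff_forall_notMem]
    intro b hb
    rw [mem_wide] at hb
    obtain ⟨h1, -, i, k, f, rfl, -⟩ := hb
    simp [disj, subs] at h1
  | cons a l ih =>
    have e : disj (a :: l) = bin true a (disj l) := rfl
    rw [e, wide_bin, h a (List.mem_cons_self ..), ih fun x hx => h x (List.mem_cons_of_mem _ hx),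
      Finset.empty_union]

private lemma wide_var {p : ℕ} {V : Type} {w m : ℕ} (x : V) :
    wide w m (var x : Fml p V) = ∅ := by
  classical
  rw [Finset.eq_empty_iff_forall_notMem]
  intro b hb
  rw [mem_wide] at hb
  obtain ⟨h1, -, i, k, f, rfl, -⟩ := hb
  simp [subs] at h1

private lemma wide_pm {U X : Type} [Fintype U] [Fintype X] (p : ℕ) (es : X → Finset U)
    {w m : ℕ} : wide w m (pmTaut p es) = ∅ := by
  classical
  unfold pmTaut
  rw [wide_bin, wide_disj, wide_disj, Finset.empty_union]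
  · intro x hx
    rw [List.mem_map] at hx
    obtain ⟨z, -, rfl⟩ := hx
    rw [wide_bin, wide_var, wide_var, Finset.empty_union]
  · intro x hx
    rw [List.mem_map] at hx
    obtain ⟨z, -, rfl⟩ := hx
    rw [wide_neg]
    apply wide_disj
    intro y hy
    rw [List.mem_map] at hy
    obtain ⟨z, -, rfl⟩ := hy
    exact wide_var _

private lemma pm_bin {U X : Type} [Fintype U] [Fintype X] (p : ℕ) (es : X → Finset U) :
    ∃ a b, pmTaut p es = bin true a b := ⟨_, _, rfl⟩

private lemma lay_free {p : ℕ} {V : Type} {w m g r nt : ℕ} {a : Fml p V}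
    (h : wide w m a = ∅) : Lay w m g r nt a := by
  cases nt with
  | zero =>
    show (wide w m a).card ≤ g
    rw [h]
    exact Nat.zero_le _
  | succ nt =>
    left
    rw [h]
    exact Nat.zero_le _

private lemma ne_bin {p : ℕ} {V : Type} {c : Bool} {a b : Fml p V} : a ≠ bin c a b := by
  intro h
  have h1 := congrArg size h
  simp only [size] at h1
  omega

private lemma dl_ge {E U n s D0 : ℕ} (hE : 1 ≤ E) (j : ℕ) : D0 ≤ dl E U n s D0 j := by
  induction j with
  | zero =>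
    show D0 ≤ E * (2 * D0)
    calc D0 ≤ 2 * D0 := by omega
      _ ≤ E * (2 * D0) := Nat.le_mul_of_pos_left _ hE
  | succ j ih =>
    show D0 ≤ E * ((U * dl E U n s D0 j / n + 1 + s + 1) * dl E U n s D0 j)
    refine ih.trans ?_
    refine le_trans ?_ (Nat.le_mul_of_pos_left _ hE)
    exact Nat.le_mul_of_pos_left _ (Nat.succ_pos _)

theorem lower_bound (q p : ℕ) [Fact q.Prime] [Fact p.Prime] (hpq : p ≠ q) (d nt b : ℕ) :
    ∃ a w0 : ℕ, ∀ (n w M m g r s I h k : ℕ) (G : Fin n → Fin k × Fin k), w0 ≤ w →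
      1 ≤ n → Nat.log 2 n ≤ w →
      (∀ v, X.dg G v ≤ 65 * (Nat.log 2 n + 5)) → X.ExpOK (Nat.log 2 n + 5) G (fun _ => true) →
      8 * (Nat.log 2 n + 5) * k ≤ n → n ≤ 16 * (Nat.log 2 n + 5) * k →
      w ^ a ≤ M → m * w ^ a ≤ M ^ q →
      (h + 1) * w ^ a * dg n I s ((g + r + 1) * (r + 1) ^ nt) b ≤ n →
      ∀ Q : Finset (Fml p (HE q G M)), Q.card ≤ I →
      ∀ l : List (Finset (Fml p (HE q G M))), Ranked w h l → {graphTaut p q G M} ∈ l →
        (∀ C ∈ l, ∀ x ∈ C, Bdepth w m d x ∧ Hvy w m (Lay w m g r nt) Q s b d x) →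
        2 ^ w ≤ 4 * (l.map fun C => ∑ x ∈ C, size x).sum := by
  classical
  have hpp := (Fact.out : p.Prime)
  obtain ⟨a1, w1, hE⟩ := exists_evl q p hpq d nt
  obtain ⟨a2, w2, hN⟩ := num p d b a1 hpp.two_le
  refine ⟨a1 + a2, max (max w1 w2) 10, ?_⟩
  intro n w M m g r s I h k G hw hn hnw hdg hexp hk8 hk16 hM hm hbig Q hQ l hl hφ hlines
  have hww1 : w1 ≤ w := (le_max_left _ _).trans ((le_max_left _ _).trans hw)
  have hww2 : w2 ≤ w := (le_max_right _ _).trans ((le_max_left _ _).trans hw)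
  have hw10 : 10 ≤ w := (le_max_right _ _).trans hw
  have hw1 : 1 ≤ w := by omega
  by_contra hsize
  push Not at hsize
  have hpow1 : w ^ a1 ≤ w ^ (a1 + a2) := Nat.pow_le_pow_right hw1 (by omega)
  have hpow2 : w ^ a2 ≤ w ^ (a1 + a2) := Nat.pow_le_pow_right hw1 (by omega)
  obtain ⟨L0, hL0⟩ : ∃ L0, L0 = (g + r + 1) * (r + 1) ^ nt := ⟨_, rfl⟩
  have hL01 : 1 ≤ L0 := by
    rw [hL0]
    exact Nat.succ_le_of_lt (Nat.mul_pos (Nat.succ_pos _) (Nat.pow_pos (Nat.succ_pos _)))
  rw [← hL0] at hbig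
  obtain ⟨U, c, hc1, hc2, hc3⟩ := hN n w I s h L0 hww2 hn hL01
    ((Nat.mul_le_mul_right _ (Nat.mul_le_mul_left _ hpow2)).trans hbig)
  obtain ⟨L, hL⟩ : ∃ L : Fml p (HE q G M) → Prop, L = Lay w m g r nt := ⟨_, rfl⟩
  rw [← hL] at hlines
  have hLs : ∀ a b, L a → b ∈ subs a → L b := by
    intro a b ha hb
    rw [hL] at ha ⊢
    exact Lay_sub ha hb
  obtain ⟨S, hS⟩ : ∃ S : Finset (Fml p (HE q G M)), S = Sl l := ⟨_, rfl⟩
  obtain ⟨T, hT⟩ : ∃ T : Finset (Fml p (HE q G M)), T = strips w m S := ⟨_, rfl⟩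
  have hScard : 4 * S.card < 2 ^ w := by
    rw [hS]
    exact lt_of_le_of_lt (Nat.mul_le_mul_left _ (card_Sl l)) hsize
  have hSC : SC S := by
    intro a ha x hx
    rw [hS] at ha ⊢
    obtain ⟨C, hC, c, hc, hac⟩ := mem_Sl.mp ha
    exact mem_Sl.mpr ⟨C, hC, c, hc, subs_trans _ _ hac hx⟩
  have hSpi : ∀ C ∈ l, ∀ a ∈ C, a ∈ S := by
    intro C hC a ha
    rw [hS]
    exact mem_Sl.mpr ⟨C, hC, a, ha, subs_self _⟩
  have hSlv : ∀ a ∈ S, lv w m none a ≤ d := by
    intro a ha
    rw [hS] at ha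
    obtain ⟨C, hC, c, hc, hac⟩ := mem_Sl.mp ha
    exact lv_le_of_Bdepth (hlines C hC c hc).1 a hac
  have hSvy : ∀ a ∈ S, Hvy w m L Q s b d a := by
    intro a ha
    rw [hS] at ha
    obtain ⟨C, hC, c, hc, hac⟩ := mem_Sl.mp ha
    exact Hvy_subs hLs (hlines C hC c hc).2 hac
  have hTC : SC T := by rw [hT]; exact SC_strips S
  have hTw : ∀ a ∈ T, wide w m a = ∅ := fun a ha => by rw [hT] at ha; exact wide_strips ha
  have hTL : ∀ a ∈ T, L a := fun a ha => by rw [hL]; exact lay_free (hTw a ha)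
  have hφS : graphTaut p q G M ∈ S := hSpi _ hφ _ (mem_singleton_self _)
  have hφL : L (graphTaut p q G M) := by rw [hL]; exact lay_free (wide_pm p _)
  have hS2 : 2 ≤ S.card := by
    obtain ⟨a, b', hab⟩ := pm_bin p (HE.pts (q := q) (G := G) (M := M))
    have h1 : graphTaut p q G M = bin true a b' := hab
    have h2 : a ∈ S := (hSC.bin (h1 ▸ hφS)).1
    have h3 : ({a, graphTaut p q G M} : Finset _) ⊆ S := by
      intro x hx
      rw [mem_insert, mem_singleton] at hx
      rcases hx with rfl | rfl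
      · exact h2
      · exact hφS
    have h4 := card_le_card h3
    rw [card_pair (by rw [h1]; exact ne_bin)] at h4
    exact h4
  have hS0 : (S.filter L ∪ T).card < 2 ^ w := by
    have h1 : S.filter L ∪ T ⊆ S ∪ T := union_subset_union_left (filter_subset _ _)
    have h2 : (S ∪ T).card ≤ 3 * S.card + 2 := by rw [hT]; exact card_strips hSC
    have h3 := card_le_card h1
    omega
  have hS0C : SC (S.filter L ∪ T) := by
    intro a ha x hx
    rw [mem_union, mem_filter] at ha ⊢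
    rcases ha with ha | ha
    · exact Or.inl ⟨hSC a ha.1 hx, hLs a x ha.2 hx⟩
    · exact Or.inr (hTC a ha hx)
  have hST : SC (S ∪ T) := by
    intro a ha x hx
    rw [mem_union] at ha ⊢
    rcases ha with ha | ha
    · exact Or.inl (hSC a ha hx)
    · exact Or.inr (hTC a ha hx)
  obtain ⟨K, _, _, P, F0, hEvl, hφ0, h1, hPB⟩ := hE n w M m g r k G hww1 hnw hdg hexp hk8 hk16
    (hpow1.trans hM) ((Nat.mul_le_mul_left _ hpow1).trans hm) (by rw [← hL0]; exact hc3)
    (S.filter L ∪ T) hS0 hS0C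
    (by
      intro x hx
      rw [mem_union, mem_filter] at hx
      rcases hx with hx | hx
      · rw [← hL]; exact hx.2
      · rw [← hL]; exact hTL x hx)
    (by
      intro x hx
      rw [mem_union, mem_filter] at hx
      rcases hx with hx | hx
      · exact hSlv x hx.1
      · rw [hT] at hx
        exact lv_strips hSC hSlv hx)
    (by
      rw [mem_union, mem_filter]
      exact Or.inl ⟨hφS, hφL⟩)
  rw [← hL0] at hEvl
  have hlog : Nat.log 2 S.card + 1 ≤ w + 1 := by
    have h2 : Nat.log 2 S.card ≤ w := by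
      have h3 : S.card ≤ 2 ^ w := by omega
      calc Nat.log 2 S.card ≤ Nat.log 2 (2 ^ w) := Nat.log_mono_right h3
        _ = w := Nat.log_pow (by norm_num) w
    omega
  have hpd : 1 ≤ p ^ d := Nat.one_le_pow _ _ hpp.one_lt.le
  obtain ⟨P', F, c1, hcc, hext, h1', hEv, hFF⟩ := levels h1 hSC hTC hTL hLs
    (fun a ha c => by rw [hT]; exact strip_mem ha c) hEvl hSvy U n c
    (by
      intro j hj
      refine le_trans ?_ (hc1 _ hlog j hj)
      refine Nat.mul_le_mul_right _ (Nat.add_le_add_right (Nat.div_le_div_right ?_) 1)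
      exact Nat.mul_le_mul_right _ (Nat.mul_le_mul_left _ hQ))
    (by rw [hPB]; omega)
  have hD0 : L0 * w ^ a1 ≤ dl (p ^ d) U n s (L0 * w ^ a1) b := dl_ge hpd b
  have hp3 : dl (p ^ d) U n s (L0 * w ^ a1) b ≤ (p + 3) * dl (p ^ d) U n s (L0 * w ^ a1) b :=
    Nat.le_mul_of_pos_left _ (by omega)
  have hPB' := hext.hB
  refine no_der hEv hST hl (fun C hC a ha => mem_union_left _ (hSpi C hC a ha)) hφ ?_ hw10 ?_ h1'
  · have hmem : graphTaut p q G M ∈ S.filter L ∪ T := by
      rw [mem_union, mem_filter]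
      exact Or.inl ⟨hφS, hφL⟩
    rw [hFF _ hmem]
    exact hext.zr (hEvl.deg _ hmem) hφ0 (by rw [hPB]; omega)
  · omega

end Pool.Agent.Work.MP_c04246_lc.GT
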