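import Pool.Agent.Work.MP_c04246_lc.GT.Df

/-!
MODULE Ax (size S). Extensions of ideals; degrees of the functions `ev`.

Proof. `Ext.refl`: `θ = true`. `Ext.trans`: `θ` and `θ'` multiplied (`bF_and_eq`); `bF K θ' ∈ P'.Deg c' = P.Deg c'`.
`Ext.zr`: `bF K θ * f = f * bF K θ` and `P.zmul` (`D + c ≤ P.B`). `exists_ext`: `Deg = P.Deg`, `Zr = {f | bF K θ * f ∈ P.Zr}` (a submodule),
`B = P.B - c`; `zmul`: `bF K θ * (f * g) = (bF K θ * f) * g` and `P.zmul` with `(c + D) + D' ≤ P.B` (as `c ≤ P.B`, `D + D' ≤ P.B - c`).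
`Ext.proper`: if `bF K θ ∉ P.Zr` then `1 ∉ P'.Zr`; trivial. `deg_ev`: `bF_comb` with a constant (`bF_const 0 c`).
`ev_cases`, `bF_ev_compl`: pointwise.
-/

set_option autoImplicit false
set_option linter.unusedSectionVars false

namespace Pool.Agent.Work.MP_c04246_lc.GT

open Finset Fml H

variable {Y K : Type} [Field K] {p : ℕ} [Fact p.Prime] {X : Type}

theorem Ext.refl (P : PCI Y K) : Ext P P 0 := by
  refine ⟨fun D f => Iff.rfl, rfl, fun _ => true, bF_const 0 true, fun f => ?_⟩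
  have h : bF K (fun _ : Y => true) * f = f := by
    funext y
    simp [bF]
  rw [h]

theorem Ext.trans {P P' P'' : PCI Y K} {c c' : ℕ} (h : Ext P P' c) (h' : Ext P' P'' c') :
    Ext P P'' (c + c') := by
  obtain ⟨hd, hB, θ, hθ, hz⟩ := h
  obtain ⟨hd', hB', θ', hθ', hz'⟩ := h'
  refine ⟨fun D f => (hd' D f).trans (hd D f), by omega, fun y => θ y && θ' y, ?_, fun f => ?_⟩
  · rw [bF_and_eq]
    exact P.mul hθ ((hd c' _).1 hθ')
  · rw [hz', hz, bF_and_eq, mul_assoc]

theorem Ext.zr {P P' : PCI Y K} {c D : ℕ} {f : Y → K} (h : Ext P P' c) (hf : f ∈ P.Deg D)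
    (hz : f ∈ P.Zr) (hB : D + c ≤ P.B) : f ∈ P'.Zr := by
  obtain ⟨hd, hB', θ, hθ, hz'⟩ := h
  rw [hz', mul_comm]
  exact P.zmul hB hf hz hθ

theorem exists_ext {P : PCI Y K} {c : ℕ} (θ : Y → Bool) (hθ : bF K θ ∈ P.Deg c) (hc : c ≤ P.B) :
    ∃ P' : PCI Y K, Ext P P' c ∧ ∀ f, f ∈ P'.Zr ↔ bF K θ * f ∈ P.Zr := by
  let Z : Submodule K (Y → K) :=
    { carrier := {f | bF K θ * f ∈ P.Zr}
      add_mem' := by
        intro f g hf hg
        show bF K θ * (f + g) ∈ P.Zr
        rw [mul_add]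
        exact P.Zr.add_mem hf hg
      zero_mem' := by
        show bF K θ * 0 ∈ P.Zr
        rw [mul_zero]
        exact P.Zr.zero_mem
      smul_mem' := by
        intro r f hf
        show bF K θ * (r • f) ∈ P.Zr
        rw [mul_smul_comm]
        exact P.Zr.smul_mem r hf }
  let P' : PCI Y K :=
    { Deg := P.Deg
      Zr := Z
      B := P.B - c
      mono := fun {D D'} h => P.mono h
      one := P.one
      mul := fun {D D' f g} hf hg => P.mul hf hg
      zmul := fun {D D' f g} hB hf hz hg => by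
        show bF K θ * (f * g) ∈ P.Zr
        rw [← mul_assoc]
        exact P.zmul (D := c + D) (D' := D') (by omega) (P.mul hθ hf) hz hg }
  refine ⟨P', ⟨fun D f => Iff.rfl, ?_, θ, hθ, fun f => Iff.rfl⟩, fun f => Iff.rfl⟩
  show P.B - c + c = P.B
  omega

theorem deg_ev {P : PCI Y K} {F : Fml p X → Y → Bool} {c : Bool} {a : Fml p X} {D : ℕ}
    (h : bF K (F a) ∈ P.Deg D) : bF K (ev F c a) ∈ P.Deg D := by
  have h2 := bF_comb (P := P) (D' := 0) (fun a b => a == b) h (bF_const 0 c)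
  exact h2

/-- the complement -/
theorem bF_ev_not (F : Fml p X → Y → Bool) (c : Bool) (a : Fml p X) :
    1 - bF K (ev F c a) = bF K (fun y => !(ev F c a y)) := by
  funext y
  show 1 - (if ev F c a y then (1 : K) else 0) = if (!(ev F c a y)) then (1 : K) else 0
  cases ev F c a y <;> simp

end Pool.Agent.Work.MP_c04246_lc.GT
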