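import Pool.Agent.Work.MP_c04246_lc.G.Df
import Pool.Agent.Work.MP_c04246_lc.HWalk

/-!
# Definitions for theorem GT (pool of MOD-containing arguments)

`L` is always a predicate on formulas (light formulas), later `Lay w m g r t`.
-/

set_option autoImplicit false

namespace Pool.Agent.Work.MP_c04246_lc

namespace Fml

variable {p : ℕ} {V : Type}

open Classical in
/-- The number of (merged) conjunctions and disjunctions on a path which do not satisfy `L`, below a
connective of the kind `r` (`some true` is the disjunction, `some false` is the conjunction, `none`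
is anything else); formulas satisfying `L` count as `0`. -/
noncomputable def hblk (L : Fml p V → Prop) : Option Bool → Fml p V → ℕ
  | _, var _ => 0
  | _, cst _ => 0
  | _, neg a => hblk L none a
  | r, bin c a b => if L (bin c a b) then 0 else
      (if r = some c then 0 else 1) + max (hblk L (some c) a) (hblk L (some c) b)
  | _, mod i k f => if L (mod i k f) then 0 else Finset.univ.sup fun j => hblk L none (f j)

open Classical in
/-- The number of counting connectives on a path which do not satisfy `L`; formulas satisfying `L`
count as `0`. -/
noncomputable def hmod (L : Fml p V → Prop) : Fml p V → ℕ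
  | var _ => 0
  | cst _ => 0
  | neg a => hmod L a
  | bin c a b => if L (bin c a b) then 0 else max (hmod L a) (hmod L b)
  | mod i k f => if L (mod i k f) then 0 else 1 + Finset.univ.sup fun j => hmod L (f j)

open Classical in
/-- the arguments of the formula, regarded as a (merged) `bin c`, which contain a wide counting
connective -/
noncomputable def margs (w m : ℕ) (c : Bool) (a : Fml p V) : Finset (Fml p V) :=
  (args c a).filter fun x => (wide w m x).Nonempty

open Classical in
/-- At most `b` nested (merged) conjunctions and disjunctions do not satisfy `L`, at most `e` nested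
counting connectives do not satisfy `L`, and all but at most `s` of those arguments of a (merged)
conjunction or disjunction not satisfying `L` which contain a wide counting connective are in `Q`. -/
def Hvy (w m : ℕ) (L : Fml p V → Prop) (Q : Finset (Fml p V)) (s b e : ℕ) (a : Fml p V) : Prop :=
  hblk L none a ≤ b ∧ hmod L a ≤ e ∧ ∀ (c : Bool) (x y : Fml p V), bin c x y ∈ subs a →
    ¬ L (bin c x y) → ((margs w m c (bin c x y)).filter fun z => z ∉ Q).card ≤ s

end Fml

namespace GT

open Finset Fml H

section syn

variable {p : ℕ} {V : Type}

open Classical in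
/-- the formula regarded as a (merged) `bin c`, where the arguments containing a wide counting
connective are replaced by the neutral constant -/
noncomputable def strip (w m : ℕ) (c : Bool) : Fml p V → Fml p V
  | var x => var x
  | cst b => cst b
  | neg a => if (wide w m (neg a)).Nonempty then cst (!c) else neg a
  | bin c' a b => if c' = c then bin c (strip w m c a) (strip w m c b)
      else if (wide w m (bin c' a b)).Nonempty then cst (!c) else bin c' a b
  | mod i k f => if (wide w m (mod i k f)).Nonempty then cst (!c) else mod i k f

open Classical in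
/-- generators: the arguments containing a wide counting connective, and the strip -/
noncomputable def gens (w m : ℕ) (c : Bool) (a : Fml p V) : Finset (Fml p V) :=
  insert (strip w m c a) (margs w m c a)

open Classical in
/-- all subformulas of strips -/
noncomputable def strips (w m : ℕ) (S : Finset (Fml p V)) : Finset (Fml p V) :=
  S.biUnion fun a => subs (strip w m true a) ∪ subs (strip w m false a)

end syn

section alg

variable {Y K : Type} [Field K] {p : ℕ} [Fact p.Prime] {X : Type}

/-- `P'` is the ideal of all functions `f` with `θ * f ∈ P` for a Boolean function `θ` of degree at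
most `c` -/
structure Ext (P P' : PCI Y K) (c : ℕ) : Prop where
  deg : ∀ D f, f ∈ P'.Deg D ↔ f ∈ P.Deg D
  hB : P'.B + c = P.B
  th : ∃ θ : Y → Bool, bF K θ ∈ P.Deg c ∧ ∀ f, f ∈ P'.Zr ↔ bF K θ * f ∈ P.Zr

/-- the formula has the truth value `c` -/
def ev (F : Fml p X → Y → Bool) (c : Bool) (a : Fml p X) (y : Y) : Bool := F a y == c

/-- `a`, regarded as a (merged) `bin c`, has the value `c` if and only if one of its generators
does, up to the ideal -/
structure Sup (P : PCI Y K) (F : Fml p X → Y → Bool) (w m M : ℕ) (c : Bool) (a : Fml p X) :
    Prop where
  A : ∀ x ∈ gens w m c a, bF K (ev F c x) * (1 - bF K (ev F c a)) ∈ P.Zr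
  B : ∀ (D : ℕ) (χ : Y → K), χ ∈ P.Deg D → D + M ≤ P.B →
    (∀ x ∈ gens w m c a, bF K (ev F c x) * χ ∈ P.Zr) → bF K (ev F c a) * χ ∈ P.Zr

/-- `F` evaluates the formulas of `S` by Boolean functions of degree at most `D`, which obey all
truth tables up to the ideal -/
structure Evl (P : PCI Y K) (S : Finset (Fml p X)) (D : ℕ) (F : Fml p X → Y → Bool) : Prop where
  deg : ∀ a ∈ S, bF K (F a) ∈ P.Deg D
  rz : ∀ a ∈ S, bF K (fun y => !(rsp (fun φ => F φ y) a)) ∈ P.Zr

/-- States: `F` evaluates the formulas of `T` (the strips) by Boolean functions of degree at most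
`D0`, and the formulas of `A` by Boolean functions of degree at most `D`. -/
structure Sta (P : PCI Y K) (w m : ℕ) (T A : Finset (Fml p X)) (D0 D : ℕ)
    (F : Fml p X → Y → Bool) : Prop where
  one : (1 : Y → K) ∉ P.Zr
  evT : Evl P T D0 F
  deg : ∀ a ∈ A, bF K (F a) ∈ P.Deg D
  sup : ∀ c a b, bin c a b ∈ A → Sup P F w m (10 * ((p + 3) * D)) c (bin c a b)
  rz : ∀ a ∈ A, (∀ c x y, a ≠ bin c x y) → bF K (fun y => !(rsp (fun φ => F φ y) a)) ∈ P.Zr

open Classical in
/-- evaluation of all formulas, if the values of the formulas of `A` are given by `F` and the values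
of the other conjunctions and disjunctions are given by `gv` -/
noncomputable def evN (A : Finset (Fml p X)) (F gv : Fml p X → Y → Bool) : Fml p X → Y → Bool
  | var x => if var x ∈ A then F (var x) else fun _ => false
  | cst b => if cst b ∈ A then F (cst b) else fun _ => b
  | neg a => if neg a ∈ A then F (neg a) else fun y => !(evN A F gv a y)
  | bin c a b => if bin c a b ∈ A then F (bin c a b) else gv (bin c a b)
  | mod i k f => if mod i k f ∈ A then F (mod i k f) else fun y =>
      decide ((∑ j, if evN A F gv (f j) y then (1 : ZMod p) else 0) = i)

/-- degrees of the levels, in the proof -/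
def dl (E U n s D0 : ℕ) : ℕ → ℕ
  | 0 => E * (2 * D0)
  | j + 1 => E * ((U * dl E U n s D0 j / n + 1 + s + 1) * dl E U n s D0 j)

/-- degrees of the levels, in the statement -/
def dg (n I s D0 : ℕ) : ℕ → ℕ
  | 0 => D0
  | j + 1 => (dg n I s D0 j * I / n + s + 1) * dg n I s D0 j

end alg

end GT

end Pool.Agent.Work.MP_c04246_lc
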