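import Pool.Agent.Work.MP_c04246_lc.GT.Ax

/-!
MODULE Ev (size S). Degrees of the errors of the truth tables; evaluations in an extension of the ideal.

Proof. `Evl.degR`: this is `Env.deg_rspF` (HLay2.lean; compare `Env.deg_rsp` in HResp.lean), with the same proof: cases on `a`, `bF_not`,
`bF_comb`, `bF_comb3`, `bF_mod`; the immediate subformulas are in `S` by `SC`.
`Evl.ext`: degrees by `Ext.deg`, errors by `Ext.zr` and `Evl.degR`. `Evl.congr`: `rsp_congr` and `SC`.
-/

set_option autoImplicit false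
set_option linter.unusedSectionVars false

namespace Pool.Agent.Work.MP_c04246_lc.GT

open Finset Fml H

variable {Y K : Type} [Field K] {p : ℕ} [Fact p.Prime] [CharP K p] {X : Type} [DecidableEq X]
  [Fintype X]

theorem Evl.degR {P : PCI Y K} {S : Finset (Fml p X)} {D : ℕ} {F : Fml p X → Y → Bool}
    (hS : SC S) (hd : ∀ a ∈ S, bF K (F a) ∈ P.Deg D) {a : Fml p X} (ha : a ∈ S) :
    bF K (fun y => !(rsp (fun φ => F φ y) a)) ∈ P.Deg ((p + 3) * D) := by
  have hp : 1 < p := (Fact.out : p.Prime).one_lt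
  apply bF_not
  have hr : (p + 3) * D = p * D + 3 * D := by ring
  cases a with
  | var x => exact bF_const _ _
  | cst b =>
    refine P.up (bF_comb (D' := 0) (fun u v => u == v) (hd _ ha) (bF_const 0 b)) (by omega)
  | neg a =>
    refine P.up (bF_comb (fun u v => u == !v) (hd _ ha) (hd _ (hS.neg ha))) (by omega)
  | bin c a b =>
    refine P.up (bF_comb3 (fun u v w => u == (if c then (v || w) else (v && w))) (hd _ ha)
      (hd _ (hS.bin ha).1) (hd _ (hS.bin ha).2)) (by omega)
  | mod i k f =>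
    refine P.up (bF_comb (fun u v => u == v) (hd _ ha)
      (bF_mod (i := i) fun j => hd _ (hS.mod ha j))) (by omega)

theorem Evl.ext {P P' : PCI Y K} {c : ℕ} (h : Ext P P' c) {S : Finset (Fml p X)} {D : ℕ}
    {F : Fml p X → Y → Bool} (hS : SC S) (hE : Evl P S D F) (hB : (p + 3) * D + c ≤ P.B) :
    Evl P' S D F :=
  ⟨fun a ha => (h.deg _ _).mpr (hE.deg a ha),
    fun a ha => h.zr (Evl.degR hS hE.deg ha) (hE.rz a ha) hB⟩

theorem Evl.congr {P : PCI Y K} {S : Finset (Fml p X)} {D : ℕ} {F F' : Fml p X → Y → Bool}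
    (hS : SC S) (hE : Evl P S D F) (h : ∀ a ∈ S, F' a = F a) : Evl P S D F' := by
  refine ⟨fun a ha => by rw [h a ha]; exact hE.deg a ha, fun a ha => ?_⟩
  have h1 : (fun y => !(rsp (fun φ => F' φ y) a)) = fun y => !(rsp (fun φ => F φ y) a) := by
    funext y
    rw [rsp_congr (v := fun φ => F' φ y) (v' := fun φ => F φ y) fun b hb => by
      show F' b y = F b y
      rw [h b (hS a ha hb)]]
  rw [h1]
  exact hE.rz a ha

end Pool.Agent.Work.MP_c04246_lc.GT
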