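import Pool.Agent.Work.MP_c04246_lc.GT.Ev

/-!
MODULE Evn (size S). The function `evN`.

Proof. `evN_mem`: cases on `a`. `evN_bin`: definition. `evN_rsp`: cases on `a`; `rsp` at `neg a` is `v (neg a) == !(v a)` etc.; `evN` of the
subformulas is `evN` (definition of `evN` for a formula not in `A`).
`evN_deg`: induction on `a ∈ A'` (subformulas are in `A'`): for `a ∈ A` the value is `F a`, `D' ≤ p ^ _ * D'` (`p ≥ 2`). `neg a ∉ A`: `bF_not`, `hmod (neg a) = hmod a`.
`bin ∉ A`: `hgv`. `mod i k f ∉ A`: not `L` (`hLA`), `hmod = 1 + sup`; `bF_mod` with `D = p ^ sup * D'` (`Finset.le_sup`, `P.up`).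
-/

set_option autoImplicit false
set_option linter.unusedSectionVars false

namespace Pool.Agent.Work.MP_c04246_lc.GT

open Finset Fml H

variable {Y K : Type} [Field K] {p : ℕ} [Fact p.Prime] [CharP K p] {X : Type} [DecidableEq X]
  [Fintype X]

theorem evN_mem {A : Finset (Fml p X)} {F gv : Fml p X → Y → Bool} {a : Fml p X} (ha : a ∈ A) :
    evN A F gv a = F a := by
  cases a <;> simp only [evN, if_pos ha]

theorem evN_bin {A : Finset (Fml p X)} {F gv : Fml p X → Y → Bool} {c : Bool} {a b : Fml p X}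
    (ha : bin c a b ∉ A) : evN A F gv (bin c a b) = gv (bin c a b) := by
  simp only [evN, if_neg ha]

theorem evN_rsp {A : Finset (Fml p X)} {F gv : Fml p X → Y → Bool} {a : Fml p X} (ha : a ∉ A)
    (h : ∀ c x y, a ≠ bin c x y) (y : Y) : rsp (fun φ => evN A F gv φ y) a = true := by
  cases a with
  | var x => rfl
  | cst b => simp only [rsp, evN, if_neg ha, beq_self_eq_true]
  | neg a =>
    have e : evN A F gv (neg a) y = !(evN A F gv a y) := by
      rw [evN, if_neg ha]
    simp only [rsp, e, beq_self_eq_true]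
  | bin c a b => exact absurd rfl (h c a b)
  | mod i k f =>
    have e : evN A F gv (mod i k f) y =
        decide ((∑ j, if evN A F gv (f j) y then (1 : ZMod p) else 0) = i) := by
      rw [evN, if_neg ha]
    simp only [rsp, e, beq_self_eq_true]

theorem evN_deg {P : PCI Y K} {L : Fml p X → Prop} {A A' : Finset (Fml p X)}
    {F gv : Fml p X → Y → Bool} {D' : ℕ} (hF : ∀ a ∈ A, bF K (F a) ∈ P.Deg D') (hA' : SC A')
    (hLA : ∀ a ∈ A', L a → a ∈ A)
    (hgv : ∀ c a b, bin c a b ∈ A' → bin c a b ∉ A → bF K (gv (bin c a b)) ∈ P.Deg D') :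
    ∀ a ∈ A', bF K (evN A F gv a) ∈ P.Deg (p ^ hmod L a * D') := by
  have hp : 1 ≤ p := (Fact.out : p.Prime).one_lt.le
  have hup : ∀ k : ℕ, D' ≤ p ^ k * D' := fun k =>
    Nat.le_mul_of_pos_left _ (Nat.pow_pos hp)
  intro a
  induction a with
  | var x =>
    intro _
    by_cases h : var x ∈ A
    · rw [evN_mem h]
      exact P.up (hF _ h) (hup _)
    · rw [evN, if_neg h]
      exact bF_const _ _
  | cst b =>
    intro _
    by_cases h : cst b ∈ A
    · rw [evN_mem h]
      exact P.up (hF _ h) (hup _)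
    · rw [evN, if_neg h]
      exact bF_const _ _
  | neg a ih =>
    intro ha
    by_cases h : neg a ∈ A
    · rw [evN_mem h]
      exact P.up (hF _ h) (hup _)
    · rw [evN, if_neg h]
      exact bF_not (ih (hA'.neg ha))
  | bin c a b _ _ =>
    intro ha
    by_cases h : bin c a b ∈ A
    · rw [evN_mem h]
      exact P.up (hF _ h) (hup _)
    · rw [evN_bin h]
      exact P.up (hgv c a b ha h) (hup _)
  | mod i k f ih =>
    intro ha
    by_cases h : mod i k f ∈ A
    · rw [evN_mem h]
      exact P.up (hF _ h) (hup _)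
    · rw [evN, if_neg h]
      have hl : ¬ L (mod i k f) := fun hl => h (hLA _ ha hl)
      have e : hmod L (mod i k f) = 1 + Finset.univ.sup fun j => hmod L (f j) := by
        rw [hmod, if_neg hl]
      rw [e, pow_add, pow_one, mul_assoc]
      refine bF_mod (i := i) fun j => P.up (ih j (hA'.mod ha j)) ?_
      exact Nat.mul_le_mul_right _ (Nat.pow_le_pow_right hp
        (Finset.le_sup (f := fun j => hmod L (f j)) (Finset.mem_univ j)))

end Pool.Agent.Work.MP_c04246_lc.GT
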