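import Pool.Agent.Work.MP_c04246_lc.GT.SpO

/-!
MODULE SpL (size M). In an evaluation of formulas closed under subformulas, together with their strips, every formula is the supremum
of its generators.

Proof. Let `D = D0`, `N = (p + 3) * D0 ≥ 5 * D0` be the bound for the degrees of the errors (`Evl.degR`), `M = 10 * N`. Induction on `a ∈ A` (subformulas
are in `A` by `SC A`). If `a` is not a `bin c`: `Sup.other`. Let `a = bin c x y`, `E u = bF K (ev F c u)`,
`R u = bF K (fun y => !(rsp (fun φ => F φ y) u)) ∈ P.Zr`. By `strip_bin`, `strip a = bin c (strip x) (strip y) ∈ T`, and `strip x, strip y ∈ T`;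
`margs a = margs x ∪ margs y` (`margs_bin`).
(T) Where `R a` vanishes, `ev F c a = ev F c x || ev F c y` (cases on `c`), similarly for `strip a`.
(A) for `z ∈ margs x`: `E z * (1 - E a)` is in `Zr` by `cover_zr` with the events `R a`, `ev F c z ∧ ¬ ev F c x`: the second one is in `Zr` by (A) for `x`.
 For `z = strip a`: `cover_zr` for `E (strip a) * (1 - E a)` with the events `R (strip a)`, `R a`,
 `ev F c (strip x) ∧ ¬ ev F c x`, `ev F c (strip y) ∧ ¬ ev F c y` (in `Zr` by (A) for `x`, `y` at the generators `strip x`, `strip y`). All events have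
 degree `≤ N` (`2 * D0 ≤ N`), `χ` has degree `2 * D0`, `2 * D0 + 4 * N ≤ 10 * N ≤ P.B`.
 (`bF K (fun t => ev F c u t && !(ev F c v t)) = E u * (1 - E v)`.)
(B) Let `χ ∈ Deg D'`, `D' + M ≤ P.B`, `E z * χ ∈ Zr` for all generators `z` of `a`. Then `E (strip x) * χ ∈ Zr`: it is
 `E (strip x) * E (strip a) * χ + E (strip x) * (1 - E (strip a)) * χ`; the first term is in `Zr` by `zmul`; `E (strip x) * (1 - E (strip a))` is in `Zr`
 by `cover_zr` with the event `R (strip a)`, then multiply by `χ` (`2 * D0 + D' ≤ P.B`). Hence `E z * χ ∈ Zr` for all generators `z` of `x`, so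
 `E x * χ ∈ Zr` by (B) for `x` (same `D'`, same `M`). Similarly for `y`. Now `E a * χ ∈ Zr` by `cover_zr` with the events `R a`,
 `ev F c x`, `ev F c y` (degree of `E a * χ`: `D0 + D'`; `D0 + D' + 3 * N ≤ D' + M`).
-/

set_option autoImplicit false
set_option linter.unusedSectionVars false

namespace Pool.Agent.Work.MP_c04246_lc.GT

open Finset Fml H

variable {Y K : Type} [Field K] {p : ℕ} [Fact p.Prime] [CharP K p] {X : Type} [DecidableEq X]
  [Fintype X] {w m : ℕ}

private theorem tt (v : Fml p X → Bool) (c : Bool) (x y : Fml p X)
    (h : rsp v (bin c x y) = true) :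
    (v (bin c x y) == c) = ((v x == c) || (v y == c)) := by
  simp only [rsp, beq_iff_eq] at h
  rw [h]
  cases c <;> cases v x <;> cases v y <;> rfl

/-- a function supported on few null events is null -/
private theorem cov {P : PCI Y K} {M D : ℕ} {χ : Y → K} (hχ : χ ∈ P.Deg D)
    (l : List (Y → Bool)) (hl : ∀ b ∈ l, bF K b ∈ P.Deg M ∧ bF K b ∈ P.Zr)
    (hB : D + l.length * M ≤ P.B) (hcov : ∀ y, χ y ≠ 0 → ∃ b ∈ l, b y = true) : χ ∈ P.Zr := by
  refine cover_zr hχ l (fun b hb => ⟨(hl b hb).1, ?_⟩) hB hcov
  have h1 : 1 ≤ l.length := List.length_pos_of_mem hb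
  have h2 : 1 * M ≤ l.length * M := Nat.mul_le_mul_right _ h1
  rw [mul_comm]
  exact P.zmul (by omega) (hl b hb).1 (hl b hb).2 hχ

private theorem andn (F : Fml p X → Y → Bool) (c : Bool) (u v : Fml p X) :
    bF K (fun t => ev F c u t && !(ev F c v t)) = bF K (ev F c u) * (1 - bF K (ev F c v)) := by
  rw [bF_ev_not, bF_and_eq]

private theorem nz {F : Fml p X → Y → Bool} {c : Bool} {u : Fml p X} {t : Y} {k : K}
    (h : bF K (ev F c u) t * k ≠ 0) : ev F c u t = true := by
  by_contra h1
  rw [bF_false (by simpa using h1), zero_mul] at h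
  exact h rfl

private theorem nz' {F : Fml p X → Y → Bool} {c : Bool} {u : Fml p X} {t : Y} {k : K}
    (h : k * (1 - bF K (ev F c u)) t ≠ 0) : ev F c u t = false := by
  by_contra h1
  rw [Pi.sub_apply, Pi.one_apply, bF_true (by simpa using h1), sub_self, mul_zero] at h
  exact h rfl

theorem sup_light {P : PCI Y K} {F : Fml p X → Y → Bool} {T A : Finset (Fml p X)} {D0 : ℕ}
    (hT : Evl P T D0 F) (hTc : SC T) (hA : Evl P A D0 F) (hAc : SC A)
    (hst : ∀ a ∈ A, ∀ c, strip w m c a ∈ T) (hB : 10 * ((p + 3) * D0) ≤ P.B) :
    ∀ a ∈ A, ∀ c, Sup P F w m (10 * ((p + 3) * D0)) c a := by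
  classical
  have hp : 1 < p := (Fact.out : p.Prime).one_lt
  obtain ⟨N, hN⟩ : ∃ N, N = (p + 3) * D0 := ⟨_, rfl⟩
  have h5 : 5 * D0 ≤ N := by
    rw [hN]
    exact Nat.mul_le_mul_right _ (by omega)
  rw [← hN] at hB ⊢
  have hdegT : ∀ u ∈ T, bF K (fun y => !(rsp (fun φ => F φ y) u)) ∈ P.Deg N := by
    intro u hu
    rw [hN]
    exact Evl.degR hTc hT.deg hu
  have hdegA : ∀ u ∈ A, bF K (fun y => !(rsp (fun φ => F φ y) u)) ∈ P.Deg N := by
    intro u hu
    rw [hN]
    exact Evl.degR hAc hA.deg hu
  have hoth : ∀ (a : Fml p X) (c : Bool), a ∈ A → (∀ x y, a ≠ bin c x y) →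
      Sup P F w m (10 * N) c a := fun a c ha h =>
    Sup.other h hT (hst a ha c) (hA.deg a ha) (by omega)
  intro a
  induction a with
  | var x => exact fun ha c => hoth _ c ha fun _ _ h => by cases h
  | cst b => exact fun ha c => hoth _ c ha fun _ _ h => by cases h
  | neg a _ => exact fun ha c => hoth _ c ha fun _ _ h => by cases h
  | mod i k f _ => exact fun ha c => hoth _ c ha fun _ _ h => by cases h
  | bin c' x y ihx ihy =>
    intro ha c
    by_cases hc : c' = c
    swap
    · exact hoth _ c ha fun _ _ h => hc (by injection h)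
    subst hc
    obtain ⟨hxA, hyA⟩ := hAc.bin ha
    have hx := ihx hxA c'
    have hy := ihy hyA c'
    have hsx := hst x hxA c'
    have hsy := hst y hyA c'
    have hsa : bin c' (strip w m c' x) (strip w m c' y) ∈ T := by
      rw [← strip_bin]
      exact hst _ ha c'
    have hga : gens w m c' (bin c' x y) = insert (bin c' (strip w m c' x) (strip w m c' y))
        (margs w m c' (bin c' x y)) := by
      unfold gens
      rw [strip_bin]
    -- degrees
    have dA : ∀ u ∈ A, bF K (ev F c' u) ∈ P.Deg D0 := fun u hu => deg_ev (hA.deg u hu)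
    have dT : ∀ u ∈ T, bF K (ev F c' u) ∈ P.Deg D0 := fun u hu => deg_ev (hT.deg u hu)
    have dn : ∀ {f : Y → K}, f ∈ P.Deg D0 → 1 - f ∈ P.Deg D0 := fun hf =>
      Submodule.sub_mem _ (P.one' _) hf
    have dd : ∀ u v, bF K (ev F c' u) ∈ P.Deg D0 → bF K (ev F c' v) ∈ P.Deg D0 →
        bF K (fun t => ev F c' u t && !(ev F c' v t)) ∈ P.Deg N := by
      intro u v hu hv
      rw [andn]
      exact P.up (P.mul hu (dn hv)) (by omega)
    have tr : ∀ (u v : Fml p X) (t : Y), rsp (fun φ => F φ t) (bin c' u v) = true →
        ev F c' (bin c' u v) t = (ev F c' u t || ev F c' v t) := fun u v t h => tt _ c' u v h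
    have hRa := hA.rz _ ha
    have hRs := hT.rz _ hsa
    have hsxg : strip w m c' x ∈ gens w m c' x := Finset.mem_insert_self _ _
    have hsyg : strip w m c' y ∈ gens w m c' y := Finset.mem_insert_self _ _
    -- (A) for the arguments
    have hAm : ∀ u z, u = x ∨ u = y → z ∈ gens w m c' u → bF K (ev F c' z) ∈ P.Deg D0 →
        bF K (ev F c' z) * (1 - bF K (ev F c' (bin c' x y))) ∈ P.Zr := by
      intro u z hu hz hzd
      have huA : u ∈ A := by
        rcases hu with rfl | rfl
        · exact hxA
        · exact hyA
      have hsup : Sup P F w m (10 * N) c' u := by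
        rcases hu with rfl | rfl
        · exact hx
        · exact hy
      refine cov (M := N) (P.mul hzd (dn (dA _ ha)))
        [fun t => !(rsp (fun φ => F φ t) (bin c' x y)),
          fun t => ev F c' z t && !(ev F c' u t)] ?_ ?_ ?_
      · intro b hb
        rw [List.mem_cons, List.mem_singleton] at hb
        rcases hb with rfl | rfl
        · exact ⟨hdegA _ ha, hRa⟩
        · refine ⟨dd z u hzd (dA _ huA), ?_⟩
          rw [andn]
          exact hsup.A z hz
      · show D0 + D0 + 2 * N ≤ P.B
        omega
      · intro t ht
        rw [Pi.mul_apply] at ht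
        have h1 := nz ht
        have h2 := nz' ht
        by_cases hr : rsp (fun φ => F φ t) (bin c' x y) = true
        · refine ⟨_, List.mem_cons_of_mem _ (List.mem_singleton_self _), ?_⟩
          have h3 := tr x y t hr
          rw [h2] at h3
          have h4 : ev F c' u t = false := by
            rcases hu with rfl | rfl
            · cases h5 : ev F c' u t
              · rfl
              · rw [h5] at h3; simp at h3
            · cases h5 : ev F c' u t
              · rfl
              · rw [h5] at h3; simp at h3
          show (ev F c' z t && !(ev F c' u t)) = true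
          rw [h1, h4]
          rfl
        · refine ⟨_, List.mem_cons_self, ?_⟩
          show (!(rsp (fun φ => F φ t) (bin c' x y))) = true
          simpa using hr
    constructor
    · -- (A)
      intro z hz
      rw [hga, Finset.mem_insert] at hz
      rcases hz with rfl | hz
      · refine cov (M := N) (P.mul (dT _ hsa) (dn (dA _ ha)))
          [fun t => !(rsp (fun φ => F φ t) (bin c' (strip w m c' x) (strip w m c' y))),
            fun t => !(rsp (fun φ => F φ t) (bin c' x y)),
            fun t => ev F c' (strip w m c' x) t && !(ev F c' x t),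
            fun t => ev F c' (strip w m c' y) t && !(ev F c' y t)] ?_ ?_ ?_
        · intro b hb
          simp only [List.mem_cons, List.not_mem_nil, or_false] at hb
          rcases hb with rfl | rfl | rfl | rfl
          · exact ⟨hdegT _ hsa, hRs⟩
          · exact ⟨hdegA _ ha, hRa⟩
          · refine ⟨dd _ _ (dT _ hsx) (dA _ hxA), ?_⟩
            rw [andn]
            exact hx.A _ hsxg
          · refine ⟨dd _ _ (dT _ hsy) (dA _ hyA), ?_⟩
            rw [andn]
            exact hy.A _ hsyg
        · show D0 + D0 + 4 * N ≤ P.B
          omega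
        · intro t ht
          rw [Pi.mul_apply] at ht
          have h1 := nz ht
          have h2 := nz' ht
          by_cases hr : rsp (fun φ => F φ t) (bin c' (strip w m c' x) (strip w m c' y)) = true
          swap
          · refine ⟨fun t => !(rsp (fun φ => F φ t)
              (bin c' (strip w m c' x) (strip w m c' y))), by simp, ?_⟩
            show (!(rsp (fun φ => F φ t) (bin c' (strip w m c' x) (strip w m c' y)))) = true
            simpa using hr
          by_cases hr' : rsp (fun φ => F φ t) (bin c' x y) = true
          swap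
          · refine ⟨fun t => !(rsp (fun φ => F φ t) (bin c' x y)), by simp, ?_⟩
            show (!(rsp (fun φ => F φ t) (bin c' x y))) = true
            simpa using hr'
          have h3 := tr _ _ t hr
          have h4 := tr _ _ t hr'
          rw [h1] at h3
          rw [h2] at h4
          have h6 : ev F c' x t = false ∧ ev F c' y t = false := by
            have h7 := h4.symm
            rwa [Bool.or_eq_false_iff] at h7
          have h8 : ev F c' (strip w m c' x) t = true ∨ ev F c' (strip w m c' y) t = true := by
            have h7 := h3.symm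
            rwa [Bool.or_eq_true] at h7
          rcases h8 with h8 | h8
          · refine ⟨fun t => ev F c' (strip w m c' x) t && !(ev F c' x t), by simp, ?_⟩
            show (ev F c' (strip w m c' x) t && !(ev F c' x t)) = true
            rw [h8, h6.1]
            rfl
          · refine ⟨fun t => ev F c' (strip w m c' y) t && !(ev F c' y t), by simp, ?_⟩
            show (ev F c' (strip w m c' y) t && !(ev F c' y t)) = true
            rw [h8, h6.2]
            rfl
      · have hm : z ∈ margs w m c' x ∨ z ∈ margs w m c' y := by
          have h7 := margs_bin (w := w) (m := m) c' x y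
          rw [h7, Finset.mem_union] at hz
          exact hz
        have hzA : z ∈ A := hAc _ ha (margs_sub hz).1
        rcases hm with hm | hm
        · exact hAm x z (Or.inl rfl) (Finset.mem_insert_of_mem hm) (dA _ hzA)
        · exact hAm y z (Or.inr rfl) (Finset.mem_insert_of_mem hm) (dA _ hzA)
    · -- (B)
      intro D' χ hχ hD' hz
      have hzs : bF K (ev F c' (bin c' (strip w m c' x) (strip w m c' y))) * χ ∈ P.Zr :=
        hz _ (by rw [hga]; exact Finset.mem_insert_self _ _)
      have hst2 : ∀ u, (u = strip w m c' x ∨ u = strip w m c' y) → u ∈ T →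
          bF K (ev F c' u) * χ ∈ P.Zr := by
        intro u hu huT
        have e1 : bF K (ev F c' u) * (1 - bF K (ev F c' (bin c' (strip w m c' x)
            (strip w m c' y)))) ∈ P.Zr := by
          refine cov (M := N) (P.mul (dT _ huT) (dn (dT _ hsa)))
            [fun t => !(rsp (fun φ => F φ t) (bin c' (strip w m c' x) (strip w m c' y)))]
            ?_ ?_ ?_
          · intro b hb
            rw [List.mem_singleton] at hb
            subst hb
            exact ⟨hdegT _ hsa, hRs⟩
          · show D0 + D0 + 1 * N ≤ P.B
            omega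
          · intro t ht
            rw [Pi.mul_apply] at ht
            have h1 := nz ht
            have h2 := nz' ht
            refine ⟨_, List.mem_singleton_self _, ?_⟩
            show (!(rsp (fun φ => F φ t) (bin c' (strip w m c' x) (strip w m c' y)))) = true
            by_contra hr
            have hr' : rsp (fun φ => F φ t) (bin c' (strip w m c' x) (strip w m c' y)) = true := by
              simpa using hr
            have h3 := tr _ _ t hr'
            rw [h2] at h3
            have h7 := h3.symm
            rw [Bool.or_eq_false_iff] at h7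
            rcases hu with rfl | rfl
            · rw [h7.1] at h1; exact absurd h1 (by simp)
            · rw [h7.2] at h1; exact absurd h1 (by simp)
        have e2 := P.zmul (D := D0 + D0) (D' := D') (by omega)
          (P.mul (dT _ huT) (dn (dT _ hsa))) e1 hχ
        have e3 := P.zmul (D := D0 + D') (D' := D0) (by omega) (P.mul (dT _ hsa) hχ) hzs
          (dT _ huT)
        have e4 : bF K (ev F c' u) * χ = bF K (ev F c' u) * (1 - bF K (ev F c' (bin c'
            (strip w m c' x) (strip w m c' y)))) * χ + bF K (ev F c' (bin c' (strip w m c' x)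
            (strip w m c' y))) * χ * bF K (ev F c' u) := by ring
        rw [e4]
        exact Submodule.add_mem _ e2 e3
      have hmx : margs w m c' x ⊆ margs w m c' (bin c' x y) ∧
          margs w m c' y ⊆ margs w m c' (bin c' x y) := by
        have h7 := margs_bin (w := w) (m := m) c' x y
        rw [h7]
        exact ⟨Finset.subset_union_left, Finset.subset_union_right⟩
      have hzx : bF K (ev F c' x) * χ ∈ P.Zr := by
        refine hx.B D' χ hχ hD' fun z hzz => ?_
        rcases Finset.mem_insert.1 hzz with rfl | hzz
        · exact hst2 _ (Or.inl rfl) hsx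
        · exact hz z (by rw [hga]; exact Finset.mem_insert_of_mem (hmx.1 hzz))
      have hzy : bF K (ev F c' y) * χ ∈ P.Zr := by
        refine hy.B D' χ hχ hD' fun z hzz => ?_
        rcases Finset.mem_insert.1 hzz with rfl | hzz
        · exact hst2 _ (Or.inr rfl) hsy
        · exact hz z (by rw [hga]; exact Finset.mem_insert_of_mem (hmx.2 hzz))
      refine cover_zr (M := N) (P.mul (dA _ ha) hχ)
        [fun t => !(rsp (fun φ => F φ t) (bin c' x y)), ev F c' x, ev F c' y] ?_ ?_ ?_
      · intro b hb
        simp only [List.mem_cons, List.not_mem_nil, or_false] at hb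
        rcases hb with rfl | rfl | rfl
        · refine ⟨hdegA _ ha, ?_⟩
          rw [mul_comm]
          exact P.zmul (by omega) (hdegA _ ha) hRa (P.mul (dA _ ha) hχ)
        · refine ⟨P.up (dA _ hxA) (by omega), ?_⟩
          have e5 : bF K (ev F c' (bin c' x y)) * χ * bF K (ev F c' x) =
              bF K (ev F c' x) * χ * bF K (ev F c' (bin c' x y)) := by ring
          rw [e5]
          exact P.zmul (D := D0 + D') (D' := D0) (by omega) (P.mul (dA _ hxA) hχ) hzx (dA _ ha)
        · refine ⟨P.up (dA _ hyA) (by omega), ?_⟩
          have e5 : bF K (ev F c' (bin c' x y)) * χ * bF K (ev F c' y) =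
              bF K (ev F c' y) * χ * bF K (ev F c' (bin c' x y)) := by ring
          rw [e5]
          exact P.zmul (D := D0 + D') (D' := D0) (by omega) (P.mul (dA _ hyA) hχ) hzy (dA _ ha)
      · show D0 + D' + 3 * N ≤ P.B
        omega
      · intro t ht
        rw [Pi.mul_apply] at ht
        have h1 := nz ht
        by_cases hr : rsp (fun φ => F φ t) (bin c' x y) = true
        · have h3 := tr x y t hr
          rw [h1] at h3
          have h7 := h3.symm
          rw [Bool.or_eq_true] at h7
          rcases h7 with h7 | h7
          · exact ⟨ev F c' x, by simp, h7⟩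
          · exact ⟨ev F c' y, by simp, h7⟩
        · refine ⟨_, List.mem_cons_self, ?_⟩
          show (!(rsp (fun φ => F φ t) (bin c' x y))) = true
          simpa using hr

end Pool.Agent.Work.MP_c04246_lc.GT
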