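import Pool.Agent.Work.MP_c04246_lc.GT.SpO

/-!
MODULE SpT (size S-M). The truth table of `bin c x y`, if this formula and `x`, `y` are the suprema of their generators.

Proof. `G = bin c x y`, `E u = bF K (ev F c u)`. `strip G = bin c (strip x) (strip y) ∈ T` (`strip_bin`), and `strip x, strip y ∈ T` (`SC T`),
`R = bF K (fun y => !(rsp .. (strip G))) ∈ P.Zr`, of degree `≤ (p + 3) * D0` (`Evl.degR`).
(1) `E (strip x) * (1 - E (strip G)) ∈ Zr`: `cover_zr` with the event `R` only (where `R` vanishes, `ev F c (strip G) = ev F c (strip x) || ev F c (strip y)`);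
 `2 * D0 + (p + 3) * D0 ≤ P.B`. Similarly `E (strip G) * (1 - E (strip x)) * (1 - E (strip y)) ∈ Zr`.
(2) `E x * (1 - E G) ∈ Zr`: by (B) for `x` with `χ = 1 - E G` (`D + M ≤ P.B`): for `z ∈ margs x ⊆ margs G` (`margs_bin`) this is (A) for `G`; for
 `z = strip x`: `E z * (1 - E G) = E z * E (strip G) * (1 - E G) + E z * (1 - E (strip G)) * (1 - E G)`: (A) for `G` at `strip G` and (1), with `P.zmul`
 (degrees `≤ 3 * D`). Similarly `E y * (1 - E G) ∈ Zr`.
(3) `E G * ((1 - E x) * (1 - E y)) ∈ Zr`: by (B) for `G` with `χ = (1 - E x) * (1 - E y)` (`2 * D + M ≤ P.B`): for `z ∈ margs G`, say `z ∈ margs x`: (A) for `x`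
 and `P.zmul`. For `z = strip G`: insert `1 = (E (strip x) + (1 - E (strip x))) * (E (strip y) + (1 - E (strip y)))`: the terms containing
 `E (strip x) * (1 - E x)` or `E (strip y) * (1 - E y)` are in `Zr` by (A) for `x`, `y`; the remaining term by (1). (Or `cover_zr`.)
(4) The error of the truth table of `G` is, pointwise, `E x * (1 - E G) + (1 - E x) * E y * (1 - E G) + E G * (1 - E x) * (1 - E y)` (cases on `c` and on the
 Boolean values).
-/

set_option autoImplicit false
set_option linter.unusedSectionVars false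

namespace Pool.Agent.Work.MP_c04246_lc.GT

open Finset Fml H

variable {Y K : Type} [Field K] {p : ℕ} [Fact p.Prime] [CharP K p] {X : Type} [DecidableEq X]
  [Fintype X] {w m : ℕ}

private theorem bool1 (c a b : Bool) : (if (a == c) = true then (1 : K) else 0) *
    (1 - if ((if c = true then a || b else a && b) == c) = true then (1 : K) else 0) = 0 := by
  cases c <;> cases a <;> cases b <;> simp

private theorem bool2 (c a b : Bool) : (if (b == c) = true then (1 : K) else 0) *
    (1 - if ((if c = true then a || b else a && b) == c) = true then (1 : K) else 0) = 0 := by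
  cases c <;> cases a <;> cases b <;> simp

private theorem bool3 (c a b : Bool) :
    (if ((if c = true then a || b else a && b) == c) = true then (1 : K) else 0) *
      (1 - if (a == c) = true then (1 : K) else 0) *
      (1 - if (b == c) = true then (1 : K) else 0) = 0 := by
  cases c <;> cases a <;> cases b <;> simp

private theorem bool4 (c a b g : Bool) :
    (if (!(g == if c = true then a || b else a && b)) = true then (1 : K) else 0) =
      (if (a == c) = true then (1 : K) else 0) * (1 - if (g == c) = true then (1 : K) else 0) +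
      (if (b == c) = true then (1 : K) else 0) * (1 - if (g == c) = true then (1 : K) else 0) *
        (1 - if (a == c) = true then (1 : K) else 0) +
      (if (g == c) = true then (1 : K) else 0) *
        ((1 - if (a == c) = true then (1 : K) else 0) *
          (1 - if (b == c) = true then (1 : K) else 0)) := by
  cases c <;> cases a <;> cases b <;> cases g <;> simp

theorem rz_bin {P : PCI Y K} {F : Fml p X → Y → Bool} {T : Finset (Fml p X)} {D0 D M : ℕ}
    {c : Bool} {x y : Fml p X} (hT : Evl P T D0 F) (hTc : SC T) (hD : D0 ≤ D)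
    (hs : strip w m c (bin c x y) ∈ T) (hG : Sup P F w m M c (bin c x y))
    (hx : Sup P F w m M c x) (hy : Sup P F w m M c y)
    (hdG : bF K (F (bin c x y)) ∈ P.Deg D) (hdx : bF K (F x) ∈ P.Deg D)
    (hdy : bF K (F y) ∈ P.Deg D)
    (hdm : ∀ z ∈ gens w m c (bin c x y), bF K (F z) ∈ P.Deg D)
    (hB : 2 * D + M ≤ P.B) (hB' : 10 * ((p + 3) * D) ≤ P.B) :
    bF K (fun t => !(rsp (fun φ => F φ t) (bin c x y))) ∈ P.Zr := by
  classical
  have hDD : (p + 3) * D0 ≤ (p + 3) * D := Nat.mul_le_mul_left _ hD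
  have hD3 : 3 * D ≤ (p + 3) * D := Nat.mul_le_mul_right _ (by omega)
  have hMB := hB'
  obtain ⟨hsx, hsy, hsG⟩ : strip w m c x ∈ T ∧ strip w m c y ∈ T ∧
      bin c (strip w m c x) (strip w m c y) ∈ T := by
    rw [strip_bin] at hs
    exact ⟨(hTc.bin hs).1, (hTc.bin hs).2, hs⟩
  have hgx : strip w m c x ∈ gens w m c x := by
    rw [gens, mem_insert]
    exact Or.inl rfl
  have hgy : strip w m c y ∈ gens w m c y := by
    rw [gens, mem_insert]
    exact Or.inl rfl
  have hgG : strip w m c (bin c x y) ∈ gens w m c (bin c x y) := by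
    rw [gens, mem_insert]
    exact Or.inl rfl
  set ex := bF K (ev F c x) with hex
  set ey := bF K (ev F c y) with hey
  set eG := bF K (ev F c (bin c x y)) with heG
  set sx := bF K (ev F c (strip w m c x)) with hesx
  set sy := bF K (ev F c (strip w m c y)) with hesy
  set sG := bF K (ev F c (bin c (strip w m c x) (strip w m c y))) with hesG
  have dex : ex ∈ P.Deg D := deg_ev hdx
  have dey : ey ∈ P.Deg D := deg_ev hdy
  have deG : eG ∈ P.Deg D := deg_ev hdG
  have dsx : sx ∈ P.Deg D := P.up (deg_ev (hT.deg _ hsx)) hD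
  have dsy : sy ∈ P.Deg D := P.up (deg_ev (hT.deg _ hsy)) hD
  have dsG : sG ∈ P.Deg D := P.up (deg_ev (hT.deg _ hsG)) hD
  have c1 : ∀ {f : Y → K}, f ∈ P.Deg D → 1 - f ∈ P.Deg D := fun hf =>
    Submodule.sub_mem _ (P.one' D) hf
  have hR : bF K (fun t => !(rsp (fun φ => F φ t) (bin c (strip w m c x) (strip w m c y)))) ∈
      P.Deg ((p + 3) * D) := P.up (Evl.degR hTc hT.deg hsG) hDD
  have hRz := hT.rz _ hsG
  have key : ∀ {χ : Y → K}, χ ∈ P.Deg (3 * D) →
      (∀ t, rsp (fun φ => F φ t) (bin c (strip w m c x) (strip w m c y)) = true → χ t = 0) →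
      χ ∈ P.Zr := by
    intro χ h1 h2
    have h3 : χ = bF K (fun t => !(rsp (fun φ => F φ t)
        (bin c (strip w m c x) (strip w m c y)))) * χ := by
      funext t
      rw [Pi.mul_apply]
      rcases Bool.eq_false_or_eq_true (rsp (fun φ => F φ t)
        (bin c (strip w m c x) (strip w m c y))) with h4 | h4
      · rw [h2 t h4, mul_zero]
      · rw [bF_true (by rw [h4]; rfl), one_mul]
    rw [h3]
    exact P.zmul (by omega) hR hRz h1
  -- (1)
  have h1x : sx * (1 - sG) ∈ P.Zr := by
    refine key (P.up (P.mul dsx (c1 dsG)) (by omega)) fun t ht => ?_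
    simp only [rsp, beq_iff_eq] at ht
    simp only [hesx, hesG, Pi.mul_apply, Pi.sub_apply, Pi.one_apply, bF_apply, ev, ht]
    exact bool1 c _ _
  have h1y : sy * (1 - sG) ∈ P.Zr := by
    refine key (P.up (P.mul dsy (c1 dsG)) (by omega)) fun t ht => ?_
    simp only [rsp, beq_iff_eq] at ht
    simp only [hesy, hesG, Pi.mul_apply, Pi.sub_apply, Pi.one_apply, bF_apply, ev, ht]
    exact bool2 c _ _
  have h1G : sG * (1 - sx) * (1 - sy) ∈ P.Zr := by
    refine key (P.up (P.mul (P.mul dsG (c1 dsx)) (c1 dsy)) (by omega)) fun t ht => ?_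
    simp only [rsp, beq_iff_eq] at ht
    simp only [hesx, hesy, hesG, Pi.mul_apply, Pi.sub_apply, Pi.one_apply, bF_apply, ev, ht]
    exact bool3 c _ _
  have hGA : ∀ z, z ∈ gens w m c (bin c x y) → bF K (ev F c z) * (1 - eG) ∈ P.Zr := hG.A
  have hsGG : sG * (1 - eG) ∈ P.Zr := by
    have h2 := hGA _ hgG
    rw [strip_bin] at h2
    exact h2
  have hmx : ∀ z ∈ margs w m c x, z ∈ gens w m c (bin c x y) := fun z hz => by
    rw [gens, mem_insert, margs_bin, mem_union]
    exact Or.inr (Or.inl hz)
  have hmy : ∀ z ∈ margs w m c y, z ∈ gens w m c (bin c x y) := fun z hz => by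
    rw [gens, mem_insert, margs_bin, mem_union]
    exact Or.inr (Or.inr hz)
  -- (2)
  have h2x : ex * (1 - eG) ∈ P.Zr := by
    refine hx.B D (1 - eG) (c1 deG) (by omega) fun z hz => ?_
    rw [gens, mem_insert] at hz
    rcases hz with rfl | hz
    · have h3 : sx * (1 - eG) = sx * (1 - sG) * (1 - eG) + sG * (1 - eG) * sx := by ring
      rw [← hesx, h3]
      refine Submodule.add_mem _ (P.zmul (D := D + D) (D' := D) (by omega)
        (P.mul dsx (c1 dsG)) h1x (c1 deG)) (P.zmul (D := D + D) (D' := D) (by omega)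
        (P.mul dsG (c1 deG)) hsGG dsx)
    · exact hGA z (hmx z hz)
  have h2y : ey * (1 - eG) ∈ P.Zr := by
    refine hy.B D (1 - eG) (c1 deG) (by omega) fun z hz => ?_
    rw [gens, mem_insert] at hz
    rcases hz with rfl | hz
    · have h3 : sy * (1 - eG) = sy * (1 - sG) * (1 - eG) + sG * (1 - eG) * sy := by ring
      rw [← hesy, h3]
      refine Submodule.add_mem _ (P.zmul (D := D + D) (D' := D) (by omega)
        (P.mul dsy (c1 dsG)) h1y (c1 deG)) (P.zmul (D := D + D) (D' := D) (by omega)
        (P.mul dsG (c1 deG)) hsGG dsy)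
    · exact hGA z (hmy z hz)
  -- (3)
  have hAx : sx * (1 - ex) ∈ P.Zr := hx.A _ hgx
  have hAy : sy * (1 - ey) ∈ P.Zr := hy.A _ hgy
  have h3G : eG * ((1 - ex) * (1 - ey)) ∈ P.Zr := by
    refine hG.B (D + D) ((1 - ex) * (1 - ey)) (P.mul (c1 dex) (c1 dey)) (by omega) fun z hz => ?_
    have hz0 := hz
    rw [gens, mem_insert, margs_bin, mem_union, strip_bin] at hz
    rcases hz with rfl | hz | hz
    · have h3 : sG * ((1 - ex) * (1 - ey)) = sx * (1 - ex) * (sG * (1 - ey)) +
          sy * (1 - ey) * ((1 - sx) * (sG * (1 - ex))) +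
          sG * (1 - sx) * (1 - sy) * ((1 - ex) * (1 - ey)) := by ring
      rw [← hesG, h3]
      refine Submodule.add_mem _ (Submodule.add_mem _ ?_ ?_) ?_
      · exact P.zmul (D := D + D) (D' := D + D) (by omega) (P.mul dsx (c1 dex)) hAx
          (P.mul dsG (c1 dey))
      · exact P.zmul (D := D + D) (D' := D + (D + D)) (by omega) (P.mul dsy (c1 dey)) hAy
          (P.mul (c1 dsx) (P.mul dsG (c1 dex)))
      · exact P.zmul (D := D + D + D) (D' := D + D) (by omega)
          (P.mul (P.mul dsG (c1 dsx)) (c1 dsy)) h1G (P.mul (c1 dex) (c1 dey))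
    · have h3 : bF K (ev F c z) * ((1 - ex) * (1 - ey)) =
          bF K (ev F c z) * (1 - ex) * (1 - ey) := by ring
      rw [h3]
      refine P.zmul (D := D + D) (D' := D) (by omega) (P.mul (deg_ev (hdm z hz0)) (c1 dex))
        (hx.A z ?_) (c1 dey)
      rw [gens, mem_insert]
      exact Or.inr hz
    · have h3 : bF K (ev F c z) * ((1 - ex) * (1 - ey)) =
          bF K (ev F c z) * (1 - ey) * (1 - ex) := by ring
      rw [h3]
      refine P.zmul (D := D + D) (D' := D) (by omega) (P.mul (deg_ev (hdm z hz0)) (c1 dey))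
        (hy.A z ?_) (c1 dex)
      rw [gens, mem_insert]
      exact Or.inr hz
  -- (4)
  have h4 : bF K (fun t => !(rsp (fun φ => F φ t) (bin c x y))) =
      ex * (1 - eG) + ey * (1 - eG) * (1 - ex) + eG * ((1 - ex) * (1 - ey)) := by
    funext t
    simp only [rsp, hex, hey, heG, Pi.add_apply, Pi.mul_apply, Pi.sub_apply, Pi.one_apply,
      bF_apply, ev]
    exact bool4 c _ _ _
  rw [h4]
  exact Submodule.add_mem _ (Submodule.add_mem _ h2x (P.zmul (D := D + D) (D' := D) (by omega)
    (P.mul dey (c1 deG)) h2y (c1 dex))) h3G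

end Pool.Agent.Work.MP_c04246_lc.GT
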