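import Pool.Agent.Work.MP_c04246_lc.GT.SyA
import Pool.Agent.Work.MP_c04246_lc.G.Syn

/-!
MODULE SyC (size S-M). Syntactic facts on `hblk`, `hmod`, `Hvy`, for a predicate `L` which is closed under subformulas.

Proof. As for `blk` in G/Syn.lean. `hblk_L`: cases on `a`; for `neg a` induction (`a` satisfies `L`). `hblk_none_le`: `hblk L (some c) a ≤ hblk L none a ≤ 1 + hblk L (some c) a`, cases on `a`.
`hblk_subs`: induction on `a`; if `L a` then `L b` and `hblk_L`. `hblk_args`: first for all formulas `a` and `x ∈ args c a`:
`hblk L none x ≤ hblk L (some c) a`: induction on `a`. If `a = bin c a1 a2` and `L a`, then `L x` (`args c a ⊆ subs a`) and `hblk_L`; if not `L a`, then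
`hblk L (some c) a = max ..` and induction. If `a` is no `bin c` then `x = a` and `hblk L (some c) a = hblk L none a`. Finally, if not
`L (bin c a b)` then `hblk L none (bin c a b) = 1 + max (hblk L (some c) a) (hblk L (some c) b)`.
`hmod_subs`: induction. `Hvy_subs`: `hblk_subs`, `hmod_subs`, `subs_trans`.
-/

set_option autoImplicit false
set_option linter.unusedSectionVars false

namespace Pool.Agent.Work.MP_c04246_lc.GT

open Finset Fml H

variable {p : ℕ} {V : Type} {w m : ℕ} {L : Fml p V → Prop}

theorem hblk_L (hL : ∀ a b, L a → b ∈ subs a → L b) {a : Fml p V} (h : L a)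
    (r : Option Bool) : hblk L r a = 0 := by
  classical
  induction a generalizing r with
  | var x => simp only [hblk]
  | cst x => simp only [hblk]
  | neg a ih =>
    simp only [hblk]
    refine ih (hL _ _ h ?_) none
    simp only [subs]
    exact mem_insert_of_mem (R.self_mem_subs a)
  | bin c d e _ _ => simp only [hblk, if_pos h]
  | mod i k f _ => simp only [hblk, if_pos h]

private lemma hb_bin {c : Bool} {a b : Fml p V} (h : ¬ L (bin c a b)) (r : Option Bool) :
    hblk L r (bin c a b) =
      (if r = some c then 0 else 1) + max (hblk L (some c) a) (hblk L (some c) b) := by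
  simp only [hblk, if_neg h]

private lemma hb_bin_none {c : Bool} {a b : Fml p V} (h : ¬ L (bin c a b)) :
    hblk L none (bin c a b) = 1 + max (hblk L (some c) a) (hblk L (some c) b) := by
  rw [hb_bin h, if_neg (by simp)]

private lemma hb_none_le (c : Bool) (a : Fml p V) : hblk L none a ≤ 1 + hblk L (some c) a := by
  cases a with
  | var x => exact Nat.le_add_left _ _
  | cst x => exact Nat.le_add_left _ _
  | neg a => exact Nat.le_add_left _ _
  | bin c' d e =>
    by_cases h : L (bin c' d e)
    · simp only [hblk, if_pos h]
      exact Nat.zero_le _
    · rw [hb_bin_none h, hb_bin h]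
      split_ifs <;> omega
  | mod i k f =>
    simp only [hblk]
    exact Nat.le_add_left _ _

theorem hblk_subs (hL : ∀ a b, L a → b ∈ subs a → L b) {a b : Fml p V} (h : b ∈ subs a) :
    hblk L none b ≤ hblk L none a := by
  classical
  induction a with
  | var x =>
    simp only [subs, mem_singleton] at h
    subst h
    exact le_refl _
  | cst x =>
    simp only [subs, mem_singleton] at h
    subst h
    exact le_refl _
  | neg a ih =>
    simp only [subs, mem_insert] at h
    rcases h with h | h
    · subst h
      exact le_refl _
    · exact (ih h).trans (by simp only [hblk]; exact le_refl _)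
  | bin c d e ihd ihe =>
    by_cases hLa : L (bin c d e)
    · rw [hblk_L hL (hL _ _ hLa h)]
      exact Nat.zero_le _
    · simp only [subs, mem_insert, mem_union] at h
      have h0 := hb_bin_none hLa
      rcases h with h | h | h
      · subst h
        exact le_refl _
      · rw [h0]
        have h1 := ihd h
        have h2 := hb_none_le (L := L) c d
        have h3 := le_max_left (hblk L (some c) d) (hblk L (some c) e)
        omega
      · rw [h0]
        have h1 := ihe h
        have h2 := hb_none_le (L := L) c e
        have h3 := le_max_right (hblk L (some c) d) (hblk L (some c) e)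
        omega
  | mod i k f ih =>
    by_cases hLa : L (mod i k f)
    · rw [hblk_L hL (hL _ _ hLa h)]
      exact Nat.zero_le _
    · simp only [subs, mem_insert, mem_biUnion, mem_univ, true_and] at h
      rcases h with h | ⟨j, hj⟩
      · subst h
        exact le_refl _
      · refine (ih j hj).trans ?_
        simp only [hblk, if_neg hLa]
        exact le_sup (f := fun j => hblk L none (f j)) (mem_univ j)

theorem hblk_bin {c : Bool} {a b : Fml p V} (h : ¬ L (bin c a b)) :
    1 ≤ hblk L none (bin c a b) := by
  rw [hb_bin_none h]
  exact Nat.le_add_right _ _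

private lemma hb_args (hL : ∀ a b, L a → b ∈ subs a → L b) {c : Bool} {x : Fml p V}
    (a : Fml p V) (h : x ∈ args c a) : hblk L none x ≤ hblk L (some c) a := by
  classical
  induction a with
  | var y =>
    simp only [args, mem_singleton] at h
    subst h
    exact le_refl _
  | cst y =>
    simp only [args, mem_singleton] at h
    subst h
    exact le_refl _
  | neg a ih =>
    simp only [args, mem_singleton] at h
    subst h
    exact le_refl _
  | bin c' d e ihd ihe =>
    by_cases hLa : L (bin c' d e)
    · rw [hblk_L hL (hL _ _ hLa (R.args_sub c _ h))]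
      exact Nat.zero_le _
    · by_cases hc : c' = c
      · subst hc
        rw [R.args_bin, mem_union] at h
        rw [hb_bin hLa, if_pos rfl, Nat.zero_add]
        rcases h with h | h
        · exact (ihd h).trans (le_max_left _ _)
        · exact (ihe h).trans (le_max_right _ _)
      · rw [R.args_other] at h
        · rw [mem_singleton] at h
          subst h
          have hcc : ¬ (some c = some c') := fun h' => hc (Option.some.inj h').symm
          rw [hb_bin_none hLa, hb_bin hLa, if_neg hcc]
        · intro b b' hb
          injection hb with h1
          exact hc h1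
  | mod i k f ih =>
    simp only [args, mem_singleton] at h
    subst h
    simp only [hblk]
    exact le_refl _

theorem hblk_args (hL : ∀ a b, L a → b ∈ subs a → L b) {c : Bool} {a b x : Fml p V}
    (h : ¬ L (bin c a b)) (hx : x ∈ margs w m c (bin c a b)) :
    hblk L none x + 1 ≤ hblk L none (bin c a b) := by
  classical
  have hx' : x ∈ args c (bin c a b) := by
    unfold margs at hx
    exact (mem_filter.1 hx).1
  rw [R.args_bin, mem_union] at hx'
  rw [hb_bin_none h]
  rcases hx' with hx' | hx'
  · have h1 := hb_args hL a hx'
    have h3 := le_max_left (hblk L (some c) a) (hblk L (some c) b)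
    omega
  · have h1 := hb_args hL b hx'
    have h3 := le_max_right (hblk L (some c) a) (hblk L (some c) b)
    omega

private lemma hmod_L (hL : ∀ a b, L a → b ∈ subs a → L b) {a : Fml p V} (h : L a) :
    hmod L a = 0 := by
  classical
  induction a with
  | var x => simp only [hmod]
  | cst x => simp only [hmod]
  | neg a ih =>
    simp only [hmod]
    refine ih (hL _ _ h ?_)
    simp only [subs]
    exact mem_insert_of_mem (R.self_mem_subs a)
  | bin c d e _ _ => simp only [hmod, if_pos h]
  | mod i k f _ => simp only [hmod, if_pos h]

theorem hmod_subs (hL : ∀ a b, L a → b ∈ subs a → L b) {a b : Fml p V} (h : b ∈ subs a) :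
    hmod L b ≤ hmod L a := by
  classical
  induction a with
  | var x =>
    simp only [subs, mem_singleton] at h
    subst h
    exact le_refl _
  | cst x =>
    simp only [subs, mem_singleton] at h
    subst h
    exact le_refl _
  | neg a ih =>
    simp only [subs, mem_insert] at h
    rcases h with h | h
    · subst h
      exact le_refl _
    · exact (ih h).trans (by simp only [hmod]; exact le_refl _)
  | bin c d e ihd ihe =>
    by_cases hLa : L (bin c d e)
    · rw [hmod_L hL (hL _ _ hLa h)]
      exact Nat.zero_le _
    · simp only [subs, mem_insert, mem_union] at h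
      have h0 : hmod L (bin c d e) = max (hmod L d) (hmod L e) := by
        simp only [hmod, if_neg hLa]
      rcases h with h | h | h
      · subst h
        exact le_refl _
      · rw [h0]
        exact (ihd h).trans (le_max_left _ _)
      · rw [h0]
        exact (ihe h).trans (le_max_right _ _)
  | mod i k f ih =>
    by_cases hLa : L (mod i k f)
    · rw [hmod_L hL (hL _ _ hLa h)]
      exact Nat.zero_le _
    · simp only [subs, mem_insert, mem_biUnion, mem_univ, true_and] at h
      rcases h with h | ⟨j, hj⟩
      · subst h
        exact le_refl _
      · refine (ih j hj).trans ?_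
        simp only [hmod, if_neg hLa]
        exact (le_sup (f := fun j => hmod L (f j)) (mem_univ j)).trans (Nat.le_add_left _ _)

theorem Hvy_subs (hL : ∀ a b, L a → b ∈ subs a → L b) {Q : Finset (Fml p V)} {s b e : ℕ}
    {a x : Fml p V} (h : Hvy w m L Q s b e a) (hx : x ∈ subs a) : Hvy w m L Q s b e x :=
  ⟨(hblk_subs hL hx).trans h.1, (hmod_subs hL hx).trans h.2.1,
    fun c y z hyz hn => h.2.2 c y z (R.subs_trans hyz hx) hn⟩

end Pool.Agent.Work.MP_c04246_lc.GT
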