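import Pool.Agent.Work.MP_c04246_lc.GT.Stp
import Pool.Agent.Work.MP_c04246_lc.GT.SpL
import Pool.Agent.Work.MP_c04246_lc.GT.SpT
import Pool.Agent.Work.MP_c04246_lc.GT.SyC

/-!
MODULE Itr (size M-L). All levels. Compare G/Itr.lean.

Proof. `E = p ^ e ≥ 1`, `d j = dl E U n s D0 j`, nondecreasing in `j`, `D0 ≤ d 0`, `A j = S.filter (hblk L none · ≤ j)`, closed under subformulas by
`hblk_subs`; `S.filter L ⊆ A 0` (`hblk_L`). Let `S0 = S.filter L`, closed under subformulas by `hLs`.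
(0) `Sta P w m T S0 D0 D0 F0`: `evT` and degrees from `hF0`; `sup` by `sup_light` for `A = S0` (`10 * ((p + 3) * D0) ≤ P.B`, as `D0 ≤ d 0 ≤ d b`); `rz` from `hF0`.
(1) `step` with `A = S0`, `A' = A 0`, `Q = ∅`, `s = 0`, `t = 1`, `mm = 0`: `bin c a b ∈ A 0` satisfies `L` (`hblk_bin`), so there are no new ones. The new degree is
 `E * ((1 + 0 + 1) * D0) = d 0`.
(2) Induction on `j ≤ b`: there are `P'`, `F`, `c1 ≤ j * c` with `Ext P P' c1`, `Sta P' w m T (A j) D0 (d j) F`, `F = F0` on `S0 ∪ T`. Step: `step` with `A = A j`,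
 `A' = A (j + 1)`, `t = U * d j / n + 1`, `mm = 2 * Q.card * (Nat.log 2 S.card + 1) / t + 1` (`Nat.lt_div_mul_add`), a new `bin c a b` does not satisfy `L`
 (otherwise it is in `A 0 ⊆ A j`), `margs ⊆ A j` by `hblk_args` and `margs_sub`, the number of arguments outside `Q` by `Hvy`. The new degree is
 `E * ((t + s + 1) * d j) = d (j + 1)`, the cost `mm * d j ≤ c` (`hc`). `Ext.trans`.
 `hB` for `P'`: `P'.B = P.B - c1`, `c1 + mm * d j ≤ (j + 1) * c ≤ b * c`.
(3) `A b = S` by `Hvy`. `Evl P' (S ∪ T) (d b) F`: degrees: `Sta.deg`, `evT`, `D0 ≤ d b`. Errors: for `a ∈ T` from `evT`; for `a ∈ S` which is not a `bin`: `Sta.rz`; for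
 `bin c x y ∈ S`: `rz_bin` with `M = 10 * ((p + 3) * d b)`, `D = d b`, where `Sup` for `x` (and `y`) is `Sta.sup` if `x` is a `bin c`, and
 `Sup.other` otherwise (`D0 + d b ≤ P'.B`); `2 * d b + M ≤ P'.B` as `20 * ((p + 3) * d b) ≤ P'.B`.
-/

set_option autoImplicit false
set_option linter.unusedSectionVars false

namespace Pool.Agent.Work.MP_c04246_lc.GT

open Finset Fml H

variable {Y K : Type} [Field K] {p : ℕ} [Fact p.Prime] [CharP K p] {X : Type} [DecidableEq X]
  [Fintype X] {w m : ℕ}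

private theorem itr_mono {E U n s D0 : ℕ} (hE : 1 ≤ E) (j : ℕ) :
    dl E U n s D0 j ≤ dl E U n s D0 (j + 1) := by
  show dl E U n s D0 j ≤ E * ((U * dl E U n s D0 j / n + 1 + s + 1) * dl E U n s D0 j)
  calc dl E U n s D0 j ≤ (U * dl E U n s D0 j / n + 1 + s + 1) * dl E U n s D0 j :=
        Nat.le_mul_of_pos_left _ (Nat.succ_pos _)
    _ ≤ _ := Nat.le_mul_of_pos_left _ hE

private theorem itr_le {E U n s D0 : ℕ} (hE : 1 ≤ E) {i j : ℕ} (h : i ≤ j) :
    dl E U n s D0 i ≤ dl E U n s D0 j :=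
  monotone_nat_of_le_succ (f := fun j => dl E U n s D0 j) (fun j => itr_mono hE j) h

private theorem itr_D0 {E U n s D0 : ℕ} (hE : 1 ≤ E) (j : ℕ) : D0 ≤ dl E U n s D0 j := by
  refine le_trans ?_ (itr_le hE (Nat.zero_le j))
  show D0 ≤ E * (2 * D0)
  calc D0 ≤ 2 * D0 := by omega
    _ ≤ _ := Nat.le_mul_of_pos_left _ hE

open Classical in
/-- the formulas of level at most `j` -/
private noncomputable def Al (L : Fml p X → Prop) (S : Finset (Fml p X)) (j : ℕ) :
    Finset (Fml p X) := S.filter fun a => hblk L none a ≤ j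

omit [Fact p.Prime] [DecidableEq X] [Fintype X] in
private theorem mem_Al {L : Fml p X → Prop} {S : Finset (Fml p X)} {j : ℕ} {a : Fml p X} :
    a ∈ Al L S j ↔ a ∈ S ∧ hblk L none a ≤ j := by
  unfold Al
  rw [mem_filter]

open Classical in
theorem levels {P : PCI Y K} (h1 : (1 : Y → K) ∉ P.Zr) {L : Fml p X → Prop}
    {S T Q : Finset (Fml p X)} {D0 s b e : ℕ} {F0 : Fml p X → Y → Bool} (hS : SC S) (hT : SC T)
    (hTL : ∀ a ∈ T, L a) (hLs : ∀ a b, L a → b ∈ subs a → L b)
    (hst : ∀ a ∈ S, ∀ c, strip w m c a ∈ T) (hF0 : Evl P (S.filter L ∪ T) D0 F0)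
    (hvy : ∀ a ∈ S, Hvy w m L Q s b e a) (U n c : ℕ)
    (hc : ∀ j < b, (2 * Q.card * (Nat.log 2 S.card + 1) / (U * dl (p ^ e) U n s D0 j / n + 1) + 1) *
      dl (p ^ e) U n s D0 j ≤ c)
    (hB : b * c + 20 * ((p + 3) * dl (p ^ e) U n s D0 b) ≤ P.B) :
    ∃ (P' : PCI Y K) (F : Fml p X → Y → Bool) (c1 : ℕ), c1 ≤ b * c ∧ Ext P P' c1 ∧
      (1 : Y → K) ∉ P'.Zr ∧ Evl P' (S ∪ T) (dl (p ^ e) U n s D0 b) F ∧
      ∀ a ∈ S.filter L ∪ T, F a = F0 a := by
  have hp1 : 1 ≤ p := (Fact.out : p.Prime).one_lt.le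
  have hE : 1 ≤ p ^ e := Nat.one_le_pow _ _ hp1
  have hD0b : D0 ≤ dl (p ^ e) U n s D0 b := itr_D0 hE b
  have hLS : SC (S.filter L) := by
    intro a ha x hx
    rw [mem_filter] at ha ⊢
    exact ⟨hS a ha.1 hx, hLs a x ha.2 hx⟩
  have hAS : ∀ j, SC (Al L S j) := by
    intro j a ha x hx
    rw [mem_Al] at ha ⊢
    exact ⟨hS a ha.1 hx, (hblk_subs hLs hx).trans ha.2⟩
  have hLA : ∀ j, ∀ a ∈ S, L a → a ∈ Al L S j := by
    intro j a ha hL
    rw [mem_Al, hblk_L hLs hL]
    exact ⟨ha, Nat.zero_le _⟩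
  have hLA' : ∀ j, S.filter L ∪ T ⊆ Al L S j ∪ T := by
    intro j a ha
    rw [mem_union] at ha ⊢
    rcases ha with h | h
    · rw [mem_filter] at h
      exact Or.inl (hLA j a h.1 h.2)
    · exact Or.inr h
  -- the light formulas
  have hst0 : Sta P w m T (S.filter L) D0 D0 F0 := by
    have hEA : Evl P (S.filter L) D0 F0 := ⟨fun a ha => hF0.deg a (mem_union_left _ ha),
      fun a ha => hF0.rz a (mem_union_left _ ha)⟩
    have hET : Evl P T D0 F0 := ⟨fun a ha => hF0.deg a (mem_union_right _ ha),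
      fun a ha => hF0.rz a (mem_union_right _ ha)⟩
    have hBl : 10 * ((p + 3) * D0) ≤ P.B := by
      have := Nat.mul_le_mul_left (p + 3) hD0b
      omega
    exact ⟨h1, hET, hEA.deg, fun c' x y hxy => sup_light hET hT hEA hLS
      (fun a ha => hst a (mem_filter.1 ha).1) hBl _ hxy c', fun a ha _ => hEA.rz a ha⟩
  -- level 0
  have hlev0 : ∃ (P' : PCI Y K) (F : Fml p X → Y → Bool) (c1 : ℕ), c1 ≤ 0 * c ∧ Ext P P' c1 ∧
      Sta P' w m T (Al L S 0) D0 (dl (p ^ e) U n s D0 0) F ∧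
      ∀ a ∈ S.filter L ∪ T, F a = F0 a := by
    have h20 : (1 + 0 + 1) * D0 = 2 * D0 := by ring
    obtain ⟨P', F, hext, hSta, hF⟩ := step (A' := Al L S 0) (Q := ∅) hst0 hT hTL hLS (hAS 0)
      (fun a ha => by
        rw [mem_filter] at ha
        exact hLA 0 a ha.1 ha.2)
      (fun a ha => hst a (mem_Al.1 ha).1)
      (fun a ha hL => mem_filter.2 ⟨(mem_Al.1 ha).1, hL⟩) 0
      (fun c' x y hxy hn => by
        exfalso
        rw [mem_Al] at hxy
        by_cases hL : L (bin c' x y)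
        · exact hn (mem_filter.2 ⟨hxy.1, hL⟩)
        · have := hblk_bin hL
          omega) e (fun a ha => (hvy a (mem_Al.1 ha).1).2.1) 1 0 le_rfl le_rfl
      (by simp) (by
        rw [h20]
        have h3 : p ^ e * (2 * D0) = dl (p ^ e) U n s D0 0 := rfl
        rw [h3]
        have h4 := Nat.mul_le_mul_left (p + 3) (itr_le (U := U) (n := n) (s := s) (D0 := D0) hE
          (Nat.zero_le b))
        omega)
    refine ⟨P', F, 0 * D0, by simp, hext, ?_, hF⟩
    rw [h20] at hSta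
    exact hSta
  have hlev : ∀ j, j ≤ b → ∃ (P' : PCI Y K) (F : Fml p X → Y → Bool) (c1 : ℕ), c1 ≤ j * c ∧
      Ext P P' c1 ∧ Sta P' w m T (Al L S j) D0 (dl (p ^ e) U n s D0 j) F ∧
      ∀ a ∈ S.filter L ∪ T, F a = F0 a := by
    intro j
    induction j with
    | zero => exact fun _ => hlev0
    | succ j ih =>
      intro hj
      obtain ⟨P', F, c1, hc1, hext, hSta, hF⟩ := ih (by omega)
      obtain ⟨D, hD⟩ : ∃ D, D = dl (p ^ e) U n s D0 j := ⟨_, rfl⟩
      obtain ⟨t, ht⟩ : ∃ t, t = U * D / n + 1 := ⟨_, rfl⟩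
      obtain ⟨mm, hmm⟩ : ∃ mm, mm = 2 * Q.card * (Nat.log 2 S.card + 1) / t + 1 := ⟨_, rfl⟩
      have hcj : mm * D ≤ c := by
        have := hc j (by omega)
        rw [← hD, ← ht, ← hmm] at this
        exact this
      have hDn : dl (p ^ e) U n s D0 (j + 1) = p ^ e * ((t + s + 1) * D) := by
        rw [ht, hD]
        rfl
      have ht1 : 1 ≤ t := by
        rw [ht]
        exact Nat.succ_pos _
      rw [← hD] at hSta
      have hD0j : D0 ≤ D := by
        rw [hD]
        exact itr_D0 hE j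
      obtain ⟨P'', F', hext', hSta', hF'⟩ := step (A' := Al L S (j + 1)) (Q := Q) hSta hT hTL
        (hAS j) (hAS (j + 1))
        (fun a ha => by
          rw [mem_Al] at ha ⊢
          exact ⟨ha.1, by omega⟩)
        (fun a ha => hst a (mem_Al.1 ha).1)
        (fun a ha hL => hLA j a (mem_Al.1 ha).1 hL) s
        (fun c' x y hxy hn => by
          rw [mem_Al] at hxy
          have hL : ¬ L (bin c' x y) := fun hL => hn (hLA j _ hxy.1 hL)
          refine ⟨fun z hz => ?_, (hvy _ hxy.1).2.2 c' x y (subs_self _) hL⟩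
          rw [mem_Al]
          have h5 := hblk_args hLs hL hz
          exact ⟨hS _ hxy.1 (margs_sub hz).1, by omega⟩)
        e (fun a ha => (hvy a (mem_Al.1 ha).1).2.1) t mm hD0j ht1
        (by
          have hcard : (Al L S (j + 1)).card ≤ S.card := by
            unfold Al
            exact card_filter_le _ _
          have hlog := Nat.log_mono_right (b := 2) hcard
          have h5 : 2 * Q.card * (Nat.log 2 (Al L S (j + 1)).card + 1) ≤
              2 * Q.card * (Nat.log 2 S.card + 1) := Nat.mul_le_mul_left _ (by omega)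
          refine h5.trans ?_
          rw [hmm]
          have h6 := Nat.lt_div_mul_add (a := 2 * Q.card * (Nat.log 2 S.card + 1)) ht1
          rw [add_mul, one_mul]
          exact h6.le)
        (by
          rw [← hDn]
          have h4 := Nat.mul_le_mul_left (p + 3) (itr_le (U := U) (n := n) (s := s) (D0 := D0) hE hj)
          have h5 : (j + 1) * c ≤ b * c := Nat.mul_le_mul_right c hj
          have h6 : (j + 1) * c = j * c + c := by ring
          have h7 := hext.hB
          omega)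
      refine ⟨P'', F', c1 + mm * D, ?_, hext.trans hext', ?_, fun a ha => ?_⟩
      · have h6 : (j + 1) * c = j * c + c := by ring
        omega
      · rw [hDn]
        exact hSta'
      · rw [hF' a (hLA' j ha)]
        exact hF a ha
  obtain ⟨P', F, c1, hc1, hext, hSta, hF⟩ := hlev b le_rfl
  have hAb : Al L S b = S := by
    ext a
    rw [mem_Al]
    exact ⟨fun h => h.1, fun h => ⟨h, (hvy a h).1⟩⟩
  rw [hAb] at hSta
  have hPB := hext.hB
  have h20 : 20 * ((p + 3) * dl (p ^ e) U n s D0 b) ≤ P'.B := by omega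
  obtain ⟨D, hD⟩ : ∃ D, D = dl (p ^ e) U n s D0 b := ⟨_, rfl⟩
  rw [← hD] at hSta hD0b h20 ⊢
  have hp3 : D ≤ (p + 3) * D := Nat.le_mul_of_pos_left _ (by omega)
  refine ⟨P', F, c1, hc1, hext, hSta.one, ⟨fun a ha => ?_, fun a ha => ?_⟩, hF⟩
  · rw [mem_union] at ha
    rcases ha with h | h
    · exact hSta.deg a h
    · exact P'.up (hSta.evT.deg a h) hD0b
  · rw [mem_union] at ha
    rcases ha with h | h
    · by_cases hbin : ∃ c' x y, a = bin c' x y
      · obtain ⟨c', x, y, rfl⟩ := hbin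
        have hx : x ∈ S := (hS.bin h).1
        have hy : y ∈ S := (hS.bin h).2
        have hsup : ∀ z ∈ S, Sup P' F w m (10 * ((p + 3) * D)) c' z := by
          intro z hz
          by_cases hz' : ∃ x' y', z = bin c' x' y'
          · obtain ⟨x', y', rfl⟩ := hz'
            exact hSta.sup c' x' y' hz
          · push Not at hz'
            exact Sup.other hz' hSta.evT (hst z hz c') (hSta.deg z hz) (by omega)
        refine rz_bin hSta.evT hT hD0b (hst _ h c') (hsup _ h) (hsup _ hx) (hsup _ hy)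
          (hSta.deg _ h) (hSta.deg _ hx) (hSta.deg _ hy) (fun z hz => ?_) (by omega) (by omega)
        unfold gens at hz
        rw [mem_insert] at hz
        rcases hz with rfl | hz
        · exact P'.up (hSta.evT.deg _ (hst _ h c')) hD0b
        · exact hSta.deg z (hS _ h (margs_sub hz).1)
      · push Not at hbin
        exact hSta.rz a h hbin
    · exact hSta.evT.rz a h

end Pool.Agent.Work.MP_c04246_lc.GT
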