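import Pool.Agent.Work.MP_c04246_lc.GT.Ax

/-!
MODULE Kil (size M). Killing: after adding at most `mm` equations `f i = 1` every gate `g` (a set of indices) contains an `i` with
`f i = 1`, or all but `t` of its `f i` are `0`, modulo the new ideal. PORT of G/Kil.lean (theorem `kill`, with `1 - f i` in place of `f i`).

Proof. Call `g ∈ Gs` bad for `P'` if no `i ∈ g` has `1 - bF K (f i) ∈ P'.Zr` and more than `t` of the `i ∈ g` have `bF K (f i) ∉ P'.Zr`. By induction on
`s ≤ mm` there is `P'` with `Ext P P' (s * δ)`, `1 ∉ P'.Zr` and `(bad P').card * I.card ^ s ≤ Gs.card * (I.card - t) ^ s` (if `I.card < t` no gate is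
bad for `P`; use `exists_ext` with `θ = true` to get `Ext P P' (mm * δ)`).
Step: if no gate is bad for `P'`, take `exists_ext` with `θ = fun _ => true`, `c = δ` (the ideal does not change, `B` decreases). Otherwise, by double
counting, some `i ∈ I` with `bF K (f i) ∉ P'.Zr` is in at least `t * (bad P').card / I.card` bad gates (`kstep` of G/Kil.lean). Let `P''` be given by
`exists_ext (f i)` (`bF K (f i) ∈ P'.Deg δ`, `δ ≤ P'.B`). Then `1 ∉ P''.Zr` (`bF K (f i) * 1 ∉ P'.Zr`), `1 - bF K (f i) ∈ P''.Zr` as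
`bF K (f i) * (1 - bF K (f i)) = 0`; `g ∈ P'.Zr ∩ Deg δ` is in `P''.Zr` (`Ext.zr`, `2 * δ ≤ P'.B`), so a gate which is bad for `P''` is bad for `P'`
and does not contain `i`. End: `Gs.card * (1 - t / I.card) ^ mm < 1` as in `kfin` of G/Kil.lean (copy it), so no gate is bad.
-/

set_option autoImplicit false
set_option linter.unusedSectionVars false

namespace Pool.Agent.Work.MP_c04246_lc.GT

open Finset Fml H

variable {Y K : Type} [Field K] {ι : Type} [DecidableEq ι]

open Classical in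
private noncomputable def kbad (P' : PCI Y K) (f : ι → Y → Bool) (Gs : Finset (Finset ι)) (t : ℕ) :
    Finset (Finset ι) :=
  Gs.filter fun g => (∀ i ∈ g, 1 - bF K (f i) ∉ P'.Zr) ∧ t < (g.filter fun i => bF K (f i) ∉ P'.Zr).card

open Classical in
private lemma kstep {P' : PCI Y K} {δ : ℕ} (I : Finset ι) (f : ι → Y → Bool)
    (hf : ∀ i ∈ I, bF K (f i) ∈ P'.Deg δ) (Gs : Finset (Finset ι))
    (hG : ∀ g ∈ Gs, g ⊆ I) (t : ℕ) (ht : 1 ≤ t) (hD : 2 * δ ≤ P'.B)
    (hb : (kbad P' f Gs t).Nonempty) :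
    ∃ P'' : PCI Y K, Ext P' P'' δ ∧
      (1 : Y → K) ∉ P''.Zr ∧
      (kbad P'' f Gs t).card * I.card + t * (kbad P' f Gs t).card ≤
        (kbad P' f Gs t).card * I.card := by
  set b := (kbad P' f Gs t).card with hbdef
  have hbpos : 0 < b := Finset.card_pos.2 hb
  have hI : I.Nonempty := by
    obtain ⟨g, hg⟩ := hb
    simp only [kbad, mem_filter] at hg
    obtain ⟨hgG, -, hgt⟩ := hg
    have : (g.filter fun i => bF K (f i) ∉ P'.Zr).Nonempty := by
      rw [← Finset.card_pos]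
      omega
    obtain ⟨i, hi⟩ := this
    exact ⟨i, hG g hgG (mem_filter.1 hi).1⟩
  have hcount : ∑ i ∈ I, ((kbad P' f Gs t).filter fun g => i ∈ g ∧ bF K (f i) ∉ P'.Zr).card =
      ∑ g ∈ kbad P' f Gs t, (I.filter fun i => i ∈ g ∧ bF K (f i) ∉ P'.Zr).card :=
    Finset.sum_card_bipartiteAbove_eq_sum_card_bipartiteBelow
      (s := I) (t := kbad P' f Gs t) (fun (i : ι) (g : Finset ι) => i ∈ g ∧ bF K (f i) ∉ P'.Zr)
  have hge : t * b ≤ ∑ g ∈ kbad P' f Gs t, (I.filter fun i => i ∈ g ∧ bF K (f i) ∉ P'.Zr).card := by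
    rw [hbdef, mul_comm, ← smul_eq_mul]
    refine Finset.card_nsmul_le_sum _ _ _ fun g hg => ?_
    simp only [kbad, mem_filter] at hg
    obtain ⟨hgG, -, hgt⟩ := hg
    refine hgt.le.trans (Finset.card_le_card fun i hi => ?_)
    rw [mem_filter] at hi ⊢
    exact ⟨hG g hgG hi.1, hi.1, hi.2⟩
  obtain ⟨i, hi, hic⟩ : ∃ i ∈ I, t * b ≤
      I.card * ((kbad P' f Gs t).filter fun g => i ∈ g ∧ bF K (f i) ∉ P'.Zr).card := by
    refine Finset.exists_le_of_sum_le hI ?_
    rw [Finset.sum_const, smul_eq_mul, ← Finset.mul_sum, hcount]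
    exact Nat.mul_le_mul_left _ hge
  set c := ((kbad P' f Gs t).filter fun g => i ∈ g ∧ bF K (f i) ∉ P'.Zr).card with hc
  have hcpos : 0 < c := by
    rcases Nat.eq_zero_or_pos c with h0 | h0
    · rw [h0, mul_zero] at hic
      have := Nat.mul_pos ht hbpos
      omega
    · exact h0
  have hi1 : bF K (f i) ∉ P'.Zr := by
    obtain ⟨g, hg⟩ := Finset.card_pos.1 hcpos
    exact (mem_filter.1 hg).2.2
  have hfi := hf i hi
  obtain ⟨P'', hE, hZ⟩ := exists_ext (f i) hfi (by omega : δ ≤ P'.B)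
  have hin : ∀ g ∈ P'.Zr, g ∈ P'.Deg δ → g ∈ P''.Zr := fun g hg hg' => hE.zr hg' hg (by omega)
  have hid : bF K (f i) * (1 - bF K (f i)) = 0 := by
    funext y
    show (if f i y then (1 : K) else 0) * (1 - if f i y then (1 : K) else 0) = 0
    cases f i y <;> simp
  have hfiV : 1 - bF K (f i) ∈ P''.Zr := by
    rw [hZ, hid]
    exact P'.Zr.zero_mem
  refine ⟨P'', hE, ?_, ?_⟩
  · rw [hZ, mul_one]
    exact hi1
  · have hdisj : (kbad P'' f Gs t).card + c ≤ b := by
      have hsub : kbad P'' f Gs t ⊆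
          (kbad P' f Gs t).filter fun g => ¬ (i ∈ g ∧ bF K (f i) ∉ P'.Zr) := by
        intro g hg
        simp only [kbad, mem_filter] at hg ⊢
        obtain ⟨hgG, hg1, hg2⟩ := hg
        refine ⟨⟨hgG, fun j hj hjV => hg1 j hj (hin _ hjV ?_), ?_⟩, fun h => hg1 i h.1 hfiV⟩
        · exact (P'.Deg δ).sub_mem (P'.mono (Nat.zero_le _) P'.one) (hf j (hG g hgG hj))
        · refine hg2.trans_le (Finset.card_le_card fun j hj => ?_)
          rw [mem_filter] at hj ⊢
          exact ⟨hj.1, fun hjV => hj.2 (hin _ hjV (hf j (hG g hgG hj.1)))⟩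
      have h3 := Finset.card_le_card hsub
      have h4 := Finset.card_filter_add_card_filter_not (s := kbad P' f Gs t)
        (fun g => i ∈ g ∧ bF K (f i) ∉ P'.Zr)
      omega
    have h5 : ((kbad P'' f Gs t).card + c) * I.card ≤ b * I.card :=
      Nat.mul_le_mul_right _ hdisj
    rw [add_mul] at h5
    rw [mul_comm I.card c] at hic
    omega

private lemma kfin {I t m L G : ℕ} (hI : t ≤ I) (hI0 : 0 < I) (hG : G < 2 ^ (L + 1))
    (htm : I * (L + 1) ≤ m * t) : G * (I - t) ^ m < I ^ m := by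
  have hIr : (0 : ℝ) < I := by exact_mod_cast hI0
  have h1 : ((I - t : ℕ) : ℝ) = I * (1 - t / I) := by
    rw [Nat.cast_sub hI]
    field_simp
  have h2 : (1 - (t : ℝ) / I) ≤ Real.exp (-(t / I)) := Real.one_sub_le_exp_neg _
  have h0 : (0 : ℝ) ≤ 1 - (t : ℝ) / I := by
    rw [sub_nonneg, div_le_one hIr]
    exact_mod_cast hI
  have h3 : (1 - (t : ℝ) / I) ^ m ≤ Real.exp (-((L : ℝ) + 1)) := by
    calc (1 - (t : ℝ) / I) ^ m ≤ (Real.exp (-(t / I))) ^ m := pow_le_pow_left₀ h0 h2 m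
      _ = Real.exp (-(m * t / I)) := by
        rw [← Real.exp_nat_mul]
        congr 1
        ring
      _ ≤ Real.exp (-((L : ℝ) + 1)) := by
        apply Real.exp_le_exp.2
        apply neg_le_neg
        rw [le_div_iff₀ hIr]
        have : ((I * (L + 1) : ℕ) : ℝ) ≤ ((m * t : ℕ) : ℝ) := by exact_mod_cast htm
        push_cast at this
        linarith
  have h4 : Real.exp (-((L : ℝ) + 1)) * 2 ^ (L + 1) ≤ 1 := by
    have h5 : (2 : ℝ) ≤ Real.exp 1 := by
      have := Real.add_one_le_exp (1 : ℝ)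
      linarith
    have h6 : Real.exp ((L : ℝ) + 1) = (Real.exp 1) ^ (L + 1) := by
      rw [← Real.exp_nat_mul]
      congr 1
      push_cast
      ring
    rw [Real.exp_neg, h6, inv_mul_le_iff₀ (by positivity), mul_one]
    exact pow_le_pow_left₀ (by norm_num) h5 _
  have hGr : (G : ℝ) < 2 ^ (L + 1) := by exact_mod_cast hG
  have h7 : (G : ℝ) * (1 - (t : ℝ) / I) ^ m < 1 := by
    calc (G : ℝ) * (1 - (t : ℝ) / I) ^ m ≤ G * Real.exp (-((L : ℝ) + 1)) :=
        mul_le_mul_of_nonneg_left h3 (Nat.cast_nonneg _)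
      _ < 2 ^ (L + 1) * Real.exp (-((L : ℝ) + 1)) :=
        mul_lt_mul_of_pos_right hGr (Real.exp_pos _)
      _ ≤ 1 := by
        rw [mul_comm]
        exact h4
  have h8 : ((G * (I - t) ^ m : ℕ) : ℝ) < ((I ^ m : ℕ) : ℝ) := by
    rw [Nat.cast_mul, Nat.cast_pow, Nat.cast_pow, h1, mul_pow]
    have h9 : (0 : ℝ) < (I : ℝ) ^ m := pow_pos hIr m
    calc (G : ℝ) * ((I : ℝ) ^ m * (1 - (t : ℝ) / I) ^ m) =
        (G * (1 - (t : ℝ) / I) ^ m) * (I : ℝ) ^ m := by ring
      _ < 1 * (I : ℝ) ^ m := mul_lt_mul_of_pos_right h7 h9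
      _ = (I : ℝ) ^ m := one_mul _
  exact_mod_cast h8

/-- decrease the budget only -/
private lemma kdec {P : PCI Y K} {c : ℕ} (hc : c ≤ P.B) :
    ∃ P' : PCI Y K, Ext P P' c ∧ ∀ f, f ∈ P'.Zr ↔ f ∈ P.Zr := by
  obtain ⟨P', hE, hZ⟩ := exists_ext (P := P) (c := c) (fun _ => true)
    (P.mono (Nat.zero_le _) (bF_const 0 true)) hc
  refine ⟨P', hE, fun f => ?_⟩
  have h : bF K (fun _ : Y => true) * f = f := by
    funext y
    simp [bF]
  rw [hZ, h]

open Classical in
theorem kill {P : PCI Y K} (h1 : (1 : Y → K) ∉ P.Zr) {δ : ℕ} (I : Finset ι) (f : ι → Y → Bool)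
    (hf : ∀ i ∈ I, bF K (f i) ∈ P.Deg δ) (Gs : Finset (Finset ι)) (hG : ∀ g ∈ Gs, g ⊆ I)
    (t mm : ℕ) (ht : 1 ≤ t) (htm : I.card * (Nat.log 2 Gs.card + 1) ≤ mm * t)
    (hB : (mm + 2) * δ ≤ P.B) :
    ∃ P' : PCI Y K, Ext P P' (mm * δ) ∧ (1 : Y → K) ∉ P'.Zr ∧
      ∀ g ∈ Gs, (∃ i ∈ g, 1 - bF K (f i) ∈ P'.Zr) ∨
        (g.filter fun i => bF K (f i) ∉ P'.Zr).card ≤ t := by
  have hmono : ∀ {P' : PCI Y K} {c : ℕ}, Ext P P' c → ∀ i ∈ I, bF K (f i) ∈ P'.Deg δ :=
    fun hE i hi => (hE.deg δ _).2 (hf i hi)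
  by_cases hIt : I.card < t
  · obtain ⟨P', hE, hZ⟩ := kdec (P := P) (c := mm * δ) (by nlinarith)
    refine ⟨P', hE, fun h => h1 ((hZ _).1 h), fun g hg => Or.inr ?_⟩
    exact ((Finset.card_filter_le _ _).trans (Finset.card_le_card (hG g hg))).trans hIt.le
  push Not at hIt
  have hI0 : 0 < I.card := lt_of_lt_of_le ht hIt
  have key : ∀ s ≤ mm, ∃ P' : PCI Y K, Ext P P' (s * δ) ∧ (1 : Y → K) ∉ P'.Zr ∧
      (kbad P' f Gs t).card * I.card ^ s ≤ Gs.card * (I.card - t) ^ s := by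
    intro s
    induction s with
    | zero =>
      intro _
      refine ⟨P, by rw [zero_mul]; exact Ext.refl P, h1, ?_⟩
      rw [pow_zero, pow_zero, mul_one, mul_one]
      exact Finset.card_filter_le _ _
    | succ s ih =>
      intro hs
      obtain ⟨P', hE, h1', hbd⟩ := ih (by omega)
      have hB1 := hE.hB
      have hs2 : (s + 1 + 2) * δ ≤ P.B := le_trans (Nat.mul_le_mul_right _ (by omega)) hB
      have he : (s + 1 + 2) * δ = s * δ + 3 * δ := by ring
      have he1 : (s + 1) * δ = s * δ + δ := by ring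
      rcases (kbad P' f Gs t).eq_empty_or_nonempty with h0 | h0
      · obtain ⟨P'', hE', hZ⟩ := kdec (P := P') (c := δ) (by omega)
        refine ⟨P'', by rw [he1]; exact hE.trans hE', fun h => h1' ((hZ _).1 h), ?_⟩
        have h2 : kbad P'' f Gs t = kbad P' f Gs t := by
          simp only [kbad, hZ]
        rw [h2, h0, Finset.card_empty, zero_mul]
        exact Nat.zero_le _
      · obtain ⟨P'', hE', h1'', hbd''⟩ := kstep I f (hmono hE) Gs hG t ht (by omega) h0
        refine ⟨P'', by rw [he1]; exact hE.trans hE', h1'', ?_⟩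
        have h2 : (kbad P'' f Gs t).card * I.card ≤ (kbad P' f Gs t).card * (I.card - t) := by
          rw [Nat.mul_sub]
          have := mul_comm t (kbad P' f Gs t).card
          omega
        calc (kbad P'' f Gs t).card * I.card ^ (s + 1) =
            ((kbad P'' f Gs t).card * I.card) * I.card ^ s := by ring
          _ ≤ ((kbad P' f Gs t).card * (I.card - t)) * I.card ^ s := Nat.mul_le_mul_right _ h2
          _ = ((kbad P' f Gs t).card * I.card ^ s) * (I.card - t) := by ring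
          _ ≤ (Gs.card * (I.card - t) ^ s) * (I.card - t) := Nat.mul_le_mul_right _ hbd
          _ = Gs.card * (I.card - t) ^ (s + 1) := by ring
  obtain ⟨P', hE, h1', hbd⟩ := key mm le_rfl
  refine ⟨P', hE, h1', fun g hg => ?_⟩
  by_contra hcon
  push Not at hcon
  have hgb : g ∈ kbad P' f Gs t := by
    simp only [kbad, mem_filter]
    exact ⟨hg, hcon.1, hcon.2⟩
  have hb1 : 1 ≤ (kbad P' f Gs t).card := Finset.card_pos.2 ⟨g, hgb⟩
  have h2 := kfin (m := mm) hIt hI0 (Nat.lt_pow_succ_log_self (by norm_num) Gs.card) htm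
  have h3 : I.card ^ mm ≤ (kbad P' f Gs t).card * I.card ^ mm := Nat.le_mul_of_pos_left _ hb1
  omega

end Pool.Agent.Work.MP_c04246_lc.GT
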