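import Pool.Agent.Work.MP_c04246_lc.GT.SpO

/-!
MODULE SpG (size S-M). The value of a decided (merged) conjunction or disjunction is the supremum of its generators.

Proof. `E u = bF K (ev F c u)`. `sup_dead`: `E a = 1` (`ha`). (A): `E z * (1 - 1) = 0`. (B): `1 * χ = E x * χ + (1 - E x) * χ`; the second term is in `Zr` by
`P.zmul` (`D + D' ≤ D' + M`).
`deg_live`: `bF K (F a)` or `1 - bF K (F a)`: `1 - E a = ∏ x ∈ N, (1 - E x)` pointwise (`ha`), `P.prod`, `deg_ev`, and `bF K (F a)` is `E a` or `1 - E a`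
according to `c`.
`sup_live`: (A): for `z ∈ N` the product `E z * (1 - E a)` is `0` pointwise. For `z ∉ N`: `E z ∈ Zr`, `P.zmul` (`D + N.card * D ≤ P.B`).
(B): `cover_zr` for `E a * χ` with the list of the events `ev F c z`, `z ∈ N` (`N.toList.map`), each of degree `≤ D`; `(E a * χ) * E z = (E z * χ) * E a ∈ Zr`
(`P.zmul`, `D + D' + N.card * D`); `D' + N.card * D + N.card * D ≤ D' + M ≤ P.B`. Where `E a ≠ 0` some `z ∈ N` has `F z y = c`. For `zmul` one needs
`D + D' + N.card * D ≤ P.B`, which holds as `N.card * D + N.card * D ≤ M` if `N` is nonempty; if `N = ∅` then `E a = 0`.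
-/

set_option autoImplicit false
set_option linter.unusedSectionVars false

namespace Pool.Agent.Work.MP_c04246_lc.GT

open Finset Fml H

variable {Y K : Type} [Field K] {p : ℕ} [Fact p.Prime] [CharP K p] {X : Type} [DecidableEq X]
  [Fintype X] {w m : ℕ}

private theorem ev_iff (F : Fml p X → Y → Bool) (c : Bool) (a : Fml p X) (y : Y) :
    ev F c a y = true ↔ F a y = c := by
  unfold ev
  exact beq_iff_eq

private theorem bF_one (F : Fml p X → Y → Bool) (c : Bool) (a : Fml p X) (y : Y)
    (h : F a y = c) : bF K (ev F c a) y = 1 :=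
  bF_true ((ev_iff F c a y).2 h)

private theorem bF_zero (F : Fml p X → Y → Bool) (c : Bool) (a : Fml p X) (y : Y)
    (h : F a y ≠ c) : bF K (ev F c a) y = 0 := by
  apply bF_false
  by_contra h1
  exact h ((ev_iff F c a y).1 (by simpa using h1))

theorem sup_dead {P : PCI Y K} {F : Fml p X → Y → Bool} {M D : ℕ} {c : Bool} {a x : Fml p X}
    (hx : x ∈ gens w m c a) (hd : bF K (F x) ∈ P.Deg D) (hx1 : 1 - bF K (ev F c x) ∈ P.Zr)
    (ha : ∀ y, F a y = c) (hM : D ≤ M) : Sup P F w m M c a := by
  have h1 : bF K (ev F c a) = 1 := by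
    funext y
    rw [bF_one F c a y (ha y), Pi.one_apply]
  refine ⟨fun z _ => ?_, fun D' χ hχ hB h => ?_⟩
  · rw [h1, sub_self, mul_zero]
    exact Submodule.zero_mem _
  · have h2 : bF K (ev F c a) * χ =
        bF K (ev F c x) * χ + (1 - bF K (ev F c x)) * χ := by
      rw [h1]
      ring
    rw [h2]
    refine Submodule.add_mem _ (h x hx) (P.zmul (D := D) (D' := D') (by omega) ?_ hx1 hχ)
    exact Submodule.sub_mem _ (P.one' D) (deg_ev hd)

theorem deg_live {P : PCI Y K} {F : Fml p X → Y → Bool} {D : ℕ} {c : Bool} {a : Fml p X}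
    (N : Finset (Fml p X)) (hd : ∀ x ∈ N, bF K (F x) ∈ P.Deg D)
    (ha : ∀ y, F a y = c ↔ ∃ x ∈ N, F x y = c) : bF K (F a) ∈ P.Deg (N.card * D) := by
  have h1 : 1 - bF K (ev F c a) = ∏ x ∈ N, (1 - bF K (ev F c x)) := by
    funext y
    rw [Finset.prod_apply, Pi.sub_apply, Pi.one_apply]
    by_cases h : F a y = c
    · obtain ⟨x, hx, hxy⟩ := (ha y).1 h
      rw [bF_one F c a y h, sub_self]
      symm
      apply Finset.prod_eq_zero hx
      rw [Pi.sub_apply, Pi.one_apply, bF_one F c x y hxy, sub_self]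
    · rw [bF_zero F c a y h, sub_zero]
      symm
      apply Finset.prod_eq_one
      intro x hx
      rw [Pi.sub_apply, Pi.one_apply, bF_zero F c x y (fun h2 => h ((ha y).2 ⟨x, hx, h2⟩)),
        sub_zero]
  have h2 : 1 - bF K (ev F c a) ∈ P.Deg (N.card * D) := by
    rw [h1]
    exact P.prod N _ fun x hx => Submodule.sub_mem _ (P.one' D) (deg_ev (hd x hx))
  have h3 : bF K (ev F c a) ∈ P.Deg (N.card * D) := by
    have h4 := Submodule.sub_mem _ (P.one' (N.card * D)) h2
    rwa [sub_sub_cancel] at h4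
  cases c with
  | true =>
    have h4 : bF K (F a) = bF K (ev F true a) := by
      funext y
      by_cases h : F a y = true
      · rw [bF_one F true a y h, bF_true h]
      · rw [bF_zero F true a y h, bF_false (by simpa using h)]
    rw [h4]
    exact h3
  | false =>
    have h4 : bF K (F a) = 1 - bF K (ev F false a) := by
      funext y
      rw [Pi.sub_apply, Pi.one_apply]
      by_cases h : F a y = false
      · rw [bF_one F false a y h, bF_false h, sub_self]
      · rw [bF_zero F false a y h, bF_true (by simpa using h), sub_zero]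
    rw [h4]
    exact h2

theorem sup_live {P : PCI Y K} {F : Fml p X → Y → Bool} {M D : ℕ} {c : Bool} {a : Fml p X}
    (N : Finset (Fml p X)) (hd : ∀ x ∈ gens w m c a, bF K (F x) ∈ P.Deg D)
    (hN : N ⊆ gens w m c a) (hN' : ∀ x ∈ gens w m c a, x ∉ N → bF K (ev F c x) ∈ P.Zr)
    (ha : ∀ y, F a y = c ↔ ∃ x ∈ N, F x y = c) (hM : 2 * (N.card * D) ≤ M)
    (hB : (N.card + 1) * D ≤ P.B) : Sup P F w m M c a := by
  have hdN : ∀ x ∈ N, bF K (F x) ∈ P.Deg D := fun x hx => hd x (hN hx)
  have hda : bF K (ev F c a) ∈ P.Deg (N.card * D) := deg_ev (deg_live N hdN ha)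
  refine ⟨fun z hz => ?_, fun D' χ hχ hB' h => ?_⟩
  · by_cases hzN : z ∈ N
    · have h1 : bF K (ev F c z) * (1 - bF K (ev F c a)) = 0 := by
        funext y
        rw [Pi.mul_apply, Pi.sub_apply, Pi.one_apply, Pi.zero_apply]
        by_cases h : F z y = c
        · rw [bF_one F c a y ((ha y).2 ⟨z, hzN, h⟩), sub_self, mul_zero]
        · rw [bF_zero F c z y h, zero_mul]
      rw [h1]
      exact Submodule.zero_mem _
    · refine P.zmul (D := D) (D' := N.card * D) ?_ (deg_ev (hd z hz)) (hN' z hz hzN)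
        (Submodule.sub_mem _ (P.one' _) hda)
      have : (N.card + 1) * D = N.card * D + D := by ring
      omega
  · refine cover_zr (M := D) (D := N.card * D + D') (P.mul hda hχ)
      (N.toList.map (fun z => ev F c z)) ?_ ?_ ?_
    · intro b hb
      rw [List.mem_map] at hb
      obtain ⟨z, hz, rfl⟩ := hb
      rw [Finset.mem_toList] at hz
      refine ⟨deg_ev (hdN z hz), ?_⟩
      have h1 : bF K (ev F c a) * χ * bF K (ev F c z) =
          (bF K (ev F c z) * χ) * bF K (ev F c a) := by ring
      rw [h1]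
      refine P.zmul (D := D + D') (D' := N.card * D) ?_ (P.mul (deg_ev (hdN z hz)) hχ)
        (h z (hN hz)) hda
      have h2 : 1 ≤ N.card := Finset.card_pos.2 ⟨z, hz⟩
      have h3 : D ≤ N.card * D := Nat.le_mul_of_pos_left _ h2
      omega
    · rw [List.length_map, Finset.length_toList]
      omega
    · intro y hy
      rw [Pi.mul_apply] at hy
      have h1 : F a y = c := by
        by_contra h2
        exact hy (by rw [bF_zero F c a y h2, zero_mul])
      obtain ⟨x, hx, hxy⟩ := (ha y).1 h1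
      exact ⟨ev F c x, List.mem_map.2 ⟨x, Finset.mem_toList.2 hx, rfl⟩, (ev_iff F c x y).2 hxy⟩

end Pool.Agent.Work.MP_c04246_lc.GT
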