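import Pool.Agent.Work.MP_c04246_lc.GT.Df

/-!
MODULE SyA (size S-M). Syntactic facts on `args`, `margs`, `strip`.

Proof. All by cases or induction on the formula. `wide_bin`, `wide_neg`: a `bin` or `neg` is not a `mod` (`mem_wide`, definition of `subs`).
`strip_free`: induction; for `bin c a b` both `a` and `b` have no wide subformula (`wide_bin`). `wide_strip`: induction (`wide_bin`);
`wide w m (cst _) = ∅`. `margs_bin`: `filter_union` and `Fml.args`. `margs_sub`: `margs ⊆ args ⊆ subs` (`R.args_sub` in G/Syn.lean, or
induction again). `mem_margs_wide`: definition. `vars_strip`: induction. `subs_strip`: induction: for `bin c a b` a subformula of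
`bin c (strip a) (strip b)` is the formula itself, `= strip w m c (bin c a b)`, or a subformula of `strip a` or `strip b`.
-/

set_option autoImplicit false
set_option linter.unusedSectionVars false

namespace Pool.Agent.Work.MP_c04246_lc.GT

open Finset Fml H

variable {p : ℕ} {V : Type} {w m : ℕ}

theorem wide_bin [DecidableEq (Fml p V)] (c : Bool) (a b : Fml p V) :
    wide w m (bin c a b) = wide w m a ∪ wide w m b := by
  ext x
  rw [mem_union, mem_wide, mem_wide, mem_wide]
  constructor
  · rintro ⟨h1, h2⟩
    simp only [subs, mem_insert, mem_union] at h1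
    rcases h1 with rfl | h1 | h1
    · obtain ⟨-, i, k, f, h3, -⟩ := h2
      exact absurd h3 (by simp)
    · exact Or.inl ⟨h1, h2⟩
    · exact Or.inr ⟨h1, h2⟩
  · rintro (⟨h1, h2⟩ | ⟨h1, h2⟩)
    · refine ⟨?_, h2⟩
      simp only [subs, mem_insert, mem_union]
      exact Or.inr (Or.inl h1)
    · refine ⟨?_, h2⟩
      simp only [subs, mem_insert, mem_union]
      exact Or.inr (Or.inr h1)

theorem wide_neg (a : Fml p V) : wide w m (neg a) = wide w m a := by
  ext x
  rw [mem_wide, mem_wide]
  constructor
  · rintro ⟨h1, h2⟩
    simp only [subs, mem_insert] at h1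
    rcases h1 with rfl | h1
    · obtain ⟨-, i, k, f, h3, -⟩ := h2
      exact absurd h3 (by simp)
    · exact ⟨h1, h2⟩
  · rintro ⟨h1, h2⟩
    refine ⟨?_, h2⟩
    simp only [subs, mem_insert]
    exact Or.inr h1

theorem margs_bin [DecidableEq (Fml p V)] (c : Bool) (a b : Fml p V) :
    margs w m c (bin c a b) = margs w m c a ∪ margs w m c b := by
  ext x
  simp only [margs, args, mem_filter, mem_union, if_true]
  tauto

private theorem args_other {c : Bool} {a : Fml p V} (h : ∀ x y, a ≠ bin c x y) :
    args c a = {a} := by
  cases a with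
  | var x => rfl
  | cst b => rfl
  | neg a => rfl
  | bin c' a b =>
    by_cases hc : c' = c
    · subst hc
      exact absurd rfl (h a b)
    · simp only [args, if_neg hc]
  | mod i k f => rfl

/-- a formula which is not a `bin c` is its only argument -/
theorem margs_other {c : Bool} {a : Fml p V} (h : ∀ x y, a ≠ bin c x y) :
    ((wide w m a).Nonempty → margs w m c a = {a}) ∧ (wide w m a = ∅ → margs w m c a = ∅) := by
  have h0 : args c a = {a} := args_other h
  constructor
  · intro h1
    rw [margs, h0, filter_singleton, if_pos h1]
  · intro h1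
    rw [margs, h0, filter_singleton, if_neg (by rw [h1]; exact not_nonempty_empty)]

theorem strip_bin (c : Bool) (a b : Fml p V) :
    strip w m c (bin c a b) = bin c (strip w m c a) (strip w m c b) := by
  simp only [strip, if_true]

theorem strip_other {c : Bool} {a : Fml p V} (h : ∀ x y, a ≠ bin c x y) :
    ((wide w m a).Nonempty → strip w m c a = cst (!c)) ∧
      (wide w m a = ∅ → strip w m c a = a) := by
  have e0 : ∀ s : Finset (Fml p V), s = ∅ → ¬ s.Nonempty := fun s hs => by
    rw [hs]
    exact not_nonempty_empty
  cases a with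
  | var x =>
    refine ⟨fun h1 => ?_, fun _ => rfl⟩
    obtain ⟨b, hb⟩ := h1
    obtain ⟨h2, -, i, k, f, h3, -⟩ := mem_wide.mp hb
    simp only [subs, mem_singleton] at h2
    rw [h2] at h3
    exact absurd h3 (by simp)
  | cst b =>
    refine ⟨fun h1 => ?_, fun _ => rfl⟩
    obtain ⟨b, hb⟩ := h1
    obtain ⟨h2, -, i, k, f, h3, -⟩ := mem_wide.mp hb
    simp only [subs, mem_singleton] at h2
    rw [h2] at h3
    exact absurd h3 (by simp)
  | neg a =>
    refine ⟨fun h1 => ?_, fun h1 => ?_⟩
    · simp only [strip, if_pos h1]
    · simp only [strip, if_neg (e0 _ h1)]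
  | bin c' a b =>
    by_cases hc : c' = c
    · subst hc
      exact absurd rfl (h a b)
    · refine ⟨fun h1 => ?_, fun h1 => ?_⟩
      · simp only [strip, if_neg hc, if_pos h1]
      · simp only [strip, if_neg hc, if_neg (e0 _ h1)]
  | mod i k f =>
    refine ⟨fun h1 => ?_, fun h1 => ?_⟩
    · simp only [strip, if_pos h1]
    · simp only [strip, if_neg (e0 _ h1)]

private theorem cases_bin (c : Bool) (a : Fml p V) :
    (∃ x y, a = bin c x y) ∨ ∀ x y, a ≠ bin c x y := by
  by_cases h : ∃ x y, a = bin c x y
  · exact Or.inl h
  · exact Or.inr fun x y hxy => h ⟨x, y, hxy⟩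

theorem strip_free {c : Bool} {a : Fml p V} (h : wide w m a = ∅) : strip w m c a = a := by
  classical
  induction a with
  | var x => rfl
  | cst b => rfl
  | neg a _ => exact (strip_other (by simp)).2 h
  | mod i k f _ => exact (strip_other (by simp)).2 h
  | bin c' a b iha ihb =>
    rcases cases_bin c (bin c' a b) with ⟨x, y, hxy⟩ | h1
    · have hc : c' = c := by
        injection hxy
      subst hc
      rw [wide_bin, union_eq_empty] at h
      rw [strip_bin, iha h.1, ihb h.2]
    · exact (strip_other h1).2 h

private theorem wide_cst (b : Bool) : wide w m (cst b : Fml p V) = ∅ := by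
  rw [eq_empty_iff_forall_notMem]
  intro x hx
  obtain ⟨h2, -, i, k, f, h3, -⟩ := mem_wide.mp hx
  simp only [subs, mem_singleton] at h2
  rw [h2] at h3
  exact absurd h3 (by simp)

private theorem strip_cases (c : Bool) {a : Fml p V} (h : ∀ x y, a ≠ bin c x y) :
    strip w m c a = cst (!c) ∨ (strip w m c a = a ∧ wide w m a = ∅) := by
  by_cases h1 : (wide w m a).Nonempty
  · exact Or.inl ((strip_other h).1 h1)
  · rw [not_nonempty_iff_eq_empty] at h1
    exact Or.inr ⟨(strip_other h).2 h1, h1⟩

theorem wide_strip (c : Bool) (a : Fml p V) : wide w m (strip w m c a) = ∅ := by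
  classical
  have key : ∀ a : Fml p V, (∀ x y, a ≠ bin c x y) → wide w m (strip w m c a) = ∅ := by
    intro a h
    rcases strip_cases (w := w) (m := m) c h with h1 | ⟨h1, h2⟩
    · rw [h1]
      exact wide_cst _
    · rw [h1]
      exact h2
  induction a with
  | var x => exact key _ (by simp)
  | cst b => exact key _ (by simp)
  | neg a _ => exact key _ (by simp)
  | mod i k f _ => exact key _ (by simp)
  | bin c' a b iha ihb =>
    rcases cases_bin c (bin c' a b) with ⟨x, y, hxy⟩ | h1
    · have hc : c' = c := by
        injection hxy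
      subst hc
      rw [strip_bin, wide_bin, iha, ihb, empty_union]
    · exact key _ h1

private theorem args_subs (c : Bool) (a : Fml p V) : args c a ⊆ subs a := by
  classical
  have key : ∀ a : Fml p V, (∀ x y, a ≠ bin c x y) → args c a ⊆ subs a := by
    intro a h
    rw [args_other h, singleton_subset_iff]
    exact subs_self a
  induction a with
  | var x => exact key _ (by simp)
  | cst b => exact key _ (by simp)
  | neg a _ => exact key _ (by simp)
  | mod i k f _ => exact key _ (by simp)
  | bin c' a b iha ihb =>
    rcases cases_bin c (bin c' a b) with ⟨x, y, hxy⟩ | h1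
    · have hc : c' = c := by
        injection hxy
      subst hc
      intro z hz
      simp only [args, if_true, mem_union] at hz
      simp only [subs, mem_insert, mem_union]
      rcases hz with hz | hz
      · exact Or.inr (Or.inl (iha hz))
      · exact Or.inr (Or.inr (ihb hz))
    · exact key _ h1

theorem margs_sub {c : Bool} {a x : Fml p V} (h : x ∈ margs w m c a) :
    x ∈ subs a ∧ (wide w m x).Nonempty := by
  rw [margs, mem_filter] at h
  exact ⟨args_subs c a h.1, h.2⟩

theorem vars_strip (c : Bool) (a : Fml p V) : vars (strip w m c a) ⊆ vars a := by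
  classical
  have key : ∀ a : Fml p V, (∀ x y, a ≠ bin c x y) → vars (strip w m c a) ⊆ vars a := by
    intro a h
    rcases strip_cases (w := w) (m := m) c h with h1 | ⟨h1, h2⟩
    · rw [h1]
      exact empty_subset _
    · rw [h1]
  induction a with
  | var x => exact key _ (by simp)
  | cst b => exact key _ (by simp)
  | neg a _ => exact key _ (by simp)
  | mod i k f _ => exact key _ (by simp)
  | bin c' a b iha ihb =>
    rcases cases_bin c (bin c' a b) with ⟨x, y, hxy⟩ | h1
    · have hc : c' = c := by
        injection hxy
      subst hc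
      rw [strip_bin]
      intro z hz
      simp only [vars, mem_union] at hz ⊢
      rcases hz with hz | hz
      · exact Or.inl (iha hz)
      · exact Or.inr (ihb hz)
    · exact key _ h1

theorem subs_strip {c : Bool} {a : Fml p V} : ∀ x ∈ subs (strip w m c a),
    x = cst (!c) ∨ x ∈ subs a ∨ ∃ a' ∈ subs a, x = strip w m c a' := by
  classical
  have key : ∀ a : Fml p V, (∀ x y, a ≠ bin c x y) → ∀ x ∈ subs (strip w m c a),
      x = cst (!c) ∨ x ∈ subs a ∨ ∃ a' ∈ subs a, x = strip w m c a' := by
    intro a h x hx
    rcases strip_cases (w := w) (m := m) c h with h1 | ⟨h1, h2⟩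
    · rw [h1] at hx
      simp only [subs, mem_singleton] at hx
      exact Or.inl hx
    · rw [h1] at hx
      exact Or.inr (Or.inl hx)
  induction a with
  | var x => exact key _ (by simp)
  | cst b => exact key _ (by simp)
  | neg a _ => exact key _ (by simp)
  | mod i k f _ => exact key _ (by simp)
  | bin c' a b iha ihb =>
    rcases cases_bin c (bin c' a b) with ⟨x, y, hxy⟩ | h1
    · have hc : c' = c := by
        injection hxy
      subst hc
      intro z hz
      rw [strip_bin] at hz
      simp only [subs, mem_insert, mem_union] at hz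
      rcases hz with hz | hz | hz
      · refine Or.inr (Or.inr ⟨bin c' a b, subs_self _, ?_⟩)
        rw [strip_bin, hz]
      · rcases iha z hz with h1 | h1 | ⟨a', h1, h2⟩
        · exact Or.inl h1
        · refine Or.inr (Or.inl ?_)
          simp only [subs, mem_insert, mem_union]
          exact Or.inr (Or.inl h1)
        · refine Or.inr (Or.inr ⟨a', ?_, h2⟩)
          simp only [subs, mem_insert, mem_union]
          exact Or.inr (Or.inl h1)
      · rcases ihb z hz with h1 | h1 | ⟨a', h1, h2⟩
        · exact Or.inl h1
        · refine Or.inr (Or.inl ?_)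
          simp only [subs, mem_insert, mem_union]
          exact Or.inr (Or.inr h1)
        · refine Or.inr (Or.inr ⟨a', ?_, h2⟩)
          simp only [subs, mem_insert, mem_union]
          exact Or.inr (Or.inr h1)
    · exact key _ h1

end Pool.Agent.Work.MP_c04246_lc.GT
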