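import Pool.Agent.Work.MP_c04246_lc.GT.Ev
import Pool.Agent.Work.MP_c04246_lc.GT.SyA

/-!
MODULE SpO (size S-M). Elementary properties of `Sup`.

Proof. `Sup.mono`: a larger `M` weakens (B). `Sup.congr`: `ev F' c x = ev F c x` for the generators and for `a`.
`Sup.ext`: `Ext.th` gives `θ`, `f ∈ P'.Zr ↔ bF K θ * f ∈ P.Zr`. (A): `Ext.zr`, degree `D + D` (`deg_ev`, `Submodule.sub_mem`, `P.one'`).
(B) for `χ ∈ P'.Deg D' = P.Deg D'`, `D' + M ≤ P'.B`: apply (B) of `P` to `bF K θ * χ`, of degree `≤ c0 + D'`, `c0 + D' + M ≤ P.B` (`Ext.hB`); the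
products are rearranged by `ring`/`mul_left_comm`.
`Sup.other`: if `a` contains a wide connective then `gens w m c a = {cst (!c), a}` (`margs_other`, `strip_other`); (A) at `a`:
`bF K u * (1 - bF K u) = 0` pointwise; (A) at `cst (!c) ∈ T`: `hT.rz (cst (!c))`: `rsp v (cst b) = (v (cst b) == b)`, so
`ev F c (cst (!c)) = !(rsp ..)` pointwise (cases on the Booleans) and `bF K (ev F c (cst (!c))) ∈ P.Zr`; multiply by `1 - bF K (ev F c a)`
(`P.zmul`, degrees `D0`, `D`). (B): `a` is a generator. If `wide w m a = ∅` then `gens = {a}`.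
-/

set_option autoImplicit false
set_option linter.unusedSectionVars false

namespace Pool.Agent.Work.MP_c04246_lc.GT

open Finset Fml H

variable {Y K : Type} [Field K] {p : ℕ} [Fact p.Prime] [CharP K p] {X : Type} [DecidableEq X]
  [Fintype X] {w m : ℕ}

theorem Sup.mono {P : PCI Y K} {F : Fml p X → Y → Bool} {M M' : ℕ} {c : Bool} {a : Fml p X}
    (h : Sup P F w m M c a) (hM : M ≤ M') : Sup P F w m M' c a := by
  exact ⟨h.A, fun D χ h1 h2 h3 => h.B D χ h1 (by omega) h3⟩

theorem Sup.congr {P : PCI Y K} {F F' : Fml p X → Y → Bool} {M : ℕ} {c : Bool} {a : Fml p X}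
    (h : Sup P F w m M c a) (ha : F' a = F a) (hx : ∀ x ∈ gens w m c a, F' x = F x) :
    Sup P F' w m M c a := by
  have hev : ∀ x, F' x = F x → ev F' c x = ev F c x := by
    intro x h1
    funext y
    simp only [ev, h1]
  refine ⟨fun x h1 => ?_, fun D χ h1 h2 h3 => ?_⟩
  · rw [hev x (hx x h1), hev a ha]
    exact h.A x h1
  · rw [hev a ha]
    refine h.B D χ h1 h2 fun x h4 => ?_
    rw [← hev x (hx x h4)]
    exact h3 x h4

theorem Sup.ext {P P' : PCI Y K} {c0 : ℕ} (he : Ext P P' c0) {F : Fml p X → Y → Bool}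
    {M D : ℕ} {c : Bool} {a : Fml p X} (h : Sup P F w m M c a) (hda : bF K (F a) ∈ P.Deg D)
    (hdx : ∀ x ∈ gens w m c a, bF K (F x) ∈ P.Deg D) (hB : 2 * D + c0 ≤ P.B) :
    Sup P' F w m M c a := by
  refine ⟨fun x h1 => ?_, fun D' χ h1 h2 h3 => ?_⟩
  · refine he.zr (D := D + D) (P.mul (deg_ev (hdx x h1))
      (Submodule.sub_mem _ (P.one' D) (deg_ev hda))) (h.A x h1) (by omega)
  · obtain ⟨θ, hθ, hz⟩ := he.th
    have hB' := he.hB
    have h4 : bF K θ * χ ∈ P.Deg (c0 + D') := P.mul hθ ((he.deg D' χ).mp h1)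
    have h5 := h.B (c0 + D') (bF K θ * χ) h4 (by omega) fun x hx => by
      have h6 := (hz _).mp (h3 x hx)
      rwa [mul_left_comm] at h6
    rw [hz, mul_left_comm]
    exact h5

/-- a formula which is not a `bin c` -/
theorem Sup.other {P : PCI Y K} {F : Fml p X → Y → Bool} {T : Finset (Fml p X)} {M D0 D : ℕ}
    {c : Bool} {a : Fml p X} (h : ∀ x y, a ≠ bin c x y) (hT : Evl P T D0 F)
    (hs : strip w m c a ∈ T) (hda : bF K (F a) ∈ P.Deg D) (hB : D0 + D ≤ P.B) :
    Sup P F w m M c a := by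
  classical
  have hmem : a ∈ gens w m c a := by
    rw [gens, mem_insert]
    rcases (wide w m a).eq_empty_or_nonempty with h1 | h1
    · exact Or.inl ((strip_other h).2 h1).symm
    · refine Or.inr ?_
      rw [(margs_other h).1 h1]
      exact mem_singleton_self a
  have h0 : bF K (ev F c a) * (1 - bF K (ev F c a)) ∈ P.Zr := by
    have h1 : bF K (ev F c a) * (1 - bF K (ev F c a)) = 0 := by
      funext y
      simp only [Pi.mul_apply, Pi.sub_apply, Pi.one_apply, Pi.zero_apply, bF_apply]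
      cases ev F c a y <;> simp
    rw [h1]
    exact P.Zr.zero_mem
  refine ⟨fun x hx => ?_, fun D' χ h1 h2 h3 => h3 a hmem⟩
  rw [gens, mem_insert] at hx
  rcases (wide w m a).eq_empty_or_nonempty with h1 | h1
  · rw [(strip_other h).2 h1, (margs_other h).2 h1] at hx
    rcases hx with rfl | hx
    · exact h0
    · exact absurd hx (notMem_empty x)
  · rw [(strip_other h).1 h1, (margs_other h).1 h1, mem_singleton] at hx
    rcases hx with rfl | rfl
    · rw [(strip_other h).1 h1] at hs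
      have h2 := hT.rz _ hs
      have h3 : (fun y => !(rsp (fun φ => F φ y) (cst (!c)))) = ev F c (cst (!c)) := by
        funext y
        simp only [rsp, ev]
        cases c <;> cases F (cst _) y <;> rfl
      rw [h3] at h2
      exact P.zmul hB (deg_ev (hT.deg _ hs)) h2 (Submodule.sub_mem _ (P.one' D) (deg_ev hda))
    · exact h0

end Pool.Agent.Work.MP_c04246_lc.GT
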