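import Pool.Agent.Work.MP_c04246_lc.GT.Kil
import Pool.Agent.Work.MP_c04246_lc.GT.Evn
import Pool.Agent.Work.MP_c04246_lc.GT.SpG

/-!
MODULE Stp (size M-L). Extension of a state from `A` to `A'`, where all arguments with a wide connective of the new conjunctions and
disjunctions are in `A`, and all but `s` of them are in the pool `Q`. Compare G/Stp.lean.

Proof. `D' = p ^ e * ((t + s + 1) * D)`, so `D0 ≤ D ≤ (t + s + 1) * D ≤ D'`. Index type `Bool × Fml p X` (classical `DecidableEq`),
`f (c, x) = ev F c x`, `I = univ ×ˢ (Q.filter (· ∈ A))`, `I.card ≤ 2 * Q.card`; `bF K (f i) ∈ P.Deg D` (`deg_ev`).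
`Gs` = the image of `A'.filter (· ∉ A)` under `χ ↦ {c} ×ˢ ((margs w m c χ).filter (· ∈ Q))` for `χ = bin c a b` and `χ ↦ ∅` for other `χ`;
`Gs.card ≤ A'.card`, so `I.card * (Nat.log 2 Gs.card + 1) ≤ mm * t` (`Nat.log_mono_right`); each gate is contained in `I` by `hbin`.
`kill` (`(mm + 2) * D ≤ P.B`) gives `P'`, `Ext P P' (mm * D)`, `1 ∉ P'.Zr`, and for `χ = bin c a b ∈ A' \ A`: (dead) some `x ∈ margs w m c χ`, `x ∈ Q`, has
`1 - bF K (ev F c x) ∈ P'.Zr`, or (live) at most `t` of the `x ∈ margs w m c χ` with `x ∈ Q` have `bF K (ev F c x) ∉ P'.Zr`, so that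
`N χ = insert (strip w m c χ) ((margs w m c χ).filter (bF K (ev F c ·) ∉ P'.Zr))` has at most `t + s + 1` elements.
Let `gv χ y = c` if `χ` is dead, and otherwise `gv χ y = c` if some `x ∈ N χ` has `F x y = c`, `gv χ y = !c` if not (`0` for other formulas).
`F' = evN (A ∪ T) F gv`. For `a ∈ A ∪ T`: `F' a = F a` (`evN_mem`). `bin c a b ∈ A' \ A` is not in `T` (`hTL`, `hLA`), so `F' = gv` there (`evN_bin`).
* `one`: `kill`. `evT`: `Evl.ext`, `Evl.congr`. `deg`: `evN_deg` with `D' = (t + s + 1) * D` there (`gv`: constant or `deg_live`, `N.card ≤ t + s + 1`), and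
  `p ^ hmod L a ≤ p ^ e`; use `P'.Deg = P.Deg` (`Ext.deg`).
* `sup` for `bin c a b ∈ A`: the old `Sup` by `Sup.ext` (degrees `≤ D`: the arguments are in `A` by `margs_sub`, `SC A`; the strip is in `T`), `Sup.congr`,
  `Sup.mono` (`D ≤ D'`). For `bin c a b ∈ A' \ A`: the generators are in `A ∪ T` (`hbin`, `hst`), so `F' = F` there; `sup_dead` (`D ≤ 10 * ((p + 3) * D')`) or
  `sup_live` for `P'` and `F'` with `N` (`2 * (N.card * D) ≤ 10 * ((p + 3) * D')`, `(N.card + 1) * D ≤ P'.B`).
* `rz` for `a ∈ A`: `Ext.zr` (`Evl.degR` for `F` on `A`), `rsp_congr` (`SC A`). For `a ∈ A' \ A` not a `bin`: if `a ∈ T` it is in `A` (`hTL`, `hLA`); otherwise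
  `evN_rsp`, so the function is `bF K (fun _ => false) = 0`.
-/

set_option autoImplicit false
set_option linter.unusedSectionVars false

namespace Pool.Agent.Work.MP_c04246_lc.GT

open Finset Fml H

variable {Y K : Type} [Field K] {p : ℕ} [Fact p.Prime] [CharP K p] {X : Type} [DecidableEq X]
  [Fintype X] {w m : ℕ}

open Classical in
private noncomputable def gt (w m : ℕ) (Q : Finset (Fml p X)) :
    Fml p X → Finset (Bool × Fml p X)
  | .bin c a b => ({c} : Finset Bool) ×ˢ ((margs w m c (.bin c a b)).filter fun x => x ∈ Q)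
  | .var _ => ∅
  | .cst _ => ∅
  | .neg _ => ∅
  | .mod _ _ _ => ∅

open Classical in
private noncomputable def nn (P' : PCI Y K) (w m : ℕ) (F : Fml p X → Y → Bool) (c : Bool)
    (a : Fml p X) : Finset (Fml p X) :=
  insert (strip w m c a) ((margs w m c a).filter fun x => bF K (ev F c x) ∉ P'.Zr)

open Classical in
private noncomputable def gvf (P' : PCI Y K) (w m : ℕ) (Q : Finset (Fml p X))
    (F : Fml p X → Y → Bool) : Fml p X → Y → Bool
  | .bin c a b => if ∃ x ∈ margs w m c (.bin c a b), x ∈ Q ∧ 1 - bF K (ev F c x) ∈ P'.Zr then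
      fun _ => c else
      fun y => if ∃ x ∈ nn P' w m F c (.bin c a b), F x y = c then c else !c
  | .var _ => fun _ => false
  | .cst _ => fun _ => false
  | .neg _ => fun _ => false
  | .mod _ _ _ => fun _ => false

omit [Fact p.Prime] [CharP K p] [DecidableEq X] [Fintype X] in
private lemma ev_congr {F F' : Fml p X → Y → Bool} {c : Bool} {x : Fml p X} (h : F' x = F x) :
    ev F' c x = ev F c x := by
  funext y
  unfold ev
  rw [h]

open Classical in
private lemma st_kill {P : PCI Y K} {T A A' Q : Finset (Fml p X)} {D0 D : ℕ}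
    {F : Fml p X → Y → Bool} (hSt : Sta P w m T A D0 D F) (s : ℕ)
    (hbin : ∀ c a b, bin c a b ∈ A' → bin c a b ∉ A → margs w m c (bin c a b) ⊆ A ∧
      ((margs w m c (bin c a b)).filter fun z => z ∉ Q).card ≤ s)
    (t mm : ℕ) (ht : 1 ≤ t)
    (hm : 2 * Q.card * (Nat.log 2 A'.card + 1) ≤ mm * t)
    (hB : (mm + 2) * D ≤ P.B) :
    ∃ P' : PCI Y K, Ext P P' (mm * D) ∧ (1 : Y → K) ∉ P'.Zr ∧
      ∀ c a b, bin c a b ∈ A' → bin c a b ∉ A →
        (∃ x ∈ margs w m c (.bin c a b), x ∈ Q ∧ 1 - bF K (ev F c x) ∈ P'.Zr) ∨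
        (nn P' w m F c (bin c a b)).card ≤ t + s + 1 := by
  obtain ⟨I, hI⟩ : ∃ I : Finset (Bool × Fml p X), I = univ ×ˢ (Q.filter (· ∈ A)) := ⟨_, rfl⟩
  obtain ⟨Gs, hGs⟩ : ∃ Gs : Finset (Finset (Bool × Fml p X)),
    Gs = (A'.filter (· ∉ A)).image (gt w m Q) := ⟨_, rfl⟩
  have hIc : I.card ≤ 2 * Q.card := by
    rw [hI, card_product, card_univ, Fintype.card_bool]
    exact Nat.mul_le_mul_left _ (card_filter_le _ _)
  have hGc : Nat.log 2 Gs.card ≤ Nat.log 2 A'.card := by
    apply Nat.log_mono_right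
    rw [hGs]
    exact card_image_le.trans (card_filter_le _ _)
  obtain ⟨P', h1, h2, h3⟩ := kill hSt.one I (fun i => ev F i.1 i.2)
    (δ := D) (by
      rintro ⟨c, l⟩ hi
      rw [hI, mem_product, mem_filter] at hi
      exact deg_ev (hSt.deg l hi.2.2)) Gs (by
      intro g hg
      rw [hGs, mem_image] at hg
      obtain ⟨χ, hχ, rfl⟩ := hg
      rw [mem_filter] at hχ
      cases χ with
      | bin c a b =>
        obtain ⟨h1, h2⟩ := hbin c a b hχ.1 hχ.2
        rintro ⟨c', l⟩ hl
        simp only [gt, mem_product, mem_filter] at hl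
        rw [hI, mem_product, mem_filter]
        exact ⟨mem_univ _, hl.2.2, h1 hl.2.1⟩
      | var x => simp [gt]
      | cst x => simp [gt]
      | neg x => simp [gt]
      | mod i k f => simp [gt]) t mm ht
    (by
      refine le_trans ?_ hm
      exact Nat.mul_le_mul hIc (Nat.add_le_add_right hGc 1)) hB
  refine ⟨P', h1, h2, ?_⟩
  intro c a b hχ hχA
  have hg : gt w m Q (Fml.bin c a b) ∈ Gs := by
    rw [hGs]
    exact mem_image_of_mem _ (mem_filter.2 ⟨hχ, hχA⟩)
  obtain ⟨hb1, hb2⟩ := hbin c a b hχ hχA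
  rcases h3 _ hg with ⟨⟨c', l⟩, hi, hl⟩ | h5
  · simp only [gt, mem_product, mem_singleton, mem_filter] at hi
    obtain ⟨rfl, hl2⟩ := hi
    exact Or.inl ⟨l, hl2.1, hl2.2, hl⟩
  · right
    have e1 : (((margs w m c (bin c a b)).filter fun x => x ∈ Q).filter
        fun x => bF K (ev F c x) ∉ P'.Zr).card ≤ t := by
      refine le_trans ?_ h5
      refine card_le_card_of_injOn (fun l => (c, l)) ?_ ?_
      · intro l hl
        rw [mem_coe, mem_filter, mem_filter] at hl
        rw [mem_coe, mem_filter]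
        refine ⟨?_, hl.2⟩
        simp only [gt, mem_product, mem_singleton, mem_filter]
        exact ⟨trivial, hl.1⟩
      · intro l _ l' _ h
        exact (Prod.mk.inj h).2
    have e2 : nn P' w m F c (bin c a b) ⊆ insert (strip w m c (bin c a b))
        ((((margs w m c (bin c a b)).filter fun x => x ∈ Q).filter
          fun x => bF K (ev F c x) ∉ P'.Zr) ∪
          ((margs w m c (bin c a b)).filter fun z => z ∉ Q)) := by
      unfold nn
      refine insert_subset_insert _ ?_
      intro x hx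
      rw [mem_filter] at hx
      rw [mem_union, mem_filter, mem_filter, mem_filter]
      by_cases hxQ : x ∈ Q
      · exact Or.inl ⟨⟨hx.1, hxQ⟩, hx.2⟩
      · exact Or.inr ⟨hx.1, hxQ⟩
    have e3 := card_le_card e2
    have e4 := card_insert_le (strip w m c (bin c a b))
      ((((margs w m c (bin c a b)).filter fun x => x ∈ Q).filter
          fun x => bF K (ev F c x) ∉ P'.Zr) ∪
          ((margs w m c (bin c a b)).filter fun z => z ∉ Q))
    have e5 := card_union_le (((margs w m c (bin c a b)).filter fun x => x ∈ Q).filter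
          fun x => bF K (ev F c x) ∉ P'.Zr) ((margs w m c (bin c a b)).filter fun z => z ∉ Q)
    omega

open Classical in
theorem step {P : PCI Y K} {L : Fml p X → Prop} {T A A' Q : Finset (Fml p X)} {D0 D : ℕ}
    {F : Fml p X → Y → Bool} (hSt : Sta P w m T A D0 D F) (hTc : SC T) (hTL : ∀ a ∈ T, L a)
    (hA : SC A) (hA' : SC A') (hAA : A ⊆ A') (hst : ∀ a ∈ A', ∀ c, strip w m c a ∈ T)
    (hLA : ∀ a ∈ A', L a → a ∈ A) (s : ℕ)
    (hbin : ∀ c a b, bin c a b ∈ A' → bin c a b ∉ A → margs w m c (bin c a b) ⊆ A ∧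
      ((margs w m c (bin c a b)).filter fun z => z ∉ Q).card ≤ s)
    (e : ℕ) (he : ∀ a ∈ A', hmod L a ≤ e) (t mm : ℕ) (hD0 : D0 ≤ D) (ht : 1 ≤ t)
    (hm : 2 * Q.card * (Nat.log 2 A'.card + 1) ≤ mm * t)
    (hB : mm * D + 20 * ((p + 3) * (p ^ e * ((t + s + 1) * D))) ≤ P.B) :
    ∃ (P' : PCI Y K) (F' : Fml p X → Y → Bool), Ext P P' (mm * D) ∧
      Sta P' w m T A' D0 (p ^ e * ((t + s + 1) * D)) F' ∧ ∀ a ∈ A ∪ T, F' a = F a := by
  have hp1 : 1 ≤ p := (Fact.out : p.Prime).one_lt.le
  have hpe : 1 ≤ p ^ e := Nat.one_le_pow _ _ hp1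
  obtain ⟨D', hD'⟩ : ∃ D', D' = p ^ e * ((t + s + 1) * D) := ⟨_, rfl⟩
  rw [← hD'] at hB ⊢
  have hD1 : D ≤ (t + s + 1) * D := Nat.le_mul_of_pos_left _ (by omega)
  have hD2 : (t + s + 1) * D ≤ D' := by rw [hD']; exact Nat.le_mul_of_pos_left _ hpe
  have hDD : D ≤ D' := hD1.trans hD2
  have hp3 : D' ≤ (p + 3) * D' := Nat.le_mul_of_pos_left _ (by omega)
  have hp4 : (p + 3) * D ≤ (p + 3) * D' := Nat.mul_le_mul_left _ hDD
  have hp5 : (p + 3) * D0 ≤ (p + 3) * D := Nat.mul_le_mul_left _ hD0
  obtain ⟨P', hext, hone, hk⟩ := st_kill hSt s hbin t mm ht hm (by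
    have : (mm + 2) * D = mm * D + 2 * D := by ring
    omega)
  have hPB := hext.hB
  obtain ⟨gv, hgv⟩ : ∃ gv : Fml p X → Y → Bool, gv = gvf P' w m Q F := ⟨_, rfl⟩
  obtain ⟨F', hF'⟩ : ∃ F' : Fml p X → Y → Bool, F' = evN (A ∪ T) F gv := ⟨_, rfl⟩
  have hFA : ∀ a ∈ A ∪ T, F' a = F a := fun a ha => by rw [hF']; exact evN_mem ha
  have hTA : ∀ a ∈ A', a ∉ A → a ∉ A ∪ T := by
    intro a ha haA h
    rw [mem_union] at h
    rcases h with h | h
    · exact haA h
    · exact haA (hLA a ha (hTL a h))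
  have hdAT : ∀ a ∈ A ∪ T, bF K (F a) ∈ P.Deg D := by
    intro a ha
    rw [mem_union] at ha
    rcases ha with h | h
    · exact hSt.deg a h
    · exact P.up (hSt.evT.deg a h) hD0
  have hdAT' : ∀ a ∈ A ∪ T, bF K (F a) ∈ P'.Deg D := fun a ha => (hext.deg _ _).2 (hdAT a ha)
  -- the generators
  have hgen : ∀ c a b, bin c a b ∈ A' → margs w m c (bin c a b) ⊆ A →
      ∀ x ∈ gens w m c (bin c a b), x ∈ A ∪ T := by
    intro c a b hχ hsub x hx
    rw [gens, mem_insert] at hx
    rw [mem_union]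
    rcases hx with rfl | hx
    · exact Or.inr (hst _ hχ c)
    · exact Or.inl (hsub hx)
  have hmar : ∀ c a b, bin c a b ∈ A → margs w m c (bin c a b) ⊆ A :=
    fun c a b h x hx => hA _ h (margs_sub hx).1
  have hnn : ∀ c a b, nn P' w m F c (bin c a b) ⊆ gens w m c (bin c a b) := by
    intro c a b
    unfold nn gens
    exact insert_subset_insert _ (filter_subset _ _)
  -- the live gates
  have hlive : ∀ c a b, (¬ ∃ x ∈ margs w m c (.bin c a b), x ∈ Q ∧
      1 - bF K (ev F c x) ∈ P'.Zr) → ∀ y, gv (bin c a b) y = c ↔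
        ∃ x ∈ nn P' w m F c (bin c a b), F x y = c := by
    intro c a b hne y
    rw [hgv]
    simp only [gvf]
    rw [if_neg hne]
    by_cases h : ∃ x ∈ nn P' w m F c (bin c a b), F x y = c
    · rw [if_pos h]
      exact ⟨fun _ => h, fun _ => rfl⟩
    · rw [if_neg h]
      exact ⟨fun h' => absurd h' (by cases c <;> simp), fun h' => absurd h' h⟩
  have hdead : ∀ c a b, (∃ x ∈ margs w m c (.bin c a b), x ∈ Q ∧
      1 - bF K (ev F c x) ∈ P'.Zr) → ∀ y, gv (bin c a b) y = c := by
    intro c a b h y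
    rw [hgv]
    simp only [gvf]
    rw [if_pos h]
  have hdgv : ∀ c a b, bin c a b ∈ A' → bin c a b ∉ A ∪ T →
      bF K (gv (bin c a b)) ∈ P'.Deg ((t + s + 1) * D) := by
    intro c a b hχ hχA
    have hχA' : bin c a b ∉ A := fun h => hχA (mem_union_left _ h)
    obtain ⟨hb1, -⟩ := hbin c a b hχ hχA'
    by_cases hex : ∃ x ∈ margs w m c (.bin c a b), x ∈ Q ∧ 1 - bF K (ev F c x) ∈ P'.Zr
    · have : gv (bin c a b) = fun _ => c := funext fun y => hdead c a b hex y
      rw [this]
      exact bF_const _ _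
    · have hc := (hk c a b hχ hχA').resolve_left hex
      have h1 := deg_live (P := P') (F := F') (a := bin c a b) (c := c) (D := D)
        (nn P' w m F c (bin c a b)) (fun x hx => by
          have hx' := hgen c a b hχ hb1 x (hnn c a b hx)
          rw [hFA x hx']
          exact hdAT' x hx') (fun y => by
          have e1 : F' (bin c a b) = gv (bin c a b) := by rw [hF']; exact evN_bin hχA
          rw [e1, hlive c a b hex y]
          constructor
          · rintro ⟨x, hx, h⟩
            exact ⟨x, hx, by rw [hFA x (hgen c a b hχ hb1 x (hnn c a b hx))]; exact h⟩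
          · rintro ⟨x, hx, h⟩
            exact ⟨x, hx, by rw [hFA x (hgen c a b hχ hb1 x (hnn c a b hx))] at h; exact h⟩)
      have e1 : F' (bin c a b) = gv (bin c a b) := by rw [hF']; exact evN_bin hχA
      rw [e1] at h1
      exact P'.up h1 (Nat.mul_le_mul_right _ hc)
  have hdeg : ∀ a ∈ A', bF K (F' a) ∈ P'.Deg D' := by
    intro a ha
    have h1 := evN_deg (P := P') (L := L) (A := A ∪ T) (A' := A') (F := F) (gv := gv)
      (D' := (t + s + 1) * D) (fun a ha => P'.up (hdAT' a ha) hD1) hA'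
      (fun a ha hL => mem_union_left _ (hLA a ha hL)) hdgv a ha
    rw [← hF'] at h1
    refine P'.up h1 ?_
    rw [hD']
    exact Nat.mul_le_mul_right _ (Nat.pow_le_pow_right hp1 (he a ha))
  refine ⟨P', F', hext, ⟨hone, ?_, hdeg, ?_, ?_⟩, hFA⟩
  · exact Evl.congr hTc (Evl.ext hext hTc hSt.evT (by omega))
      (fun a ha => hFA a (mem_union_right _ ha))
  · intro c a b hχ
    by_cases hχA : bin c a b ∈ A
    · have hg := hgen c a b hχ (hmar c a b hχA)
      have h1 := Sup.ext hext (hSt.sup c a b hχA) (D := D) (hSt.deg _ hχA)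
        (fun x hx => hdAT x (hg x hx)) (by omega)
      exact (h1.congr (hFA _ (mem_union_left _ hχA)) (fun x hx => hFA x (hg x hx))).mono
        (Nat.mul_le_mul_left _ hp4)
    · obtain ⟨hb1, -⟩ := hbin c a b hχ hχA
      have hg := hgen c a b hχ hb1
      have e1 : F' (bin c a b) = gv (bin c a b) := by rw [hF']; exact evN_bin (hTA _ hχ hχA)
      by_cases hex : ∃ x ∈ margs w m c (.bin c a b), x ∈ Q ∧ 1 - bF K (ev F c x) ∈ P'.Zr
      · have hex' := hex
        obtain ⟨x, hx, -, hx1⟩ := hex'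
        have hxg : x ∈ gens w m c (bin c a b) := by
          rw [gens, mem_insert]
          exact Or.inr hx
        refine sup_dead (D := D) hxg ?_ ?_ ?_ ?_
        · rw [hFA x (hg x hxg)]
          exact hdAT' x (hg x hxg)
        · rw [ev_congr (hFA x (hg x hxg))]
          exact hx1
        · intro y
          rw [e1]
          exact hdead c a b hex y
        · omega
      · have hc := (hk c a b hχ hχA).resolve_left hex
        have hcD : (nn P' w m F c (bin c a b)).card * D ≤ (t + s + 1) * D :=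
          Nat.mul_le_mul_right _ hc
        refine sup_live (D := D) (nn P' w m F c (bin c a b)) ?_ (hnn c a b) ?_ ?_ ?_ ?_
        · intro x hx
          rw [hFA x (hg x hx)]
          exact hdAT' x (hg x hx)
        · intro x hx hxN
          rw [ev_congr (hFA x (hg x hx))]
          by_contra h
          apply hxN
          rw [gens, mem_insert] at hx
          unfold nn
          rw [mem_insert, mem_filter]
          rcases hx with h' | h'
          · exact Or.inl h'
          · exact Or.inr ⟨h', h⟩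
        · intro y
          rw [e1, hlive c a b hex y]
          constructor
          · rintro ⟨x, hx, h⟩
            exact ⟨x, hx, by rw [hFA x (hg x (hnn c a b hx))]; exact h⟩
          · rintro ⟨x, hx, h⟩
            exact ⟨x, hx, by rw [hFA x (hg x (hnn c a b hx))] at h; exact h⟩
        · omega
        · rw [add_mul, one_mul]
          omega
  · intro a ha hnb
    by_cases haA : a ∈ A
    · have h1 := hext.zr (Evl.degR hA hSt.deg haA) (hSt.rz a haA hnb) (by omega)
      have h2 : (fun y => !(rsp (fun φ => F' φ y) a)) = fun y => !(rsp (fun φ => F φ y) a) := by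
        funext y
        congr 1
        exact rsp_congr fun b hb => by rw [hFA b (mem_union_left _ (hA a haA hb))]
      rw [h2]
      exact h1
    · have h1 : (fun y => !(rsp (fun φ => F' φ y) a)) = fun _ => false := by
        funext y
        rw [hF', evN_rsp (hTA a ha haA) hnb]
        rfl
      have h2 : bF K (fun _ : Y => false) = 0 := by
        funext y
        exact bF_false rfl
      rw [h1, h2]
      exact P'.Zr.zero_mem

end Pool.Agent.Work.MP_c04246_lc.GT
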